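import Pool.Agent.Helper42.GT.Stm2

/-! Sets which are dense at all scales, radices powers of two (module by helper27, after `ALL`) -/

set_option autoImplicit false

open Finset Filter

namespace Pool.Agent.Helper42.GT.AL2

open Pool.Agent.Helper42.GC Pool.Agent.Helper76.FX

/-- the exponents of the weights -/
noncomputable def wv (η : ℝ) : ℕ → ℕ
  | 0 => 0
  | j + 1 => wv η j + (⌈η * wv η j⌉₊ + 1)

/-- the exponents of the radices -/
noncomputable def rv (η : ℝ) (j : ℕ) : ℕ := ⌈η * wv η j⌉₊ + 1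

theorem wv_succ (η : ℝ) (j : ℕ) : wv η (j + 1) = wv η j + rv η j := rfl

theorem wt_rv (η : ℝ) (l : ℕ) : wt (fun j => 2 ^ rv η j) l = 2 ^ wv η l := by
  induction l with
  | zero => rw [wt_zero]; rfl
  | succ l ih => rw [wt_succ, ih, wv_succ, pow_add]

theorem wv_mono (η : ℝ) {i j : ℕ} (h : i ≤ j) : wv η i ≤ wv η j := by
  induction j, h using Nat.le_induction with
  | base => exact le_rfl
  | succ j _ ih => exact ih.trans (by rw [wv_succ]; exact Nat.le_add_right _ _)

theorem le_wv (η : ℝ) (j : ℕ) : j ≤ wv η j := by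
  induction j with
  | zero => exact Nat.zero_le _
  | succ j ih =>
    rw [wv_succ]
    unfold rv
    omega

theorem rv_le {η : ℝ} (hη : 0 ≤ η) (j : ℕ) : (rv η j : ℝ) ≤ η * wv η j + 2 := by
  unfold rv
  push_cast
  have := (Nat.ceil_lt_add_one (show 0 ≤ η * wv η j by positivity)).le
  linarith

theorem le_rv (η : ℝ) (j : ℕ) : η * wv η j ≤ rv η j := by
  unfold rv
  push_cast
  have := Nat.le_ceil (η * wv η j)
  linarith

theorem good (η : ℝ) : Good (fun j => 2 ^ rv η j) (fun j => sid (2 ^ (rv η j - 1))) where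
  two := fun j => by
    have h : rv η j ≠ 0 := by unfold rv; omega
    calc 2 = 2 ^ 1 := rfl
      _ ≤ 2 ^ rv η j := Nat.pow_le_pow_right (by norm_num) (by omega)
  zero := fun j => (sid_spec Nat.one_le_two_pow).1
  small := fun j s hs => by
    have h1 := (sid_spec (m := 2 ^ (rv η j - 1)) Nat.one_le_two_pow).2.1 s hs
    have h : rv η j = (rv η j - 1) + 1 := by unfold rv; omega
    have h2 : 2 ^ rv η j = 2 * 2 ^ (rv η j - 1) := by
      conv_lhs => rw [h]
      rw [pow_succ]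
      ring
    omega
  sidon := fun j a ha b hb c hc d hd => (sid_spec Nat.one_le_two_pow).2.2.1 a ha b hb c hc d hd

/-- a Sidon set below `m` has at most `2 √m` elements -/
theorem card_sid {m : ℕ} (h : 1 ≤ m) : (sid m).card ^ 2 ≤ 4 * m := by
  obtain ⟨-, h1, h2, -⟩ := sid_spec h
  have h3 := Finset.card_le_mul_card_image_of_maps_to (s := sid m ×ˢ sid m) (t := range (2 * m))
    (f := fun p : ℕ × ℕ => p.1 + p.2) (by
      rintro ⟨a, b⟩ hp
      rw [mem_product] at hp
      rw [mem_range]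
      have := h1 a hp.1
      have := h1 b hp.2
      simp only
      omega) 2 (by
      intro n _
      by_cases he : ((sid m ×ˢ sid m).filter (fun p : ℕ × ℕ => p.1 + p.2 = n)) = ∅
      · rw [he, card_empty]
        exact Nat.zero_le _
      · obtain ⟨⟨a, b⟩, hab⟩ := Finset.nonempty_iff_ne_empty.2 he
        rw [mem_filter, mem_product] at hab
        refine (card_le_card (t := {(a, b), (b, a)}) ?_).trans Finset.card_le_two
        rintro ⟨c, d⟩ hcd
        rw [mem_filter, mem_product] at hcd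
        simp only [mem_insert, mem_singleton, Prod.mk.injEq]
        rcases h2 a hab.1.1 b hab.1.2 c hcd.1.1 d hcd.1.2
          (by simp only at hab hcd; omega) with ⟨h5, h6⟩ | ⟨h5, h6⟩
        · left; exact ⟨h5.symm, h6.symm⟩
        · right; exact ⟨h6.symm, h5.symm⟩)
  rw [card_product, card_range] at h3
  rw [pow_two]
  omega

theorem wv_grow {η : ℝ} (hη : 0 < η) (i r : ℕ) : (1 + η) ^ r * (wv η i : ℝ) ≤ wv η (i + r) := by
  induction r with
  | zero => simp
  | succ r ih =>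
    have h1 : ((wv η (i + (r + 1)) : ℕ) : ℝ) = wv η (i + r) + rv η (i + r) := by
      rw [← add_assoc, wv_succ]
      push_cast
      ring
    have h2 := le_rv η (i + r)
    rw [h1, pow_succ]
    nlinarith

theorem prod_rv (η : ℝ) (i k : ℕ) :
    2 ^ wv η (i + k) = (∏ c ∈ range k, 2 ^ rv η (i + c)) * 2 ^ wv η i := by
  induction k with
  | zero => simp
  | succ k ih => rw [← add_assoc, wv_succ, pow_add, ih, prod_range_succ]; ring

theorem exists_index (η : ℝ) {x : ℕ} (hx : 1 ≤ x) :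
    ∃ l, 2 ^ wv η l ≤ x ∧ x < 2 ^ wv η (l + 1) := by
  refine ⟨Nat.findGreatest (fun l => 2 ^ wv η l ≤ x) x, ?_, ?_⟩
  · exact Nat.findGreatest_spec (P := fun l => 2 ^ wv η l ≤ x) (Nat.zero_le x) (by
      show 2 ^ wv η 0 ≤ x
      exact hx)
  · rcases Nat.lt_or_ge x (Nat.findGreatest (fun l => 2 ^ wv η l ≤ x) x + 1) with hlt | hge
    · refine lt_of_lt_of_le hlt ?_
      exact (Nat.lt_two_pow_self.le).trans (Nat.pow_le_pow_right (by norm_num) (le_wv η _))
    · have := Nat.findGreatest_is_greatest (P := fun l => 2 ^ wv η l ≤ x) (n := x)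
        (Nat.lt_succ_self _) hge
      exact not_le.1 this

/-- the number of elements of the digit sets -/
theorem card_le {η : ℝ} (hη : 0 ≤ η) {j N : ℕ} (hN : 2 ^ wv η j ≤ N) :
    ((sid (2 ^ (rv η j - 1))).card : ℝ) ≤ 3 * (N : ℝ) ^ (η / 2) := by
  have hNpos : 0 < N := lt_of_lt_of_le (by positivity) hN
  have hN0 : (0 : ℝ) < N := by exact_mod_cast hNpos
  have h1 := card_sid (m := 2 ^ (rv η j - 1)) Nat.one_le_two_pow
  have h : rv η j = (rv η j - 1) + 1 := by unfold rv; omega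
  have h2 : 2 ^ rv η j = 2 * 2 ^ (rv η j - 1) := by
    conv_lhs => rw [h]
    rw [pow_succ]
    ring
  have h3 : (sid (2 ^ (rv η j - 1))).card ^ 2 ≤ 2 * 2 ^ rv η j := by omega
  have h4 : (((sid (2 ^ (rv η j - 1))).card : ℝ)) ^ 2 ≤ 2 * (2 : ℝ) ^ (rv η j : ℝ) := by
    rw [Real.rpow_natCast]
    exact_mod_cast h3
  have h5 : (2 : ℝ) ^ (rv η j : ℝ) ≤ 4 * (N : ℝ) ^ η := by
    calc (2 : ℝ) ^ (rv η j : ℝ) ≤ (2 : ℝ) ^ (η * wv η j + 2) :=
          Real.rpow_le_rpow_of_exponent_le (by norm_num) (rv_le hη j)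
      _ = 4 * ((2 : ℝ) ^ (wv η j : ℝ)) ^ η := by
          rw [Real.rpow_add (by norm_num), ← Real.rpow_mul (by norm_num), mul_comm (η : ℝ)]
          have : (2 : ℝ) ^ (2 : ℝ) = 4 := by norm_num
          rw [this]
          ring
      _ ≤ 4 * (N : ℝ) ^ η := by
          apply mul_le_mul_of_nonneg_left _ (by norm_num)
          apply Real.rpow_le_rpow (by positivity) _ hη
          rw [Real.rpow_natCast]
          exact_mod_cast hN
  have h6 : ((N : ℝ) ^ (η / 2)) ^ 2 = (N : ℝ) ^ η := by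
    rw [← Real.rpow_natCast, ← Real.rpow_mul hN0.le]
    congr 1
    push_cast
    ring
  apply le_of_sq_le_sq _ (by positivity)
  calc (((sid (2 ^ (rv η j - 1))).card : ℝ)) ^ 2 ≤ 2 * (4 * (N : ℝ) ^ η) := by linarith
    _ ≤ 9 * (N : ℝ) ^ η := by
        have : 0 ≤ (N : ℝ) ^ η := by positivity
        linarith
    _ = (3 * (N : ℝ) ^ (η / 2)) ^ 2 := by rw [mul_pow, h6]; norm_num

theorem main : S_DGR → S_AL2 := by
  intro hDGR α κ k hα hκ hk hcond
  set η : ℝ := 2 * κ with hηdef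
  have hη : 0 < η := by positivity
  have h1η : (0 : ℝ) < 1 + η := by linarith
  have hgood := good η
  set S : ℕ → Finset ℕ := fun j => sid (2 ^ (rv η j - 1)) with hS
  set A : Set ℕ := dset (fun j => 2 ^ rv η j) S k with hA
  refine ⟨A, ?_, rep_dset hgood hk, ?_⟩
  · intro ε hε
    set K : ℝ := (2 + (2 ^ k + 1) * (8 * (η + 2))) * 9 with hK
    have hlim : 0 < ε / 4 := by linarith
    have hlim2 : 0 < ε / 2 := by linarith
    have hl : ∀ᶠ N : ℕ in atTop, Real.log N ≤ (N : ℝ) ^ (ε / 4) := by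
      have h1 := (isLittleO_log_rpow_atTop hlim).bound (show (0 : ℝ) < 1 by norm_num)
      have h2 := tendsto_natCast_atTop_atTop.eventually h1
      filter_upwards [h2, eventually_ge_atTop 3] with N h3 h4
      have h5 := one_le_log h4
      rw [Real.norm_eq_abs, Real.norm_eq_abs, one_mul, abs_of_nonneg (by linarith),
        abs_of_nonneg (by positivity)] at h3
      exact h3
    filter_upwards [(tendsto_rpow_nat hlim2).eventually_ge_atTop K, eventually_ge_atTop 3, hl]
      with N h1 h2 h5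
    have hN : (0 : ℝ) < N := by
      have : 0 < N := by omega
      exact_mod_cast this
    have hN1 : (1 : ℝ) ≤ N := by
      have : 1 ≤ N := by omega
      exact_mod_cast this
    set Lg : ℝ := ((Nat.log 2 N : ℕ) : ℝ) + 1 with hLg
    have hLg1 : 1 ≤ Lg := by rw [hLg]; linarith [(Nat.cast_nonneg (Nat.log 2 N) : (0 : ℝ) ≤ _)]
    have hLg2 : Lg ≤ 3 * (N : ℝ) ^ (ε / 4) := (log_two_le h2).trans (by linarith)
    obtain ⟨i, hi1, hi2⟩ := exists_index η (x := N) (by omega)
    have h3 := hDGR (rv η) S k hgood hk (i + 1) N (by rw [wt_rv]; exact hi2.le)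
    have hX : (1 : ℝ) ≤ (N : ℝ) ^ (η / 2) := Real.one_le_rpow hN1 (by linarith)
    have hterm : ∀ j ∈ range (i + 1), ((2 * rv η j * ((S j).card + 1) : ℕ) : ℝ) ≤
        8 * (η + 2) * Lg * (N : ℝ) ^ (η / 2) := by
      intro j hj
      rw [mem_range] at hj
      have h6 : 2 ^ wv η j ≤ N :=
        (Nat.pow_le_pow_right (by norm_num) (wv_mono η (by omega))).trans hi1
      have h7 : wv η j ≤ Nat.log 2 N := Nat.le_log_of_pow_le (by norm_num) h6
      have h8 : (wv η j : ℝ) ≤ Lg := by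
        rw [hLg]
        have : (wv η j : ℝ) ≤ (Nat.log 2 N : ℕ) := by exact_mod_cast h7
        linarith
      have h9 : (rv η j : ℝ) ≤ (η + 2) * Lg := by
        have h10 := rv_le hη.le j
        nlinarith
      have h11 : ((S j).card : ℝ) + 1 ≤ 4 * (N : ℝ) ^ (η / 2) := by
        have := card_le hη.le h6
        linarith
      push_cast
      calc 2 * (rv η j : ℝ) * (((S j).card : ℝ) + 1)
          ≤ 2 * ((η + 2) * Lg) * (4 * (N : ℝ) ^ (η / 2)) := by
            apply mul_le_mul _ h11 (by positivity) (by positivity)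
            linarith
        _ = 8 * (η + 2) * Lg * (N : ℝ) ^ (η / 2) := by ring
    have hi3 : ((i : ℝ) + 1) ≤ Lg := by
      have h7 : wv η i ≤ Nat.log 2 N := Nat.le_log_of_pow_le (by norm_num) hi1
      have h8 := le_wv η i
      rw [hLg]
      have : (i : ℝ) ≤ (Nat.log 2 N : ℕ) := by exact_mod_cast h8.trans h7
      linarith
    have hsum : ((∑ j ∈ range (i + 1), 2 * rv η j * ((S j).card + 1) : ℕ) : ℝ) ≤
        8 * (η + 2) * Lg ^ 2 * (N : ℝ) ^ (η / 2) := by
      rw [Nat.cast_sum]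
      calc ∑ j ∈ range (i + 1), ((2 * rv η j * ((S j).card + 1) : ℕ) : ℝ)
          ≤ ∑ _j ∈ range (i + 1), 8 * (η + 2) * Lg * (N : ℝ) ^ (η / 2) := sum_le_sum hterm
        _ = ((i : ℝ) + 1) * (8 * (η + 2) * Lg * (N : ℝ) ^ (η / 2)) := by
            rw [sum_const, card_range, nsmul_eq_mul]
            push_cast
            ring
        _ ≤ Lg * (8 * (η + 2) * Lg * (N : ℝ) ^ (η / 2)) :=
            mul_le_mul_of_nonneg_right hi3 (by positivity)
        _ = 8 * (η + 2) * Lg ^ 2 * (N : ℝ) ^ (η / 2) := by ring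
    have h4 : (gram A N : ℝ) ≤ 2 + (2 ^ k + 1) *
        ((∑ j ∈ range (i + 1), 2 * rv η j * ((S j).card + 1) : ℕ) : ℝ) := by
      exact_mod_cast h3
    have hLL : Lg ^ 2 ≤ 9 * (N : ℝ) ^ (ε / 2) := by
      calc Lg ^ 2 ≤ (3 * (N : ℝ) ^ (ε / 4)) ^ 2 := pow_le_pow_left₀ (by linarith) hLg2 2
        _ = 9 * (N : ℝ) ^ (ε / 2) := by
            rw [mul_pow, ← Real.rpow_natCast ((N : ℝ) ^ (ε / 4)), ← Real.rpow_mul hN.le]
            congr 1
            · norm_num
            · congr 1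
              push_cast
              ring
    have hL2 : 1 ≤ Lg ^ 2 := one_le_pow₀ hLg1
    have hk2 : (0 : ℝ) ≤ 2 ^ k + 1 := by positivity
    calc (gram A N : ℝ) ≤ 2 + (2 ^ k + 1) *
        ((∑ j ∈ range (i + 1), 2 * rv η j * ((S j).card + 1) : ℕ) : ℝ) := h4
      _ ≤ 2 + (2 ^ k + 1) * (8 * (η + 2) * Lg ^ 2 * (N : ℝ) ^ (η / 2)) := by
          have := mul_le_mul_of_nonneg_left hsum hk2
          linarith
      _ ≤ 2 * (Lg ^ 2 * (N : ℝ) ^ (η / 2)) +
          (2 ^ k + 1) * (8 * (η + 2) * Lg ^ 2 * (N : ℝ) ^ (η / 2)) := by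
          have : 1 ≤ Lg ^ 2 * (N : ℝ) ^ (η / 2) := one_le_mul_of_one_le_of_one_le hL2 hX
          linarith
      _ = (2 + (2 ^ k + 1) * (8 * (η + 2))) * Lg ^ 2 * (N : ℝ) ^ (η / 2) := by ring
      _ ≤ (2 + (2 ^ k + 1) * (8 * (η + 2))) * (9 * (N : ℝ) ^ (ε / 2)) * (N : ℝ) ^ (η / 2) := by
          apply mul_le_mul_of_nonneg_right _ (by positivity)
          exact mul_le_mul_of_nonneg_left hLL (by positivity)
      _ = K * (N : ℝ) ^ (ε / 2) * (N : ℝ) ^ (η / 2) := by rw [hK]; ring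
      _ ≤ (N : ℝ) ^ (ε / 2) * (N : ℝ) ^ (ε / 2) * (N : ℝ) ^ (η / 2) := by
          apply mul_le_mul_of_nonneg_right _ (by positivity)
          exact mul_le_mul_of_nonneg_right h1 (by positivity)
      _ = (N : ℝ) ^ (κ + ε) := by
          rw [← Real.rpow_add hN, ← Real.rpow_add hN]
          congr 1
          rw [hηdef]
          ring
  · set δ : ℝ := ((1 + η) ^ k)⁻¹ with hδ
    have hpk : (0 : ℝ) < (1 + η) ^ k := by positivity
    have hδ0 : 0 < δ := by positivity
    have hδ1 : δ < 1 - 2 * α * (1 + η) := by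
      rw [hδ, inv_lt_iff_one_lt_mul₀ hpk]
      exact hcond
    set θ : ℝ := (1 - δ) / (1 + η) with hθ
    have hθ1 : (1 + η) * θ = 1 - δ := by rw [hθ]; field_simp
    have hθ2 : 2 * α < θ := by
      rw [hθ, lt_div_iff₀ h1η]
      linarith
    have hθ0 : 0 ≤ θ := by linarith
    have hγ : 0 < θ - 2 * α := by linarith
    filter_upwards [(tendsto_rpow_nat hγ).eventually_ge_atTop
      (4 * (4 ^ θ * 64 ^ k)), eventually_ge_atTop (2 ^ wv η k)] with N h1 h2
    have hN1 : 1 ≤ N := Nat.one_le_two_pow.trans h2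
    obtain ⟨i', hi1, hi2⟩ := exists_index η (x := N) hN1
    have hi3 : k ≤ i' := by
      by_contra hcon
      have h3 := wv_mono η (i := i' + 1) (j := k) (by omega)
      have h4 := Nat.pow_le_pow_right (n := 2) (by norm_num) h3
      omega
    obtain ⟨i, rfl⟩ : ∃ i, i' = i + k := ⟨i' - k, by omega⟩
    have hNR : (1 : ℝ) ≤ N := by exact_mod_cast hN1
    have hN0 : (0 : ℝ) < N := by linarith
    set n := (A ∩ Set.Iio (2 ^ wv η (i + k))).ncard with hn
    set M : ℝ := (2 : ℝ) ^ wv η (i + k) with hM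
    have hM0 : 0 < M := by positivity
    set z : ℝ := (2 : ℝ) ^ wv η i with hz
    -- `z ≤ M ^ δ`
    have h3 : z ≤ M ^ δ := by
      have h4 := wv_grow hη i k
      have h5 : (wv η i : ℝ) ≤ δ * wv η (i + k) := by
        rw [hδ, inv_mul_eq_div, le_div_iff₀ hpk, mul_comm]
        exact h4
      calc z = (2 : ℝ) ^ (wv η i : ℝ) := by rw [hz, Real.rpow_natCast]
        _ ≤ (2 : ℝ) ^ (δ * wv η (i + k)) := Real.rpow_le_rpow_of_exponent_le (by norm_num) h5
        _ = M ^ δ := by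
            rw [hM, ← Real.rpow_natCast, ← Real.rpow_mul (by norm_num), mul_comm]
    -- `M ≤ 64 ^ k n ^ 2 z`
    have h4 : M ≤ 64 ^ k * (n : ℝ) ^ 2 * z := by
      have h5 := count_consecutive hgood (k := k) i
      rw [wt_rv] at h5
      have h6 : ∏ c ∈ range k, 2 ^ rv η (i + c) ≤ ∏ c ∈ range k, (64 * (S (i + c)).card ^ 2) := by
        apply Finset.prod_le_prod'
        intro c _
        have h7 := (sid_spec (m := 2 ^ (rv η (i + c) - 1)) Nat.one_le_two_pow).2.2.2
        have h : rv η (i + c) = (rv η (i + c) - 1) + 1 := by unfold rv; omega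
        have h8 : 2 ^ rv η (i + c) = 2 * 2 ^ (rv η (i + c) - 1) := by
          conv_lhs => rw [h]
          rw [pow_succ]
          ring
        show 2 ^ rv η (i + c) ≤ 64 * (sid (2 ^ (rv η (i + c) - 1))).card ^ 2
        omega
      rw [Finset.prod_mul_distrib, Finset.prod_const, card_range, Finset.prod_pow] at h6
      have h7 : ∏ c ∈ range k, 2 ^ rv η (i + c) ≤ 64 ^ k * n ^ 2 :=
        h6.trans (Nat.mul_le_mul_left _ (Nat.pow_le_pow_left h5 2))
      have h8 : 2 ^ wv η (i + k) ≤ 64 ^ k * n ^ 2 * 2 ^ wv η i := by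
        rw [prod_rv]
        exact Nat.mul_le_mul_right _ h7
      rw [hM, hz]
      exact_mod_cast h8
    have h5 : M ^ (1 - δ) ≤ 64 ^ k * (n : ℝ) ^ 2 := by
      have h6 : M ^ (1 - δ) * M ^ δ ≤ 64 ^ k * (n : ℝ) ^ 2 * M ^ δ := by
        rw [← Real.rpow_add hM0, sub_add_cancel, Real.rpow_one]
        exact h4.trans (mul_le_mul_of_nonneg_left h3 (by positivity))
      exact le_of_mul_le_mul_right h6 (by positivity)
    -- `N ≤ 4 M ^ (1 + η)`
    have h6 : (N : ℝ) ≤ 4 * M ^ (1 + η) := by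
      have h7 : (N : ℝ) ≤ (2 : ℝ) ^ wv η (i + k + 1) := by exact_mod_cast hi2.le
      have h8 : ((wv η (i + k + 1) : ℕ) : ℝ) ≤ (1 + η) * wv η (i + k) + 2 := by
        rw [wv_succ]
        push_cast
        have := rv_le hη.le (i + k)
        linarith
      calc (N : ℝ) ≤ (2 : ℝ) ^ ((wv η (i + k + 1) : ℕ) : ℝ) := by
            rw [Real.rpow_natCast]
            exact h7
        _ ≤ (2 : ℝ) ^ ((1 + η) * wv η (i + k) + 2) :=
            Real.rpow_le_rpow_of_exponent_le (by norm_num) h8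
        _ = 4 * M ^ (1 + η) := by
            rw [hM, ← Real.rpow_natCast, ← Real.rpow_mul (by norm_num),
              Real.rpow_add (by norm_num), mul_comm (wv η (i + k) : ℝ)]
            have : (2 : ℝ) ^ (2 : ℝ) = 4 := by norm_num
            rw [this]
            ring
    have h7 : (N : ℝ) ^ θ ≤ 4 ^ θ * 64 ^ k * (n : ℝ) ^ 2 := by
      calc (N : ℝ) ^ θ ≤ (4 * M ^ (1 + η)) ^ θ := Real.rpow_le_rpow (by positivity) h6 hθ0
        _ = 4 ^ θ * M ^ (1 - δ) := by
            rw [Real.mul_rpow (by norm_num) (by positivity), ← Real.rpow_mul hM0.le, hθ1]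
        _ ≤ 4 ^ θ * (64 ^ k * (n : ℝ) ^ 2) := mul_le_mul_of_nonneg_left h5 (by positivity)
        _ = 4 ^ θ * 64 ^ k * (n : ℝ) ^ 2 := by ring
    have h8 : 4 * (N : ℝ) ^ (2 * α) ≤ (n : ℝ) ^ 2 := by
      have h12 : (N : ℝ) ^ θ = (N : ℝ) ^ (2 * α) * (N : ℝ) ^ (θ - 2 * α) := by
        rw [← Real.rpow_add hN0]
        congr 1
        ring
      rw [h12] at h7
      have h13 : (N : ℝ) ^ (2 * α) * (4 * (4 ^ θ * 64 ^ k)) ≤ 4 ^ θ * 64 ^ k * (n : ℝ) ^ 2 :=
        (mul_le_mul_of_nonneg_left h1 (by positivity)).trans h7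
      have h14 : (0 : ℝ) < 4 ^ θ * 64 ^ k := by positivity
      have h15 : (4 ^ θ * 64 ^ k) * (4 * (N : ℝ) ^ (2 * α)) ≤ (4 ^ θ * 64 ^ k) * (n : ℝ) ^ 2 := by
        linarith
      exact le_of_mul_le_mul_left h15 h14
    have h9 : n ≤ (A ∩ Set.Icc 1 N).ncard + 1 := count_Icc (by omega)
    have h10 : (n : ℝ) ≤ ((A ∩ Set.Icc 1 N).ncard : ℝ) + 1 := by exact_mod_cast h9
    have h11 : 2 * (N : ℝ) ^ α ≤ n := by
      apply le_of_sq_le_sq _ (by positivity)
      calc (2 * (N : ℝ) ^ α) ^ 2 = 4 * (N : ℝ) ^ (2 * α) := by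
            rw [mul_pow, ← Real.rpow_natCast ((N : ℝ) ^ α), ← Real.rpow_mul hN0.le]
            congr 1
            · norm_num
            · congr 1
              push_cast
              ring
        _ ≤ (n : ℝ) ^ 2 := h8
    have h12 : 1 ≤ (N : ℝ) ^ α := Real.one_le_rpow hNR hα.le
    linarith

end Pool.Agent.Helper42.GT.AL2
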