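import Pool.Agent.Helper42.GT.Stm2

/-!
# AL3 (helper63): the limit `κ → 0`
-/

set_option autoImplicit false

open Finset Filter Topology

namespace Pool.Agent.Helper42.GT.AL3

open Pool.Agent.Helper42.GT

/-- `(1 + 2 κ) ^ k ≥ exp (2 c / (1 + 2 κ))` for `k ≥ c / κ` -/
theorem pow_ge {κ c : ℝ} (hκ : 0 < κ) (hc : 0 < c) :
    Real.exp (2 * c / (1 + 2 * κ)) ≤ (1 + 2 * κ) ^ ⌈c / κ⌉₊ := by
  have h1 : (0 : ℝ) < 1 + 2 * κ := by linarith
  have h2 : 1 - (1 + 2 * κ)⁻¹ ≤ Real.log (1 + 2 * κ) := Real.one_sub_inv_le_log_of_pos h1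
  have h3 : 1 - (1 + 2 * κ)⁻¹ = 2 * κ / (1 + 2 * κ) := by
    field_simp
    ring
  rw [h3] at h2
  have h4 : c / κ ≤ (⌈c / κ⌉₊ : ℝ) := Nat.le_ceil _
  have h5 : (1 + 2 * κ) ^ ⌈c / κ⌉₊ = Real.exp ((⌈c / κ⌉₊ : ℝ) * Real.log (1 + 2 * κ)) := by
    rw [← Real.log_pow, Real.exp_log (pow_pos h1 _)]
  rw [h5, Real.exp_le_exp]
  calc 2 * c / (1 + 2 * κ) = c / κ * (2 * κ / (1 + 2 * κ)) := by field_simp
    _ ≤ (⌈c / κ⌉₊ : ℝ) * Real.log (1 + 2 * κ) :=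
      mul_le_mul h4 h2 (by positivity) (by positivity)

theorem main : S_AL2 → S_AL3 := by
  intro h2 α c hα hα2 hc
  have h12 : 0 < 1 - 2 * α := by linarith
  have hc2 : 1 < (1 - 2 * α) * Real.exp (2 * c) := by
    have h3 : Real.log (1 / (1 - 2 * α)) < 2 * c := by linarith
    have h4 := (Real.log_lt_iff_lt_exp (by positivity)).1 h3
    rw [div_lt_iff₀ h12] at h4
    linarith
  have hc0 : 0 < c := by
    have h3 : 0 < Real.log (1 / (1 - 2 * α)) := by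
      apply Real.log_pos
      rw [lt_div_iff₀ h12]
      linarith
    linarith
  have hcont1 : ContinuousAt (fun κ : ℝ => 1 - 2 * α * (1 + 2 * κ)) 0 := by fun_prop
  have hcont2 : ContinuousAt (fun κ : ℝ => Real.exp (2 * c / (1 + 2 * κ))) 0 := by
    refine ContinuousAt.rexp (ContinuousAt.div (by fun_prop) (by fun_prop) (by norm_num))
  have e1 : ∀ᶠ κ in 𝓝 (0 : ℝ), 1 < (1 - 2 * α * (1 + 2 * κ)) * Real.exp (2 * c / (1 + 2 * κ)) := by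
    refine (hcont1.mul hcont2).eventually (lt_mem_nhds ?_)
    simpa using hc2
  have e2 : ∀ᶠ κ in 𝓝 (0 : ℝ), 0 < 1 - 2 * α * (1 + 2 * κ) := by
    refine hcont1.eventually (lt_mem_nhds ?_)
    simpa using h12
  obtain ⟨δ, hδ, hδs⟩ := Metric.eventually_nhds_iff.1 (e1.and e2)
  refine ⟨δ / 2, half_pos hδ, fun κ hκ hκ2 => ?_⟩
  obtain ⟨h3, h4⟩ := hδs (y := κ) (by
    rw [Real.dist_eq, sub_zero, abs_of_pos hκ]
    linarith)
  refine h2 α κ ⌈c / κ⌉₊ hα hκ (Nat.one_le_ceil_iff.2 (div_pos hc0 hκ)) (h3.trans_le ?_)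
  exact mul_le_mul_of_nonneg_left (pow_ge hκ hc0) h4.le

end Pool.Agent.Helper42.GT.AL3
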