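import Pool.Agent.Helper42.GT.Stm3
import Pool.Agent.Helper42.GT.AL2

/-! Sets which are dense at all scales, with nearly the least number of representations: parameters
(module by helper26, after `AL2` by helper27) -/

set_option autoImplicit false

open Finset Filter

namespace Pool.Agent.Helper42.GT.AL4

open Pool.Agent.Helper42.GC Pool.Agent.Helper76.FX Pool.Agent.Helper42.GT.AL2

theorem wp_rv (η : ℝ) (j : ℕ) : wp (rv η) j = wv η j := by
  induction j with
  | zero => rfl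
  | succ j ih =>
    unfold wp at ih ⊢
    rw [sum_range_succ, ih, wv_succ]

theorem rv_mono {η : ℝ} (hη : 0 ≤ η) {i j : ℕ} (h : i ≤ j) : rv η i ≤ rv η j := by
  unfold rv
  have h1 : (wv η i : ℝ) ≤ wv η j := by exact_mod_cast wv_mono η h
  have h2 := Nat.ceil_le_ceil (mul_le_mul_of_nonneg_left h1 hη)
  omega

/-- the exponents of the sizes of the digit sets -/
noncomputable def sv (η : ℝ) (b : ℕ) : ℕ := (rv η b - 8) / 2

theorem sv_mono {η : ℝ} (hη : 0 ≤ η) {i j : ℕ} (h : i ≤ j) : sv η i ≤ sv η j := by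
  unfold sv
  have := rv_mono hη h
  omega

theorem sv_le {η : ℝ} (hη : 0 ≤ η) (b : ℕ) : 2 * (sv η b : ℝ) ≤ η * wv η b := by
  have h1 := rv_le hη b
  have h2 : 2 * sv η b ≤ rv η b - 8 := by unfold sv; omega
  rcases Nat.lt_or_ge (rv η b) 8 with h | h
  · have h3 : sv η b = 0 := by omega
    rw [h3]
    push_cast
    have : 0 ≤ η * (wv η b : ℝ) := by positivity
    linarith
  · have h3 : 2 * sv η b + 8 ≤ rv η b := by omega
    have h4 : 2 * (sv η b : ℝ) + 8 ≤ rv η b := by exact_mod_cast h3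
    linarith

theorem le_sv (η : ℝ) (b : ℕ) : η * wv η b - 9 ≤ 2 * (sv η b : ℝ) := by
  have h1 := le_rv η b
  have h2 : rv η b ≤ 2 * sv η b + 9 := by unfold sv; omega
  have h3 : (rv η b : ℝ) ≤ 2 * (sv η b : ℝ) + 9 := by exact_mod_cast h2
  linarith

theorem wv_upper {η : ℝ} (hη : 0 < η) (b r : ℕ) :
    (wv η (b + r) : ℝ) + 2 / η ≤ (1 + η) ^ r * (wv η b + 2 / η) := by
  induction r with
  | zero => simp
  | succ r ih =>
    have h1 : ((wv η (b + (r + 1)) : ℕ) : ℝ) = wv η (b + r) + rv η (b + r) := by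
      rw [← add_assoc, wv_succ]
      push_cast
      ring
    have h2 := rv_le hη.le (b + r)
    have h3 : η * (2 / η) = 2 := by field_simp
    have h4 : (1 + η) * ((wv η (b + r) : ℝ) + 2 / η) ≤
        (1 + η) * ((1 + η) ^ r * (wv η b + 2 / η)) :=
      mul_le_mul_of_nonneg_left ih (by linarith)
    rw [h1, pow_succ]
    nlinarith

theorem rep_mono {A B : Set ℕ} (h : A ⊆ B) (n : ℕ) : rep A n ≤ rep B n := by
  unfold rep
  refine Set.ncard_le_ncard ?_ ?_
  · rintro ⟨a, b⟩ ⟨h1, h2, h3⟩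
    exact ⟨h h1, h h2, h3⟩
  · refine Set.Finite.subset (Set.finite_Iic (n, n)) ?_
    rintro ⟨a, b⟩ ⟨h1, h2, h3⟩
    simp only [Set.mem_Iic, Prod.mk_le_mk]
    simp only at h3
    omega

theorem main : S_QST → S_GRQ → S_AL4 := by
  intro hQ hG α κ η k hα hκ hη hk hcond1 hcond2
  have h1η : (0 : ℝ) < 1 + η := by linarith
  have hgood := good η
  set S : ℕ → Finset ℕ := fun j => sid (2 ^ (rv η j - 1)) with hS
  set b₀ : ℕ := ⌈8 / η⌉₊ with hb₀
  have hb8 : ∀ b, b₀ ≤ b → 8 ≤ rv η b := by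
    intro b hb
    have h1 : (8 : ℝ) / η ≤ b := (Nat.le_ceil _).trans (by exact_mod_cast hb)
    have h2 : (b : ℝ) ≤ wv η b := by exact_mod_cast le_wv η b
    have h3 := le_rv η b
    have h4 : (8 : ℝ) ≤ η * wv η b := by
      rw [div_le_iff₀ hη] at h1
      nlinarith
    exact_mod_cast h4.trans h3
  have hT : ∀ b c : ℕ, ∃ t : Finset ℕ, (∀ d ∈ t, d ∈ S (b + c) ∧ d ≠ 0) ∧
      (b₀ ≤ b → t.card = 2 ^ sv η b) ∧ t.card ≤ 2 ^ sv η b := by
    intro b c
    by_cases hb : b₀ ≤ b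
    · have h8 := hb8 b hb
      have h1 : 2 ^ sv η b ≤ ((S (b + c)).erase 0).card := by
        have h2 := (sid_spec (m := 2 ^ (rv η (b + c) - 1)) Nat.one_le_two_pow)
        have h3 : 0 ∈ S (b + c) := h2.1
        rw [card_erase_of_mem h3]
        have h4 : 2 ^ (rv η (b + c) - 1) ≤ 32 * (S (b + c)).card ^ 2 := h2.2.2.2
        have h5 := rv_mono hη.le (show b ≤ b + c by omega)
        have h6 : 2 * sv η b + 7 ≤ rv η (b + c) - 1 := by unfold sv; omega
        have h7 : 2 ^ (2 * sv η b + 7) ≤ 32 * (S (b + c)).card ^ 2 :=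
          (Nat.pow_le_pow_right (by norm_num) h6).trans h4
        have h9 : (2 * 2 ^ sv η b) ^ 2 ≤ (S (b + c)).card ^ 2 := by
          have e : 2 ^ (2 * sv η b + 7) = 32 * (2 * 2 ^ sv η b) ^ 2 := by
            rw [mul_pow, ← pow_mul, pow_add, mul_comm (sv η b) 2]
            ring
          omega
        have h10 : 2 * 2 ^ sv η b ≤ (S (b + c)).card := (Nat.pow_le_pow_iff_left (by norm_num)).1 h9
        have h11 : 1 ≤ 2 ^ sv η b := Nat.one_le_two_pow
        omega
      obtain ⟨t, ht1, ht2⟩ := Finset.exists_subset_card_eq h1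
      refine ⟨t, fun d hd => ?_, fun _ => ht2, ht2.le⟩
      have := ht1 hd
      rw [mem_erase] at this
      exact ⟨this.2, this.1⟩
    · exact ⟨∅, fun d hd => absurd hd (notMem_empty d), fun h => absurd h hb, by simp⟩
  choose T hT1 hT2 hT3 using hT
  have hTpos : ∀ b c, ∀ d ∈ T b c, 0 < d ∧ d < 2 ^ rv η (b + c) := by
    intro b c d hd
    obtain ⟨h1, h2⟩ := hT1 b c d hd
    have h3 := hgood.small (b + c) d h1
    exact ⟨Nat.pos_of_ne_zero h2, by omega⟩
  set A : Set ℕ := uset (rv η) T k b₀ with hA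
  refine ⟨A, ?_, ?_, ?_⟩
  · intro ε hε
    set κ' : ℝ := η / (2 * (1 + η) ^ (k - 1)) with hκ'
    have hpk : (0 : ℝ) < (1 + η) ^ (k - 1) := by positivity
    have hκ'0 : 0 ≤ κ' := by positivity
    have hκκ : κ' ≤ κ := by
      rw [hκ', div_le_iff₀ (by positivity)]
      linarith
    set K : ℝ := (2 + 40 * (3 + η)) * 9 with hK
    have hlim : 0 < ε / 4 := by linarith
    have hlim2 : 0 < ε / 2 := by linarith
    have hl : ∀ᶠ N : ℕ in atTop, Real.log N ≤ (N : ℝ) ^ (ε / 4) := by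
      have h1 := (isLittleO_log_rpow_atTop hlim).bound (show (0 : ℝ) < 1 by norm_num)
      have h2 := tendsto_natCast_atTop_atTop.eventually h1
      filter_upwards [h2, eventually_ge_atTop 3] with N h3 h4
      have h5 := one_le_log h4
      rw [Real.norm_eq_abs, Real.norm_eq_abs, one_mul, abs_of_nonneg (by linarith),
        abs_of_nonneg (by positivity)] at h3
      exact h3
    filter_upwards [(tendsto_rpow_nat hlim2).eventually_ge_atTop K, eventually_ge_atTop 3, hl,
      eventually_ge_atTop (2 ^ wv η k)] with N h1 h2 h5 h2k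
    have hN : (0 : ℝ) < N := by
      have : 0 < N := by omega
      exact_mod_cast this
    have hN1 : (1 : ℝ) ≤ N := by
      have : 1 ≤ N := by omega
      exact_mod_cast this
    set Lg : ℝ := ((Nat.log 2 N : ℕ) : ℝ) + 1 with hLg
    have hLg1 : 1 ≤ Lg := by rw [hLg]; linarith [(Nat.cast_nonneg (Nat.log 2 N) : (0 : ℝ) ≤ _)]
    have hLg2 : Lg ≤ 3 * (N : ℝ) ^ (ε / 4) := (log_two_le h2).trans (by linarith)
    obtain ⟨i, hi1, hi2⟩ := exists_index η (x := N) (by omega)
    have hik : k ≤ i := by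
      by_contra hcon
      have h3 := wv_mono η (i := i + 1) (j := k) (by omega)
      have h4 := Nat.pow_le_pow_right (n := 2) (by norm_num) h3
      omega
    have h3 := hG (rv η) T k b₀ (fun j => 2 ^ sv η (j - k)) hk hTpos
      (fun a b hab => Nat.pow_le_pow_right (by norm_num) (sv_mono hη.le (by omega)))
      (fun j => Nat.one_le_two_pow)
      (fun b _ c _ => by
        show (T b c).card ≤ 2 ^ sv η (b + k - k)
        rw [Nat.add_sub_cancel]
        exact hT3 b c) (i + 1) N (by rw [wp_rv]; exact hi2.le)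
    rw [wp_rv] at h3
    -- the size of `M`
    have hX : ((2 ^ sv η (i + 1 - k) : ℕ) : ℝ) ≤ (N : ℝ) ^ κ' := by
      have h4 := sv_le hη.le (i + 1 - k)
      have h6 := wv_grow hη (i + 1 - k) (k - 1)
      rw [show i + 1 - k + (k - 1) = i by omega] at h6
      have h7 : (sv η (i + 1 - k) : ℝ) ≤ κ' * wv η i := by
        rw [hκ', div_mul_eq_mul_div, le_div_iff₀ (by positivity)]
        nlinarith
      calc ((2 ^ sv η (i + 1 - k) : ℕ) : ℝ) = (2 : ℝ) ^ (sv η (i + 1 - k) : ℝ) := by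
            rw [Real.rpow_natCast]
            push_cast
            rfl
        _ ≤ (2 : ℝ) ^ (κ' * wv η i) := Real.rpow_le_rpow_of_exponent_le (by norm_num) h7
        _ = ((2 : ℝ) ^ (wv η i : ℝ)) ^ κ' := by
            rw [← Real.rpow_mul (by norm_num), mul_comm]
        _ ≤ (N : ℝ) ^ κ' := by
            apply Real.rpow_le_rpow (by positivity) _ hκ'0
            rw [Real.rpow_natCast]
            exact_mod_cast hi1
    have h7 : wv η i ≤ Nat.log 2 N := Nat.le_log_of_pow_le (by norm_num) hi1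
    have h8 : (wv η i : ℝ) ≤ Lg - 1 := by
      rw [hLg]
      have : (wv η i : ℝ) ≤ (Nat.log 2 N : ℕ) := by exact_mod_cast h7
      linarith
    have h9 : (i : ℝ) ≤ Lg - 1 := by
      have h10 : (i : ℝ) ≤ wv η i := by exact_mod_cast le_wv η i
      linarith
    have h10 : ((wv η (i + 1) : ℕ) : ℝ) + 1 ≤ (3 + η) * Lg := by
      rw [wv_succ]
      push_cast
      have := rv_le hη.le i
      nlinarith
    have h11 : ((i + 1 : ℕ) : ℝ) + 1 ≤ 2 * Lg := by
      push_cast
      linarith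
    have h4 : (gram A N : ℝ) ≤ 2 + 20 * (((i + 1 : ℕ) : ℝ) + 1) * (((wv η (i + 1) : ℕ) : ℝ) + 1) *
        ((2 ^ sv η (i + 1 - k) : ℕ) : ℝ) := by
      exact_mod_cast h3
    have hLL : Lg ^ 2 ≤ 9 * (N : ℝ) ^ (ε / 2) := by
      calc Lg ^ 2 ≤ (3 * (N : ℝ) ^ (ε / 4)) ^ 2 := pow_le_pow_left₀ (by linarith) hLg2 2
        _ = 9 * (N : ℝ) ^ (ε / 2) := by
            rw [mul_pow, ← Real.rpow_natCast ((N : ℝ) ^ (ε / 4)), ← Real.rpow_mul hN.le]
            congr 1
            · norm_num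
            · congr 1
              push_cast
              ring
    have hL2 : 1 ≤ Lg ^ 2 := one_le_pow₀ hLg1
    have hX1 : (1 : ℝ) ≤ (N : ℝ) ^ κ' := Real.one_le_rpow hN1 hκ'0
    have h12 : 20 * (((i + 1 : ℕ) : ℝ) + 1) * (((wv η (i + 1) : ℕ) : ℝ) + 1) *
        ((2 ^ sv η (i + 1 - k) : ℕ) : ℝ) ≤ 20 * (2 * Lg) * ((3 + η) * Lg) * (N : ℝ) ^ κ' := by
      gcongr
    calc (gram A N : ℝ) ≤ 2 + 20 * (2 * Lg) * ((3 + η) * Lg) * (N : ℝ) ^ κ' := by linarith
      _ ≤ 2 * (Lg ^ 2 * (N : ℝ) ^ κ') + 20 * (2 * Lg) * ((3 + η) * Lg) * (N : ℝ) ^ κ' := by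
          have : 1 ≤ Lg ^ 2 * (N : ℝ) ^ κ' := one_le_mul_of_one_le_of_one_le hL2 hX1
          linarith
      _ = (2 + 40 * (3 + η)) * Lg ^ 2 * (N : ℝ) ^ κ' := by ring
      _ ≤ (2 + 40 * (3 + η)) * (9 * (N : ℝ) ^ (ε / 2)) * (N : ℝ) ^ κ' := by
          apply mul_le_mul_of_nonneg_right _ (by positivity)
          exact mul_le_mul_of_nonneg_left hLL (by positivity)
      _ = K * (N : ℝ) ^ (ε / 2) * (N : ℝ) ^ κ' := by rw [hK]; ring
      _ ≤ (N : ℝ) ^ (ε / 2) * (N : ℝ) ^ (ε / 2) * (N : ℝ) ^ κ' := by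
          apply mul_le_mul_of_nonneg_right _ (by positivity)
          exact mul_le_mul_of_nonneg_right h1 (by positivity)
      _ = (N : ℝ) ^ (κ' + ε) := by
          rw [← Real.rpow_add hN, ← Real.rpow_add hN]
          congr 1
          ring
      _ ≤ (N : ℝ) ^ (κ + ε) := Real.rpow_le_rpow_of_exponent_le hN1 (by linarith)
  · intro n
    refine (rep_mono (B := dset (fun j => 2 ^ rv η j) S k) ?_ n).trans (rep_dset hgood hk n)
    rintro a ⟨b, _, hab⟩
    exact (hQ (rv η) T b (hTpos b)).2.2 S k hgood (fun c d hd => (hT1 b c d hd).1) hk a hab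
  · set P : ℝ := (1 + η) ^ (k + 1) with hP
    have hP0 : 0 < P := by positivity
    have hgap : 0 < k * η - 2 * α * P := by linarith
    set B : ℕ := max b₀ ⌈(9 * k + 4 * α * P / η) / (k * η - 2 * α * P)⌉₊ with hB
    filter_upwards [eventually_ge_atTop (2 ^ wv η (B + k))] with N h2
    have hN1 : 1 ≤ N := Nat.one_le_two_pow.trans h2
    obtain ⟨i', hi1, hi2⟩ := exists_index η (x := N) hN1
    have hi3 : B + k ≤ i' := by
      by_contra hcon
      have h3 := wv_mono η (i := i' + 1) (j := B + k) (by omega)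
      have h4 := Nat.pow_le_pow_right (n := 2) (by norm_num) h3
      omega
    obtain ⟨b, rfl⟩ : ∃ b, i' = b + k := ⟨i' - k, by omega⟩
    have hbB : B ≤ b := by omega
    have hbb : b₀ ≤ b := (le_max_left _ _).trans hbB
    have hN0 : (0 : ℝ) < N := by exact_mod_cast hN1
    obtain ⟨hq1, hq2, -⟩ := hQ (rv η) T b (hTpos b)
    -- the block is in `A ∩ [1, N]`
    have hsub : ((qs (rv η) T b k : Finset ℕ) : Set ℕ) ⊆ A ∩ Set.Icc 1 N := by
      intro y hy
      rw [mem_coe] at hy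
      refine ⟨⟨b, hbb, hy⟩, ?_, ?_⟩
      · obtain ⟨c, rfl⟩ : ∃ c, k = c + 1 := ⟨k - 1, by omega⟩
        exact Nat.one_le_two_pow.trans (hq2 c y hy)
      · have h3 := (hq1 k).1 y hy
        rw [wp_rv] at h3
        exact (h3.le).trans hi1
    have hcard : (qs (rv η) T b k).card = 2 ^ (sv η b * k) := by
      rw [(hq1 k).2, prod_congr rfl (fun c _ => hT2 b c hbb), prod_const, card_range, ← pow_mul]
    have h3 : 2 ^ (sv η b * k) ≤ (A ∩ Set.Icc 1 N).ncard := by
      have h4 := Set.ncard_le_ncard hsub ((Set.finite_Icc 1 N).inter_of_right A)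
      rwa [Set.ncard_coe_finset, hcard] at h4
    have h4 : ((2 : ℝ) ^ ((sv η b : ℝ) * k)) ≤ ((A ∩ Set.Icc 1 N).ncard : ℝ) := by
      have e : (2 : ℝ) ^ ((sv η b : ℝ) * k) = ((2 ^ (sv η b * k) : ℕ) : ℝ) := by
        push_cast
        rw [← Real.rpow_natCast 2 (sv η b * k)]
        push_cast
        rfl
      rw [e]
      exact_mod_cast h3
    refine le_trans ?_ h4
    -- the exponents
    have h5 : (N : ℝ) ≤ (2 : ℝ) ^ (P * (wv η b + 2 / η)) := by
      have h7 : (N : ℝ) ≤ (2 : ℝ) ^ wv η (b + k + 1) := by exact_mod_cast hi2.le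
      have h8 := wv_upper hη b (k + 1)
      rw [← add_assoc] at h8
      have h9 : 0 < 2 / η := by positivity
      calc (N : ℝ) ≤ (2 : ℝ) ^ ((wv η (b + k + 1) : ℕ) : ℝ) := by
            rw [Real.rpow_natCast]
            exact h7
        _ ≤ (2 : ℝ) ^ (P * (wv η b + 2 / η)) :=
            Real.rpow_le_rpow_of_exponent_le (by norm_num) (by linarith)
    calc (N : ℝ) ^ α ≤ ((2 : ℝ) ^ (P * (wv η b + 2 / η))) ^ α :=
          Real.rpow_le_rpow hN0.le h5 hα.le
      _ = (2 : ℝ) ^ (P * (wv η b + 2 / η) * α) := by rw [← Real.rpow_mul (by norm_num)]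
      _ ≤ (2 : ℝ) ^ ((sv η b : ℝ) * k) := by
          apply Real.rpow_le_rpow_of_exponent_le (by norm_num)
          have h6 := le_sv η b
          have h7 : (9 * k + 4 * α * P / η) / (k * η - 2 * α * P) ≤ wv η b := by
            have h8 : ((⌈(9 * k + 4 * α * P / η) / (k * η - 2 * α * P)⌉₊ : ℕ) : ℝ) ≤ wv η b := by
              exact_mod_cast ((le_max_right _ _).trans hbB).trans (le_wv η b)
            exact (Nat.le_ceil _).trans h8
          rw [div_le_iff₀ hgap] at h7
          have h9 : 4 * α * P / η = 2 * (α * P * (2 / η)) := by ring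
          rw [h9] at h7
          have hk0 : (0 : ℝ) ≤ k := Nat.cast_nonneg k
          nlinarith

end Pool.Agent.Helper42.GT.AL4
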