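import Pool.Agent.Helper42.GT.Stm3

/-!
# The limit `κ → 0`
-/

set_option autoImplicit false

open Finset Filter Topology

namespace Pool.Agent.Helper42.GT.AL5

open Pool.Agent.Helper42.GT

/-- the parameter `t` -/
lemma exists_t (α c : ℝ) (hα : 0 < α) (h1 : α < Real.exp (-1) / 2) (h2 : α < c) :
    ∃ t : ℝ, 0 < t ∧ 2 * α * Real.exp t < t ∧ t < 2 * c * Real.exp t := by
  obtain ⟨m, hm1, hm2⟩ := exists_between (lt_min h1 h2)
  have hcont : ContinuousOn (fun t : ℝ => t * Real.exp (-t) / 2) (Set.Icc 0 1) := by fun_prop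
  have hmem : m ∈ Set.Icc ((fun t : ℝ => t * Real.exp (-t) / 2) 0)
      ((fun t : ℝ => t * Real.exp (-t) / 2) 1) := by
    constructor
    · simp only [zero_mul, zero_div]; linarith
    · simp only [one_mul]; exact (hm2.trans_le (min_le_left _ _)).le
  obtain ⟨t, ht, htm⟩ := intermediate_value_Icc zero_le_one hcont hmem
  have htm' : t * Real.exp (-t) / 2 = m := htm
  have he : 0 < Real.exp t := Real.exp_pos t
  have hee : Real.exp (-t) * Real.exp t = 1 := by rw [← Real.exp_add]; simp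
  have hm0 : t = 2 * m * Real.exp t := by
    rw [← htm']
    linear_combination (-t) * hee
  have hm3 : m < c := hm2.trans_le (min_le_right _ _)
  refine ⟨t, ?_, ?_, ?_⟩
  · rw [hm0]
    have : 0 < m := hα.trans hm1
    positivity
  · calc 2 * α * Real.exp t < 2 * m * Real.exp t := by gcongr
      _ = t := hm0.symm
  · calc t = 2 * m * Real.exp t := hm0
      _ < 2 * c * Real.exp t := by gcongr

lemma ev (α c t : ℝ) (h1 : 2 * α * Real.exp t < t) (h2 : t < 2 * c * Real.exp t) :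
    ∀ᶠ k : ℕ in atTop, 1 ≤ k ∧ 2 * α * (1 + t / k) ^ (k + 1) < t ∧ t < 2 * c * (1 + t / k) ^ (k - 1) := by
  have hk := Real.tendsto_one_add_div_pow_exp t
  have h0 : Tendsto (fun k : ℕ => 1 + t / (k : ℝ)) atTop (𝓝 (1 + 0)) :=
    tendsto_const_nhds.add (tendsto_const_div_atTop_nhds_zero_nat t)
  rw [add_zero] at h0
  have h3 : Tendsto (fun k : ℕ => 2 * α * (1 + t / (k : ℝ)) ^ (k + 1)) atTop (𝓝 (2 * α * Real.exp t)) := by
    have := (hk.mul h0).const_mul (2 * α)
    rw [mul_one] at this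
    refine this.congr fun k => ?_
    rw [pow_succ]
  have h4 : Tendsto (fun k : ℕ => 2 * c * ((1 + t / (k : ℝ)) ^ k / (1 + t / (k : ℝ)))) atTop
      (𝓝 (2 * c * Real.exp t)) := by
    have := (hk.div h0 one_ne_zero).const_mul (2 * c)
    rw [div_one] at this
    exact this
  filter_upwards [h3.eventually_lt_const h1, h4.eventually_const_lt h2, eventually_ge_atTop 1,
    h0.eventually_const_lt (show (1 / 2 : ℝ) < 1 by norm_num)] with k e1 e2 e3 e4
  refine ⟨e3, e1, ?_⟩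
  have hne : (1 + t / (k : ℝ)) ≠ 0 := by
    intro h
    rw [h] at e4
    norm_num at e4
  have h5 : (1 + t / (k : ℝ)) ^ k / (1 + t / (k : ℝ)) = (1 + t / (k : ℝ)) ^ (k - 1) := by
    rw [div_eq_iff hne, ← pow_succ]
    congr 1
    omega
  rw [h5] at e2
  exact e2

theorem main : S_AL4 → S_AL5 := by
  intro hA α c hα h1 h2
  obtain ⟨t, ht, ht1, ht2⟩ := exists_t α c hα h1 h2
  obtain ⟨k₀, hk₀⟩ := eventually_atTop.1 (ev α c t ht1 ht2)
  have hc : 0 < c := hα.trans h2
  refine ⟨c / (k₀ + 1), by positivity, ?_⟩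
  intro κ hκ hκ0
  have hck : (k₀ : ℝ) + 1 ≤ c / κ := by
    rw [le_div_iff₀ hκ]
    rw [le_div_iff₀ (by positivity)] at hκ0
    linarith
  set k := ⌈c / κ⌉₊ with hk
  have hkc : c / κ ≤ (k : ℝ) := Nat.le_ceil _
  have hkk : k₀ ≤ k := by
    have : (k₀ : ℝ) ≤ k := by linarith
    exact_mod_cast this
  obtain ⟨hk1, e1, e2⟩ := hk₀ k hkk
  have hkpos : (0 : ℝ) < k := by exact_mod_cast (show 0 < k by omega)
  have hη : 0 < t / (k : ℝ) := by positivity
  have hp : 0 < (1 + t / (k : ℝ)) ^ (k - 1) := by positivity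
  refine hA α κ (t / k) k hα hκ hη hk1 ?_ ?_
  · rw [div_lt_iff₀ hkpos]
    have h3 : c ≤ κ * k := by
      rw [div_le_iff₀ hκ] at hkc
      linarith
    calc t < 2 * c * (1 + t / (k : ℝ)) ^ (k - 1) := e2
      _ ≤ 2 * (κ * k) * (1 + t / (k : ℝ)) ^ (k - 1) := by gcongr
      _ = 2 * κ * (1 + t / (k : ℝ)) ^ (k - 1) * k := by ring
  · have h4 : (k : ℝ) * (t / k) = t := by field_simp
    rw [h4]
    exact e1

end Pool.Agent.Helper42.GT.AL5
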