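import Pool.Agent.Helper42.GT.Stm4
import Pool.Agent.Helper42.GT.AL4

/-! Sets which are dense at all scales, the general trade-off: parameters
(module by helper52, after `AL4` by helper26) -/

set_option autoImplicit false

open Finset Filter

namespace Pool.Agent.Helper42.GT.AL6

open Pool.Agent.Helper42.GC Pool.Agent.Helper76.FX Pool.Agent.Helper42.GT.AL2
open Pool.Agent.Helper42.GT.AL4

theorem main : S_QST → S_GRQ → S_AL6 := by
  intro hQ hG α κ η k hα hκ hη hk hcond
  have h1η : (0 : ℝ) < 1 + η := by linarith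
  have hgood := good η
  set S : ℕ → Finset ℕ := fun j => sid (2 ^ (rv η j - 1)) with hS
  set b₀ : ℕ := ⌈8 / η⌉₊ with hb₀
  have hb8 : ∀ b, b₀ ≤ b → 8 ≤ rv η b := by
    intro b hb
    have h1 : (8 : ℝ) / η ≤ b := (Nat.le_ceil _).trans (by exact_mod_cast hb)
    have h2 : (b : ℝ) ≤ wv η b := by exact_mod_cast le_wv η b
    have h3 := le_rv η b
    have h4 : (8 : ℝ) ≤ η * wv η b := by
      rw [div_le_iff₀ hη] at h1
      nlinarith
    exact_mod_cast h4.trans h3
  set si : ℕ → ℕ := fun b => ⌊κ * (wv η (b + k - 1) : ℝ)⌋₊ with hsi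
  set ex : ℕ → ℕ → ℕ := fun b c => min (si b) (sv η (b + c)) with hex
  have hT : ∀ b c : ℕ, ∃ t : Finset ℕ, (∀ d ∈ t, d ∈ S (b + c) ∧ d ≠ 0) ∧
      (b₀ ≤ b → t.card = 2 ^ ex b c) ∧ t.card ≤ 2 ^ ex b c := by
    intro b c
    by_cases hb : b₀ ≤ b
    · have h8 := hb8 (b + c) (by omega)
      have h1 : 2 ^ ex b c ≤ ((S (b + c)).erase 0).card := by
        have h2 := (sid_spec (m := 2 ^ (rv η (b + c) - 1)) Nat.one_le_two_pow)
        have h3 : 0 ∈ S (b + c) := h2.1
        rw [card_erase_of_mem h3]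
        have h4 : 2 ^ (rv η (b + c) - 1) ≤ 32 * (S (b + c)).card ^ 2 := h2.2.2.2
        have h5 : ex b c ≤ sv η (b + c) := min_le_right _ _
        have h6 : 2 * ex b c + 7 ≤ rv η (b + c) - 1 := by
          have : 2 * sv η (b + c) + 7 ≤ rv η (b + c) - 1 := by unfold sv; omega
          omega
        have h7 : 2 ^ (2 * ex b c + 7) ≤ 32 * (S (b + c)).card ^ 2 :=
          (Nat.pow_le_pow_right (by norm_num) h6).trans h4
        have h9 : (2 * 2 ^ ex b c) ^ 2 ≤ (S (b + c)).card ^ 2 := by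
          have e : 2 ^ (2 * ex b c + 7) = 32 * (2 * 2 ^ ex b c) ^ 2 := by
            rw [mul_pow, ← pow_mul, pow_add, mul_comm (ex b c) 2]
            ring
          omega
        have h10 : 2 * 2 ^ ex b c ≤ (S (b + c)).card := (Nat.pow_le_pow_iff_left (by norm_num)).1 h9
        have h11 : 1 ≤ 2 ^ ex b c := Nat.one_le_two_pow
        omega
      obtain ⟨t, ht1, ht2⟩ := Finset.exists_subset_card_eq h1
      refine ⟨t, fun d hd => ?_, fun _ => ht2, ht2.le⟩
      have := ht1 hd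
      rw [mem_erase] at this
      exact ⟨this.2, this.1⟩
    · exact ⟨∅, fun d hd => absurd hd (notMem_empty d), fun h => absurd h hb, by simp⟩
  choose T hT1 hT2 hT3 using hT
  have hTpos : ∀ b c, ∀ d ∈ T b c, 0 < d ∧ d < 2 ^ rv η (b + c) := by
    intro b c d hd
    obtain ⟨h1, h2⟩ := hT1 b c d hd
    have h3 := hgood.small (b + c) d h1
    exact ⟨Nat.pos_of_ne_zero h2, by omega⟩
  set A : Set ℕ := uset (rv η) T k b₀ with hA
  refine ⟨A, ?_, ?_, ?_⟩
  · intro ε hε
    set K : ℝ := (2 + 40 * (3 + η)) * 9 with hK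
    have hlim : 0 < ε / 4 := by linarith
    have hlim2 : 0 < ε / 2 := by linarith
    have hl : ∀ᶠ N : ℕ in atTop, Real.log N ≤ (N : ℝ) ^ (ε / 4) := by
      have h1 := (isLittleO_log_rpow_atTop hlim).bound (show (0 : ℝ) < 1 by norm_num)
      have h2 := tendsto_natCast_atTop_atTop.eventually h1
      filter_upwards [h2, eventually_ge_atTop 3] with N h3 h4
      have h5 := one_le_log h4
      rw [Real.norm_eq_abs, Real.norm_eq_abs, one_mul, abs_of_nonneg (by linarith),
        abs_of_nonneg (by positivity)] at h3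
      exact h3
    filter_upwards [(tendsto_rpow_nat hlim2).eventually_ge_atTop K, eventually_ge_atTop 3, hl]
      with N h1 h2 h5
    have hN : (0 : ℝ) < N := by
      have : 0 < N := by omega
      exact_mod_cast this
    have hN1 : (1 : ℝ) ≤ N := by
      have : 1 ≤ N := by omega
      exact_mod_cast this
    set Lg : ℝ := ((Nat.log 2 N : ℕ) : ℝ) + 1 with hLg
    have hLg1 : 1 ≤ Lg := by rw [hLg]; linarith [(Nat.cast_nonneg (Nat.log 2 N) : (0 : ℝ) ≤ _)]
    have hLg2 : Lg ≤ 3 * (N : ℝ) ^ (ε / 4) := (log_two_le h2).trans (by linarith)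
    obtain ⟨i, hi1, hi2⟩ := exists_index η (x := N) (by omega)
    have h3 := hG (rv η) T k b₀ (fun j => 2 ^ ⌊κ * (wv η (j - 1) : ℝ)⌋₊) hk hTpos
      (fun a b hab => Nat.pow_le_pow_right (by norm_num) (Nat.floor_le_floor (by
        have h4 : (wv η (a - 1) : ℝ) ≤ wv η (b - 1) := by
          exact_mod_cast wv_mono η (i := a - 1) (j := b - 1) (by omega)
        exact mul_le_mul_of_nonneg_left h4 hκ.le)))
      (fun j => Nat.one_le_two_pow)
      (fun b _ c _ => (hT3 b c).trans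
        (Nat.pow_le_pow_right (by norm_num) (min_le_left _ _))) (i + 1) N
          (by rw [wp_rv]; exact hi2.le)
    rw [wp_rv] at h3
    -- the size of `M`
    have hX : ((2 ^ ⌊κ * (wv η (i + 1 - 1) : ℝ)⌋₊ : ℕ) : ℝ) ≤ (N : ℝ) ^ κ := by
      rw [Nat.add_sub_cancel]
      have h7 : ((⌊κ * (wv η i : ℝ)⌋₊ : ℕ) : ℝ) ≤ κ * wv η i := Nat.floor_le (by positivity)
      calc ((2 ^ ⌊κ * (wv η i : ℝ)⌋₊ : ℕ) : ℝ) = (2 : ℝ) ^ ((⌊κ * (wv η i : ℝ)⌋₊ : ℕ) : ℝ) := by
            rw [Real.rpow_natCast]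
            push_cast
            rfl
        _ ≤ (2 : ℝ) ^ (κ * wv η i) := Real.rpow_le_rpow_of_exponent_le (by norm_num) h7
        _ = ((2 : ℝ) ^ (wv η i : ℝ)) ^ κ := by
            rw [← Real.rpow_mul (by norm_num), mul_comm]
        _ ≤ (N : ℝ) ^ κ := by
            apply Real.rpow_le_rpow (by positivity) _ hκ.le
            rw [Real.rpow_natCast]
            exact_mod_cast hi1
    have h7 : wv η i ≤ Nat.log 2 N := Nat.le_log_of_pow_le (by norm_num) hi1
    have h8 : (wv η i : ℝ) ≤ Lg - 1 := by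
      rw [hLg]
      have : (wv η i : ℝ) ≤ (Nat.log 2 N : ℕ) := by exact_mod_cast h7
      linarith
    have h9 : (i : ℝ) ≤ Lg - 1 := by
      have h10 : (i : ℝ) ≤ wv η i := by exact_mod_cast le_wv η i
      linarith
    have h10 : ((wv η (i + 1) : ℕ) : ℝ) + 1 ≤ (3 + η) * Lg := by
      rw [wv_succ]
      push_cast
      have := rv_le hη.le i
      nlinarith
    have h11 : ((i + 1 : ℕ) : ℝ) + 1 ≤ 2 * Lg := by
      push_cast
      linarith
    have h4 : (gram A N : ℝ) ≤ 2 + 20 * (((i + 1 : ℕ) : ℝ) + 1) * (((wv η (i + 1) : ℕ) : ℝ) + 1) *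
        ((2 ^ ⌊κ * (wv η (i + 1 - 1) : ℝ)⌋₊ : ℕ) : ℝ) := by
      exact_mod_cast h3
    have hLL : Lg ^ 2 ≤ 9 * (N : ℝ) ^ (ε / 2) := by
      calc Lg ^ 2 ≤ (3 * (N : ℝ) ^ (ε / 4)) ^ 2 := pow_le_pow_left₀ (by linarith) hLg2 2
        _ = 9 * (N : ℝ) ^ (ε / 2) := by
            rw [mul_pow, ← Real.rpow_natCast ((N : ℝ) ^ (ε / 4)), ← Real.rpow_mul hN.le]
            congr 1
            · norm_num
            · congr 1
              push_cast
              ring
    have hL2 : 1 ≤ Lg ^ 2 := one_le_pow₀ hLg1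
    have hX1 : (1 : ℝ) ≤ (N : ℝ) ^ κ := Real.one_le_rpow hN1 hκ.le
    have h12 : 20 * (((i + 1 : ℕ) : ℝ) + 1) * (((wv η (i + 1) : ℕ) : ℝ) + 1) *
        ((2 ^ ⌊κ * (wv η (i + 1 - 1) : ℝ)⌋₊ : ℕ) : ℝ) ≤
          20 * (2 * Lg) * ((3 + η) * Lg) * (N : ℝ) ^ κ := by
      gcongr
    calc (gram A N : ℝ) ≤ 2 + 20 * (2 * Lg) * ((3 + η) * Lg) * (N : ℝ) ^ κ := by linarith
      _ ≤ 2 * (Lg ^ 2 * (N : ℝ) ^ κ) + 20 * (2 * Lg) * ((3 + η) * Lg) * (N : ℝ) ^ κ := by
          have : 1 ≤ Lg ^ 2 * (N : ℝ) ^ κ := one_le_mul_of_one_le_of_one_le hL2 hX1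
          linarith
      _ = (2 + 40 * (3 + η)) * Lg ^ 2 * (N : ℝ) ^ κ := by ring
      _ ≤ (2 + 40 * (3 + η)) * (9 * (N : ℝ) ^ (ε / 2)) * (N : ℝ) ^ κ := by
          apply mul_le_mul_of_nonneg_right _ (by positivity)
          exact mul_le_mul_of_nonneg_left hLL (by positivity)
      _ = K * (N : ℝ) ^ (ε / 2) * (N : ℝ) ^ κ := by rw [hK]; ring
      _ ≤ (N : ℝ) ^ (ε / 2) * (N : ℝ) ^ (ε / 2) * (N : ℝ) ^ κ := by
          apply mul_le_mul_of_nonneg_right _ (by positivity)
          exact mul_le_mul_of_nonneg_right h1 (by positivity)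
      _ = (N : ℝ) ^ (κ + ε) := by
          rw [← Real.rpow_add hN, ← Real.rpow_add hN]
          congr 1
          ring
  · intro n
    refine (rep_mono (B := dset (fun j => 2 ^ rv η j) S k) ?_ n).trans (rep_dset hgood hk n)
    rintro a ⟨b, _, hab⟩
    exact (hQ (rv η) T b (hTpos b)).2.2 S k hgood (fun c d hd => (hT1 b c d hd).1) hk a hab
  · set Sg : ℝ := ∑ i ∈ range k, min (2 * κ) (η / (1 + η) ^ i) with hSg
    set gp : ℝ := Sg / (1 + η) - 2 * α * (1 + η) with hgp
    have hgap : 0 < gp := by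
      have h1 : gp = (Sg - 2 * α * (1 + η) ^ 2) / (1 + η) := by
        rw [hgp]
        field_simp
      rw [h1]
      exact div_pos (by linarith) h1η
    set C : ℝ := 13 + 4 * κ / η with hC
    set B : ℕ := max b₀ ⌈(k * C + 4 * α) / gp⌉₊ with hB
    filter_upwards [eventually_ge_atTop (2 ^ wv η (B + k))] with N h2
    have hN1 : 1 ≤ N := Nat.one_le_two_pow.trans h2
    obtain ⟨i', hi1, hi2⟩ := exists_index η (x := N) hN1
    have hi3 : B + k ≤ i' := by
      by_contra hcon
      have h3 := wv_mono η (i := i' + 1) (j := B + k) (by omega)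
      have h4 := Nat.pow_le_pow_right (n := 2) (by norm_num) h3
      omega
    obtain ⟨b, rfl⟩ : ∃ b, i' = b + k := ⟨i' - k, by omega⟩
    have hbB : B ≤ b := by omega
    have hbb : b₀ ≤ b := (le_max_left _ _).trans hbB
    have hN0 : (0 : ℝ) < N := by exact_mod_cast hN1
    obtain ⟨hq1, hq2, -⟩ := hQ (rv η) T b (hTpos b)
    -- the block is in `A ∩ [1, N]`
    have hsub : ((qs (rv η) T b k : Finset ℕ) : Set ℕ) ⊆ A ∩ Set.Icc 1 N := by
      intro y hy
      rw [mem_coe] at hy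
      refine ⟨⟨b, hbb, hy⟩, ?_, ?_⟩
      · obtain ⟨c, rfl⟩ : ∃ c, k = c + 1 := ⟨k - 1, by omega⟩
        exact Nat.one_le_two_pow.trans (hq2 c y hy)
      · have h3 := (hq1 k).1 y hy
        rw [wp_rv] at h3
        exact (h3.le).trans hi1
    have hcard : (qs (rv η) T b k).card = 2 ^ (∑ c ∈ range k, ex b c) := by
      rw [(hq1 k).2, prod_congr rfl (fun c _ => hT2 b c hbb), prod_pow_eq_pow_sum]
    have h3 : 2 ^ (∑ c ∈ range k, ex b c) ≤ (A ∩ Set.Icc 1 N).ncard := by
      have h4 := Set.ncard_le_ncard hsub ((Set.finite_Icc 1 N).inter_of_right A)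
      rwa [Set.ncard_coe_finset, hcard] at h4
    have h4 : ((2 : ℝ) ^ (((∑ c ∈ range k, ex b c : ℕ)) : ℝ)) ≤ ((A ∩ Set.Icc 1 N).ncard : ℝ) := by
      rw [Real.rpow_natCast]
      exact_mod_cast h3
    refine le_trans ?_ h4
    -- the exponents
    set W : ℝ := (wv η (b + k) : ℝ) with hW
    have h5 : (N : ℝ) ≤ (2 : ℝ) ^ ((1 + η) * W + 2) := by
      have h7 : (N : ℝ) ≤ (2 : ℝ) ^ wv η (b + k + 1) := by exact_mod_cast hi2.le
      have h8 := rv_le hη.le (b + k)
      have h9 : ((wv η (b + k + 1) : ℕ) : ℝ) = wv η (b + k) + rv η (b + k) := by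
        rw [wv_succ]
        push_cast
        ring
      calc (N : ℝ) ≤ (2 : ℝ) ^ ((wv η (b + k + 1) : ℕ) : ℝ) := by
            rw [Real.rpow_natCast]
            exact h7
        _ ≤ (2 : ℝ) ^ ((1 + η) * W + 2) :=
            Real.rpow_le_rpow_of_exponent_le (by norm_num) (by rw [h9]; linarith)
    have hterm : ∀ c ∈ range k, W / (1 + η) * min (2 * κ) (η / (1 + η) ^ (k - 1 - c)) - C ≤
        2 * (ex b c : ℝ) := by
      intro c hc
      rw [mem_range] at hc
      have hW0 : 0 ≤ W := Nat.cast_nonneg _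
      have hWd : 0 ≤ W / (1 + η) := div_nonneg hW0 h1η.le
      have hm : ((ex b c : ℕ) : ℝ) = min ((si b : ℕ) : ℝ) ((sv η (b + c) : ℕ) : ℝ) := by
        rw [hex]
        push_cast
        rfl
      rw [hm, mul_min_of_nonneg _ _ (by norm_num : (0 : ℝ) ≤ 2), le_min_iff]
      have hκη : 0 ≤ 4 * κ / η := by positivity
      constructor
      · have h6 : κ * (wv η (b + k - 1) : ℝ) < (si b : ℝ) + 1 := Nat.lt_floor_add_one _
        have h7 := wv_upper hη (b + k - 1) 1
        rw [show b + k - 1 + 1 = b + k by omega, pow_one] at h7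
        have h8 : W / (1 + η) - 2 / η ≤ wv η (b + k - 1) := by
          rw [sub_le_iff_le_add, div_le_iff₀ h1η]
          have : 0 < 2 / η := by positivity
          nlinarith
        have h9 : W / (1 + η) * min (2 * κ) (η / (1 + η) ^ (k - 1 - c)) ≤ W / (1 + η) * (2 * κ) :=
          mul_le_mul_of_nonneg_left (min_le_left _ _) hWd
        have h10 : κ * (W / (1 + η) - 2 / η) ≤ κ * wv η (b + k - 1) :=
          mul_le_mul_of_nonneg_left h8 hκ.le
        have h11 : κ * (W / (1 + η) - 2 / η) = (W / (1 + η) * (2 * κ)) / 2 - (4 * κ / η) / 2 := by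
          ring
        rw [hC]
        linarith
      · have h6 := le_sv η (b + c)
        have h7 := wv_upper hη (b + c) (k - c)
        rw [show b + c + (k - c) = b + k by omega] at h7
        have hp : (0 : ℝ) < (1 + η) ^ (k - c) := by positivity
        have h8 : W / (1 + η) ^ (k - c) - 2 / η ≤ wv η (b + c) := by
          rw [sub_le_iff_le_add, div_le_iff₀ hp]
          have : 0 < 2 / η := by positivity
          nlinarith
        have h9 : W / (1 + η) * min (2 * κ) (η / (1 + η) ^ (k - 1 - c)) ≤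
            W / (1 + η) * (η / (1 + η) ^ (k - 1 - c)) :=
          mul_le_mul_of_nonneg_left (min_le_right _ _) hWd
        have h10 : η * (W / (1 + η) ^ (k - c) - 2 / η) ≤ η * wv η (b + c) :=
          mul_le_mul_of_nonneg_left h8 hη.le
        have h11 : W / (1 + η) * (η / (1 + η) ^ (k - 1 - c)) = η * (W / (1 + η) ^ (k - c)) := by
          rw [show k - c = (k - 1 - c) + 1 by omega, pow_succ]
          field_simp
        have h12 : η * (2 / η) = 2 := by field_simp
        rw [hC]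
        nlinarith
    have hsum : W / (1 + η) * Sg - k * C ≤ 2 * ((∑ c ∈ range k, ex b c : ℕ) : ℝ) := by
      have h6 := sum_le_sum hterm
      rw [sum_sub_distrib, ← mul_sum, sum_const, card_range, nsmul_eq_mul, ← mul_sum] at h6
      have h7 : ∑ c ∈ range k, min (2 * κ) (η / (1 + η) ^ (k - 1 - c)) = Sg := by
        rw [hSg]
        exact sum_range_reflect (fun i => min (2 * κ) (η / (1 + η) ^ i)) k
      rw [h7] at h6
      push_cast
      exact h6
    calc (N : ℝ) ^ α ≤ ((2 : ℝ) ^ ((1 + η) * W + 2)) ^ α :=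
          Real.rpow_le_rpow hN0.le h5 hα.le
      _ = (2 : ℝ) ^ (((1 + η) * W + 2) * α) := by rw [← Real.rpow_mul (by norm_num)]
      _ ≤ (2 : ℝ) ^ (((∑ c ∈ range k, ex b c : ℕ)) : ℝ) := by
          apply Real.rpow_le_rpow_of_exponent_le (by norm_num)
          have h7 : (k * C + 4 * α) / gp ≤ W := by
            have h8 : ((⌈(k * C + 4 * α) / gp⌉₊ : ℕ) : ℝ) ≤ W := by
              rw [hW]
              exact_mod_cast (((le_max_right _ _).trans hbB).trans (Nat.le_add_right b k)).trans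
                (le_wv η (b + k))
            exact (Nat.le_ceil _).trans h8
          rw [div_le_iff₀ hgap, hgp] at h7
          have h9 : W * (Sg / (1 + η) - 2 * α * (1 + η)) =
              W / (1 + η) * Sg - 2 * (α * ((1 + η) * W)) := by ring
          rw [h9] at h7
          linarith

end Pool.Agent.Helper42.GT.AL6
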