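import Pool.Agent.Helper42.GT.Stm4

/-!
# The limit `κ → 0`, general form
-/

set_option autoImplicit false

open Finset Filter Topology MeasureTheory

namespace Pool.Agent.Helper42.GT.AL7

theorem main : S_AL6 → S_AL7 := by
  intro h6 α c u hα hc hu hI
  set h : ℝ → ℝ := fun x => min 1 (u * Real.exp (-(2 * u * x))) with hh
  have hcont : Continuous h := by
    rw [hh]
    fun_prop
  have hnn : ∀ x, 0 ≤ h x := fun x => le_min zero_le_one (by positivity)
  have hanti : Antitone h := by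
    intro x y hxy
    apply min_le_min_left
    apply mul_le_mul_of_nonneg_left _ hu.le
    apply Real.exp_le_exp.2
    nlinarith
  obtain ⟨κ₀, hκ₀, hκI⟩ : ∃ κ₀ : ℝ, 0 < κ₀ ∧ α * (1 + 2 * κ₀ * u) ^ 2 < ∫ x in (0 : ℝ)..c, h x := by
    have h1 : Tendsto (fun κ : ℝ => α * (1 + 2 * κ * u) ^ 2) (𝓝[>] 0) (𝓝 (α * (1 + 2 * 0 * u) ^ 2)) := by
      apply Tendsto.mono_left _ nhdsWithin_le_nhds
      apply Continuous.tendsto
      fun_prop
    have h2 : α * (1 + 2 * 0 * u) ^ 2 < ∫ x in (0 : ℝ)..c, h x := by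
      simpa using hI
    obtain ⟨κ₀, h3, h4⟩ := ((h1.eventually_lt_const h2).and self_mem_nhdsWithin).exists
    exact ⟨κ₀, h4, h3⟩
  refine ⟨κ₀, hκ₀, fun κ hκ hκ2 => ?_⟩
  have hk : 1 ≤ ⌈c / κ⌉₊ := Nat.one_le_ceil_iff.2 (by positivity)
  have hη : 0 < 2 * κ * u := by positivity
  refine h6 α κ (2 * κ * u) ⌈c / κ⌉₊ hα hκ hη hk ?_
  set k := ⌈c / κ⌉₊ with hkdef
  have h1 : ∑ i ∈ range k, 2 * κ * h (κ * (0 + (i : ℝ))) ≤
      ∑ i ∈ range k, min (2 * κ) (2 * κ * u / (1 + 2 * κ * u) ^ i) := by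
    apply sum_le_sum
    intro i _
    rw [hh]
    simp only [zero_add]
    rw [mul_min_of_nonneg _ _ (by positivity), mul_one]
    apply min_le_min_left
    rw [le_div_iff₀ (by positivity)]
    have h2 : (1 + 2 * κ * u) ^ i ≤ Real.exp (2 * u * (κ * i)) := by
      calc (1 + 2 * κ * u) ^ i ≤ (Real.exp (2 * κ * u)) ^ i := by
            apply pow_le_pow_left₀ (by positivity)
            have := Real.add_one_le_exp (2 * κ * u)
            linarith
        _ = Real.exp (2 * u * (κ * i)) := by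
            rw [← Real.exp_nat_mul]
            congr 1
            ring
    have h3 : Real.exp (-(2 * u * (κ * i))) * Real.exp (2 * u * (κ * i)) = 1 := by
      rw [← Real.exp_add]
      simp
    calc 2 * κ * (u * Real.exp (-(2 * u * (κ * i)))) * (1 + 2 * κ * u) ^ i
        ≤ 2 * κ * (u * Real.exp (-(2 * u * (κ * i)))) * Real.exp (2 * u * (κ * i)) := by
          gcongr
      _ = 2 * κ * u * (Real.exp (-(2 * u * (κ * i))) * Real.exp (2 * u * (κ * i))) := by ring
      _ = 2 * κ * u := by rw [h3, mul_one]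
  have h2 : ∫ y in (0 : ℝ)..0 + (k : ℝ), 2 * κ * h (κ * y) ≤
      ∑ i ∈ range k, 2 * κ * h (κ * (0 + (i : ℝ))) := by
    apply AntitoneOn.integral_le_sum (f := fun y => 2 * κ * h (κ * y))
    intro x _ y _ hxy
    apply mul_le_mul_of_nonneg_left _ (by positivity)
    exact hanti (mul_le_mul_of_nonneg_left hxy hκ.le)
  have h3 : ∫ y in (0 : ℝ)..0 + (k : ℝ), 2 * κ * h (κ * y) =
      2 * ∫ x in (0 : ℝ)..(κ * k), h x := by
    rw [intervalIntegral.integral_const_mul, intervalIntegral.integral_comp_mul_left h hκ.ne']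
    rw [zero_add, mul_zero, smul_eq_mul]
    field_simp
  have hck : c ≤ κ * k := by
    have := Nat.le_ceil (c / κ)
    rw [div_le_iff₀ hκ] at this
    rw [hkdef]
    linarith
  have h4 : ∫ x in (0 : ℝ)..c, h x ≤ ∫ x in (0 : ℝ)..(κ * k), h x := by
    have e := intervalIntegral.integral_add_adjacent_intervals (μ := volume) (f := h) (a := 0)
      (b := c) (c := κ * k) (hcont.intervalIntegrable _ _) (hcont.intervalIntegrable _ _)
    have := intervalIntegral.integral_nonneg hck (fun x _ => hnn x) (μ := volume)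
    linarith
  have h5 : α * (1 + 2 * κ * u) ^ 2 ≤ α * (1 + 2 * κ₀ * u) ^ 2 := by
    gcongr
  linarith

end Pool.Agent.Helper42.GT.AL7
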