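import Pool.Agent.Helper42.GT.Stm

/-! Sets which are dense at all scales (module by helper90, after `GC.pwG_lower`) -/

set_option autoImplicit false

open Finset Filter

namespace Pool.Agent.Helper42.GT.ALL

open Pool.Agent.Helper42.GC Pool.Agent.Helper76.FX

theorem main : S_ALL := by
  intro κ β k hκ hβ hβ2 hkη
  set η : ℝ := min κ β with hηdef
  have hη : 0 < η := lt_min hκ hβ
  have hη1 : η ≤ β := min_le_right _ _
  have hη2 : η ≤ κ := min_le_left _ _
  have hlogβ : 0 < Real.log (1 / β) := Real.log_pos (by rw [lt_div_iff₀ hβ]; linarith)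
  have hk0 : 1 ≤ k := by
    rcases Nat.eq_zero_or_pos k with h | h
    · rw [h, Nat.cast_zero, zero_mul] at hkη
      linarith
    · exact h
  have h1η : (0 : ℝ) < 1 + η := by linarith
  -- `(1 + η) ^ k ≥ 1 / β`
  have hpow : 1 / β ≤ (1 + η) ^ k := by
    have e1 : η / 2 ≤ Real.log (1 + η) := by
      have e2 := Real.one_sub_inv_le_log_of_pos h1η
      have e3 : η / 2 ≤ 1 - (1 + η)⁻¹ := by
        have : 1 - (1 + η)⁻¹ = η / (1 + η) := by field_simp; ring
        rw [this]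
        exact div_le_div_of_nonneg_left hη.le h1η (by linarith)
      linarith
    have e2 : Real.log (1 / β) ≤ Real.log ((1 + η) ^ k) := by
      rw [Real.log_pow]
      have : (k : ℝ) * (η / 2) ≤ k * Real.log (1 + η) := mul_le_mul_of_nonneg_left e1 (by positivity)
      linarith
    exact (Real.log_le_log_iff (by positivity) (by positivity)).1 e2
  set δ : ℝ := ((1 + η) ^ k)⁻¹ with hδ
  have hδ0 : 0 < δ := by positivity
  have hδβ : δ ≤ β := by
    rw [hδ]
    calc ((1 + η) ^ k)⁻¹ ≤ (1 / β)⁻¹ := inv_anti₀ (by positivity) hpow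
      _ = β := by rw [one_div, inv_inv]
  set θ : ℝ := (1 - δ) / (1 + η) with hθ
  have hθ1 : (1 + η) * θ = 1 - δ := by rw [hθ]; field_simp
  have hθ2 : 1 - 2 * β < θ := by
    rw [hθ, lt_div_iff₀ h1η]
    nlinarith [mul_pos hβ hη]
  have hθ0 : 0 ≤ θ := by linarith
  obtain ⟨A, hA1, hA2, hA3⟩ := construct' (hp_mono hη) (hp_pos η) (k := k) hk0
  have hWpos : ∀ j, 1 ≤ W (hp η) j := fun j => Nat.one_le_two_pow.trans (W_ge (hp_pos η) j)
  refine ⟨A, ?_, hA1, ?_⟩
  · intro ε hε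
    have hlim : 0 < ε / 2 := by linarith
    have hl : ∀ᶠ N : ℕ in atTop, Real.log N ≤ (N : ℝ) ^ (ε / 2) := by
      have h1 := (isLittleO_log_rpow_atTop hlim).bound (show (0 : ℝ) < 1 by norm_num)
      have h2 := tendsto_natCast_atTop_atTop.eventually h1
      filter_upwards [h2, eventually_ge_atTop 3] with N h3 h4
      have h5 := one_le_log h4
      rw [Real.norm_eq_abs, Real.norm_eq_abs, one_mul, abs_of_nonneg (by linarith),
        abs_of_nonneg (by positivity)] at h3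
      exact h3
    filter_upwards [(tendsto_rpow_nat hlim).eventually_ge_atTop (2 ^ (k + 3) * 6),
      eventually_ge_atTop 3, hl] with L h1 h2 h5
    have hL : (0 : ℝ) < L := by
      have : 0 < L := by omega
      exact_mod_cast this
    have hL1 : (1 : ℝ) ≤ L := by
      have : 1 ≤ L := by omega
      exact_mod_cast this
    have h3 : (gram A L : ℝ) ≤ 2 ^ (k + 3) * (hp η L * ((Nat.log 2 L : ℕ) + 1)) := by
      exact_mod_cast hA2 L (by omega)
    have h6 : ((Nat.log 2 L : ℕ) : ℝ) + 1 ≤ 3 * (L : ℝ) ^ (ε / 2) :=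
      (log_two_le h2).trans (by linarith)
    calc (gram A L : ℝ) ≤ 2 ^ (k + 3) * (hp η L * ((Nat.log 2 L : ℕ) + 1)) := h3
      _ ≤ 2 ^ (k + 3) * ((2 * (L : ℝ) ^ η) * (3 * (L : ℝ) ^ (ε / 2))) := by
          gcongr
          exact hp_le hη (by omega)
      _ = (2 ^ (k + 3) * 6) * ((L : ℝ) ^ η * (L : ℝ) ^ (ε / 2)) := by ring
      _ ≤ (L : ℝ) ^ (ε / 2) * ((L : ℝ) ^ η * (L : ℝ) ^ (ε / 2)) := by gcongr
      _ = (L : ℝ) ^ (η + ε) := by
          rw [← Real.rpow_add hL, ← Real.rpow_add hL]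
          congr 1
          ring
      _ ≤ (L : ℝ) ^ (κ + ε) := Real.rpow_le_rpow_of_exponent_le hL1 (by linarith)
  · have hγ : 0 < θ - (1 - 2 * β) := by linarith
    filter_upwards [(tendsto_rpow_nat hγ).eventually_ge_atTop
      (4 * (4 ^ θ * 64 ^ k)), eventually_ge_atTop (W (hp η) k)] with N h1 h2
    obtain ⟨i', hi1, hi2⟩ := exists_index (hp_pos η) (x := N) ((hWpos _).trans h2)
    have hi3 : k ≤ i' := by
      by_contra hcon
      have := W_mono (hp_pos η) (i := i' + 1) (j := k) (by omega)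
      omega
    obtain ⟨i, rfl⟩ : ∃ i, i' = i + k := ⟨i' - k, by omega⟩
    have hN1 : 1 ≤ N := (hWpos _).trans h2
    have hNR : (1 : ℝ) ≤ N := by exact_mod_cast hN1
    have hN0 : (0 : ℝ) < N := by linarith
    set n := (A ∩ Set.Iio (W (hp η) (i + k))).ncard with hn
    set M : ℝ := ((W (hp η) (i + k) : ℕ) : ℝ) with hM
    have hM1 : 1 ≤ M := by rw [hM]; exact_mod_cast hWpos (i + k)
    have hM0 : 0 < M := by linarith
    set z : ℝ := ((W (hp η) i : ℕ) : ℝ) with hz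
    have hz1 : 1 ≤ z := by rw [hz]; exact_mod_cast hWpos i
    -- `z ≤ M ^ δ`
    have h3 : z ≤ M ^ δ := by
      have h4 := W_grow hη i k
      rw [← hz, ← hM] at h4
      calc z = z ^ (1 : ℝ) := (Real.rpow_one _).symm
        _ = (z ^ ((1 + η) ^ k)) ^ δ := by
            rw [← Real.rpow_mul (by linarith), hδ, mul_inv_cancel₀ (by positivity)]
        _ ≤ M ^ δ := Real.rpow_le_rpow (by positivity) h4 hδ0.le
    -- `M ≤ 64 ^ k n ^ 2 z`
    have h4 : M ≤ 64 ^ k * (n : ℝ) ^ 2 * z := by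
      have h5 := W_prod (hp η) i k
      have h6 := hA3 i
      have h7 : W (hp η) (i + k) ≤ 64 ^ k * n ^ 2 * W (hp η) i := by
        rw [h5]
        apply Nat.mul_le_mul_right
        calc 2 ^ k * ∏ c ∈ range k, hp η (W (hp η) (i + c)) ≤ 2 ^ k * (32 ^ k * n ^ 2) :=
              Nat.mul_le_mul_left _ h6
          _ = 64 ^ k * n ^ 2 := by
              rw [show (64 : ℕ) = 2 * 32 by norm_num, mul_pow]
              ring
      rw [hM, hz]
      exact_mod_cast h7
    have h5 : M ^ (1 - δ) ≤ 64 ^ k * (n : ℝ) ^ 2 := by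
      have h6 : M ^ (1 - δ) * M ^ δ ≤ 64 ^ k * (n : ℝ) ^ 2 * M ^ δ := by
        rw [← Real.rpow_add hM0, sub_add_cancel, Real.rpow_one]
        exact h4.trans (mul_le_mul_of_nonneg_left h3 (by positivity))
      exact le_of_mul_le_mul_right h6 (by positivity)
    -- `N ≤ 4 M ^ (1 + η)`
    have h6 : (N : ℝ) ≤ 4 * M ^ (1 + η) := by
      have h7 : (N : ℝ) ≤ ((2 * hp η (W (hp η) (i + k)) * W (hp η) (i + k) : ℕ) : ℝ) := by
        exact_mod_cast hi2.le
      push_cast at h7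
      rw [← hM] at h7
      have h8 := hp_le hη (hWpos (i + k))
      rw [← hM] at h8
      rw [Real.rpow_add hM0, Real.rpow_one]
      nlinarith
    have h7 : (N : ℝ) ^ θ ≤ 4 ^ θ * 64 ^ k * (n : ℝ) ^ 2 := by
      calc (N : ℝ) ^ θ ≤ (4 * M ^ (1 + η)) ^ θ := Real.rpow_le_rpow (by positivity) h6 hθ0
        _ = 4 ^ θ * M ^ (1 - δ) := by
            rw [Real.mul_rpow (by norm_num) (by positivity), ← Real.rpow_mul hM0.le, hθ1]
        _ ≤ 4 ^ θ * (64 ^ k * (n : ℝ) ^ 2) := by gcongr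
        _ = 4 ^ θ * 64 ^ k * (n : ℝ) ^ 2 := by ring
    have h8 : 4 * (N : ℝ) ^ (1 - 2 * β) ≤ (n : ℝ) ^ 2 := by
      have h12 : (N : ℝ) ^ θ = (N : ℝ) ^ (1 - 2 * β) * (N : ℝ) ^ (θ - (1 - 2 * β)) := by
        rw [← Real.rpow_add hN0]
        congr 1
        ring
      rw [h12] at h7
      have h13 : (N : ℝ) ^ (1 - 2 * β) * (4 * (4 ^ θ * 64 ^ k)) ≤ 4 ^ θ * 64 ^ k * (n : ℝ) ^ 2 :=
        (mul_le_mul_of_nonneg_left h1 (by positivity)).trans h7
      have h14 : (0 : ℝ) < 4 ^ θ * 64 ^ k := by positivity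
      have h15 : (4 ^ θ * 64 ^ k) * (4 * (N : ℝ) ^ (1 - 2 * β)) ≤ (4 ^ θ * 64 ^ k) * (n : ℝ) ^ 2 := by
        linarith
      exact le_of_mul_le_mul_left h15 h14
    have h9 : n ≤ (A ∩ Set.Icc 1 N).ncard + 1 := count_Icc (by omega)
    have h10 : (n : ℝ) ≤ ((A ∩ Set.Icc 1 N).ncard : ℝ) + 1 := by exact_mod_cast h9
    have h11 : 2 * (N : ℝ) ^ (1 / 2 - β) ≤ n := by
      apply le_of_sq_le_sq _ (by positivity)
      calc (2 * (N : ℝ) ^ (1 / 2 - β)) ^ 2 = 4 * (N : ℝ) ^ (1 - 2 * β) := by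
            rw [mul_pow, ← Real.rpow_natCast ((N : ℝ) ^ (1 / 2 - β)), ← Real.rpow_mul hN0.le]
            congr 1
            · norm_num
            · congr 1
              push_cast
              ring
        _ ≤ (n : ℝ) ^ 2 := h8
    have h12 : 1 ≤ (N : ℝ) ^ (1 / 2 - β) := Real.one_le_rpow hNR (by linarith)
    linarith

end Pool.Agent.Helper42.GT.ALL
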