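import Pool.Agent.Helper42.GT.Crit

/-!
# Sets which are dense at all scales: the least bound
-/

set_option autoImplicit false

open Finset Filter

namespace Pool.Agent.Helper42.GT

open Pool.Agent.Helper42.GC (gram Powers)
open Pool.Agent.Helper76.FX (rep)

/-- `|A ∩ [1, N]| ≥ N ^ α` for all large `N` -/
def Always (α : ℝ) (A : Set ℕ) : Prop :=
  ∀ᶠ N : ℕ in atTop, (N : ℝ) ^ α ≤ ((A ∩ Set.Icc 1 N).ncard : ℝ)

theorem always_least {α κ : ℝ} (hα : 0 < α) (hα2 : α < 1 / 2) (hκ : 0 < κ)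
    {𝒞 : Set ℕ → Prop} (g1 : ∀ A, Powers κ A → 𝒞 A) (g2 : ∀ A, 𝒞 A → Cheap κ A) :
    ∃ R : ℕ, IsLeast {R : ℕ | ∃ A : Set ℕ, 𝒞 A ∧ Always α A ∧ ∀ n, rep A n ≤ R} R ∧
      2 ^ ⌈α / κ⌉₊ ≤ R := by
  have hne : {R : ℕ | ∃ A : Set ℕ, 𝒞 A ∧ Always α A ∧ ∀ n, rep A n ≤ R}.Nonempty := by
    obtain ⟨A, hA1, ⟨R, hR⟩, hA3⟩ := Pool.Agent.Helper42.GC.pwG_lower (κ := κ) (β := 1 / 2 - α) hκ
      (by linarith) (by linarith)
    refine ⟨R, A, g1 A ?_, ?_, hR⟩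
    · intro ε hε
      filter_upwards [hA1, eventually_ge_atTop 1] with N h1 h2
      exact h1.trans (Real.rpow_le_rpow_of_exponent_le (by exact_mod_cast h2) (by linarith))
    · have e : (1 : ℝ) / 2 - (1 / 2 - α) = α := by ring
      rw [e] at hA3
      exact hA3
  refine ⟨sInf {R : ℕ | ∃ A : Set ℕ, 𝒞 A ∧ Always α A ∧ ∀ n, rep A n ≤ R},
    ⟨Nat.sInf_mem hne, fun R hR => Nat.sInf_le hR⟩, ?_⟩
  obtain ⟨A, hA1, hA2, hA3⟩ := Nat.sInf_mem hne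
  exact lower hκ hα (g2 A hA1) (often_of_eventually hA2) hA3

end Pool.Agent.Helper42.GT
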