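import Pool.Agent.Helper42.GT.Stm

/-!
# The elementary properties of the blocks
-/

set_option autoImplicit false

open Finset

namespace Pool.Agent.Helper42.GT.BLK

open Pool.Agent.Helper42.GC (rf)

lemma two {S : Finset ℕ} {ρ : ℕ} (hS : DS S ρ) (m : ℕ) :
    ((S ×ˢ S).filter (fun p => p.1 + p.2 = m)).card ≤ 2 := by
  classical
  rcases ((S ×ˢ S).filter (fun p => p.1 + p.2 = m)).eq_empty_or_nonempty with h | ⟨⟨a, b⟩, hab⟩
  · rw [h]
    simp
  · rw [mem_filter, mem_product] at hab
    obtain ⟨⟨ha, hb⟩, hm⟩ := hab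
    simp only at ha hb hm
    have hsub : (S ×ˢ S).filter (fun p => p.1 + p.2 = m) ⊆ {(a, b), (b, a)} := by
      rintro ⟨c, d⟩ hcd
      rw [mem_filter, mem_product] at hcd
      obtain ⟨⟨hc, hd⟩, hm'⟩ := hcd
      simp only at hc hd hm'
      rcases hS.sidon c hc d hd a ha b hb (by omega) with ⟨h1, h2⟩ | ⟨h1, h2⟩
      · rw [h1, h2]
        simp
      · rw [h1, h2]
        simp
    exact (card_le_card hsub).trans card_le_two

theorem main : S_BLK := by
  classical
  intro S l ρ hS i
  induction i with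
  | zero =>
    refine ⟨?_, ?_, ?_⟩
    · intro y hy
      have h0 : y = 0 := by
        rw [blk, mem_singleton] at hy
        exact hy
      subst h0
      exact ⟨by positivity, dvd_zero _⟩
    · simp [blk]
    · intro n
      show (((({0} : Finset ℕ)) ×ˢ ({0} : Finset ℕ)).filter (fun p => p.1 + p.2 = n)).card ≤ 2 ^ 0
      refine (card_filter_le _ _).trans ?_
      simp
  | succ i ih =>
    obtain ⟨h1, h2, h3⟩ := ih
    obtain ⟨L, hL⟩ : ∃ L, L = 2 ^ (l + ρ * i) := ⟨_, rfl⟩
    have hL0 : 0 < L := by rw [hL]; positivity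
    have hlL : 2 ^ l ∣ L := by
      rw [hL]
      exact pow_dvd_pow _ (by omega)
    have hdef : blk S l ρ (i + 1) = lay S L (blk S l ρ i) := by rw [hL]; rfl
    have e : 2 ^ (l + ρ * (i + 1)) = 2 ^ ρ * L := by
      rw [hL, ← pow_add]
      congr 1
      ring
    have hmem : ∀ x, x ∈ blk S l ρ (i + 1) ↔ ∃ d ∈ S, ∃ y ∈ blk S l ρ i, x = d * L + y := by
      intro x
      rw [hdef]
      unfold lay
      rw [mem_image]
      constructor
      · rintro ⟨⟨d, y⟩, h, rfl⟩
        rw [mem_product] at h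
        exact ⟨d, h.1, y, h.2, rfl⟩
      · rintro ⟨d, hd, y, hy, rfl⟩
        exact ⟨(d, y), mem_product.2 ⟨hd, hy⟩, rfl⟩
    have hyL : ∀ y ∈ blk S l ρ i, 2 * y < L := fun y hy => by
      rw [hL]
      exact (h1 y hy).1
    have hdiv : ∀ d y, y < L → (d * L + y) / L = d ∧ (d * L + y) % L = y := by
      intro d y hy
      constructor
      · rw [mul_comm, Nat.mul_add_div hL0, Nat.div_eq_of_lt hy, add_zero]
      · rw [mul_comm, Nat.mul_add_mod, Nat.mod_eq_of_lt hy]
    refine ⟨?_, ?_, ?_⟩
    · intro x hx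
      rw [hmem] at hx
      obtain ⟨d, hd, y, hy, rfl⟩ := hx
      constructor
      · have h4 := hyL y hy
        have h5 := hS.small d hd
        rw [e]
        have h6 : (2 * d + 1) * L ≤ 2 ^ ρ * L := Nat.mul_le_mul_right _ h5
        have h7 : (2 * d + 1) * L = 2 * (d * L) + L := by ring
        omega
      · exact Dvd.dvd.add (Dvd.dvd.mul_left hlL d) (h1 y hy).2
    · rw [hdef]
      unfold lay
      rw [card_image_of_injOn, card_product, h2, pow_succ, mul_comm]
      rintro ⟨d, y⟩ hp ⟨d', y'⟩ hp' h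
      rw [mem_coe, mem_product] at hp hp'
      simp only at h hp hp'
      have h4 := hyL y hp.2
      have h5 := hyL y' hp'.2
      obtain ⟨h6, h7⟩ := hdiv d y (by omega)
      obtain ⟨h8, h9⟩ := hdiv d' y' (by omega)
      rw [h] at h6 h7
      rw [Prod.mk.injEq]
      exact ⟨h6.symm.trans h8, h7.symm.trans h9⟩
    · intro n
      unfold rf
      have h4 : (((blk S l ρ (i + 1)) ×ˢ (blk S l ρ (i + 1))).filter
          (fun p => p.1 + p.2 = n)).card ≤ (((S ×ˢ S).filter (fun p => p.1 + p.2 = n / L)) ×ˢ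
            (((blk S l ρ i) ×ˢ (blk S l ρ i)).filter (fun p => p.1 + p.2 = n % L))).card := by
        apply card_le_card_of_injOn (fun p => ((p.1 / L, p.2 / L), (p.1 % L, p.2 % L)))
        · rintro ⟨a, b⟩ hp
          rw [mem_coe, mem_filter, mem_product, hmem, hmem] at hp
          obtain ⟨⟨⟨d, hd, y, hy, ha⟩, d', hd', y', hy', hb⟩, hn⟩ := hp
          simp only at ha hb hn
          have h4 := hyL y hy
          have h5 := hyL y' hy'
          obtain ⟨h6, h7⟩ := hdiv d y (by omega)
          obtain ⟨h8, h9⟩ := hdiv d' y' (by omega)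
          obtain ⟨h10, h11⟩ := hdiv (d + d') (y + y') (by omega)
          have h12 : n = (d + d') * L + (y + y') := by
            rw [← hn, ha, hb]
            ring
          rw [← h12] at h10 h11
          simp only [ha, hb, h6, h7, h8, h9, mem_coe, mem_product, mem_filter, hd, hd', hy, hy',
            true_and]
          exact ⟨h10.symm, h11.symm⟩
        · rintro ⟨a, b⟩ _ ⟨a', b'⟩ _ h
          simp only [Prod.mk.injEq] at h
          obtain ⟨⟨h5, h6⟩, h7, h8⟩ := h
          rw [Prod.mk.injEq]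
          constructor
          · rw [← Nat.div_add_mod a L, ← Nat.div_add_mod a' L, h5, h7]
          · rw [← Nat.div_add_mod b L, ← Nat.div_add_mod b' L, h6, h8]
      refine h4.trans ?_
      rw [card_product, pow_succ, mul_comm (2 ^ i)]
      exact Nat.mul_le_mul (two hS _) (h3 _)

end Pool.Agent.Helper42.GT.BLK
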