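import Pool.Agent.Helper42.GT.Fin

/-!
# The critical density and the threshold
-/

set_option autoImplicit false

open Finset Filter

namespace Pool.Agent.Helper42.GT

open Pool.Agent.Helper42.GC (pre Sys rf gram Powers)
open Pool.Agent.Helper42.GP (cost seg)
open Pool.Agent.Helper76.FX (rep tendsto_rpow_nat Dense ForcesIn)

/-- sets which satisfy the density condition and have a bounded representation function are not
cheap -/
theorem critical {A : Set ℕ} {t : ℕ} (ht : 1 ≤ t) {c : ℝ} (hc0 : 0 < c) (hc : c < 1 / (2 * t))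
    (h : ∀ n, rep A n < 2 ^ (t + 1)) {g : ℕ → ℝ} (hD : Dense g A) (hg0 : ∀ᶠ N : ℕ in atTop, 0 < g N)
    (hg : ∀ ε : ℝ, 0 < ε → ∀ᶠ N : ℕ in atTop, g N ≤ (N : ℝ) ^ ε) :
    ∀ᶠ N : ℕ in atTop, (N : ℝ) ^ c ≤ cost (seg A N) := by
  obtain ⟨C, hC, hD⟩ := hD
  have ht0 : (0 : ℝ) < t := by exact_mod_cast ht
  have h1 : c * t < 1 / 2 := by
    rw [lt_div_iff₀ (by positivity)] at hc
    linarith
  obtain ⟨ε, hε⟩ : ∃ ε, ε = (1 / 2 - c * t) / 2 := ⟨_, rfl⟩
  have hε0 : 0 < ε := by rw [hε]; linarith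
  filter_upwards [hD, hg0, hg ε hε0, (tendsto_rpow_nat hε0).eventually_gt_atTop (2 * C),
    eventually_ge_atTop 1] with N h2 h3 h4 h5 h6
  by_contra hcon
  push Not at hcon
  have hN : (1 : ℝ) ≤ N := by exact_mod_cast h6
  have hN0 : (0 : ℝ) < N := by linarith
  have h7 : ((A ∩ Set.Icc 1 N).ncard : ℝ) ≤ (cost (seg A N) : ℝ) ^ t + 1 := by
    exact_mod_cast seg_bound h N
  have h8 : (cost (seg A N) : ℝ) ^ t ≤ (N : ℝ) ^ (c * t) := by
    rw [Real.rpow_mul hN0.le, Real.rpow_natCast]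
    exact pow_le_pow_left₀ (by positivity) hcon.le t
  have h9 : (1 : ℝ) ≤ (N : ℝ) ^ (c * t) := Real.one_le_rpow hN (by positivity)
  have h10 : (N : ℝ) ^ (1 / 2 - ε) ≤ Real.sqrt N / g N := by
    rw [Real.rpow_sub hN0, ← Real.sqrt_eq_rpow]
    exact div_le_div_of_nonneg_left (by positivity) h3 h4
  have h11 : (N : ℝ) ^ (1 / 2 - ε) = (N : ℝ) ^ (c * t) * (N : ℝ) ^ ε := by
    rw [← Real.rpow_add hN0, hε]
    congr 1
    ring
  have h12 : (N : ℝ) ^ (c * t) * (N : ℝ) ^ ε ≤ C * (2 * (N : ℝ) ^ (c * t)) := by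
    rw [← h11]
    refine h10.trans (h2.trans (mul_le_mul_of_nonneg_left ?_ hC.le))
    linarith
  have h13 : (N : ℝ) ^ (c * t) * (2 * C) < (N : ℝ) ^ (c * t) * (N : ℝ) ^ ε := by
    gcongr
  linarith

/-- `N ^ β` is a forcing function for the cheap sets of exponent `κ` only for `κ = 0` -/
theorem forces_iff {κ β : ℝ} (hκ : 0 ≤ κ) (hβ : 0 < β) (hβ2 : β < 1 / 2)
    {𝒞 : Set ℕ → Prop} (g1 : ∀ A, Powers κ A → 𝒞 A) (g2 : ∀ A, 𝒞 A → Cheap κ A) :
    ForcesIn 𝒞 (fun N => (N : ℝ) ^ β) ↔ κ = 0 := by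
  constructor
  · intro hF
    exact (Pool.Agent.Helper42.GC.pwG_thr hκ hβ hβ2).1 fun A hA => hF A (g1 A hA)
  · rintro rfl A hA hD K
    by_contra hcon
    push Not at hcon
    obtain ⟨C, hC, hD⟩ := hD
    have hα : 0 < (1 / 2 - β) / 2 := by linarith
    have hO : Often ((1 / 2 - β) / 2) A := by
      apply often_of_eventually
      filter_upwards [hD, (tendsto_rpow_nat hα).eventually_ge_atTop C,
        eventually_ge_atTop 1] with N h1 h2 h3
      have hN : (0 : ℝ) < N := by exact_mod_cast h3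
      have h4 : Real.sqrt N / (N : ℝ) ^ β =
          (N : ℝ) ^ ((1 / 2 - β) / 2) * (N : ℝ) ^ ((1 / 2 - β) / 2) := by
        rw [Real.sqrt_eq_rpow, ← Real.rpow_sub hN, ← Real.rpow_add hN]
        congr 1
        ring
      rw [h4] at h1
      have h5 : (0 : ℝ) < (N : ℝ) ^ ((1 / 2 - β) / 2) := by positivity
      have h6 : (N : ℝ) ^ ((1 / 2 - β) / 2) * (N : ℝ) ^ ((1 / 2 - β) / 2) ≤
          (N : ℝ) ^ ((1 / 2 - β) / 2) * ((A ∩ Set.Icc 1 N).ncard : ℝ) :=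
        h1.trans (mul_le_mul_of_nonneg_right h2 (Nat.cast_nonneg _))
      exact le_of_mul_le_mul_left h6 h5
    -- `κ' = α / (K + 1)`
    have hκ' : 0 < (1 / 2 - β) / 2 / (K + 1) := by positivity
    have h1 := lower hκ' hα (cheap_mono hκ'.le (g2 A hA)) hO hcon
    have h2 : (1 / 2 - β) / 2 / ((1 / 2 - β) / 2 / (K + 1)) = (K + 1 : ℕ) := by
      have h3 : (1 / 2 - β) / 2 ≠ 0 := by linarith
      rw [div_div_cancel₀ h3]
      push_cast
      ring
    rw [h2, Nat.ceil_natCast] at h1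
    have h3 : K + 1 < 2 ^ (K + 1) := Nat.lt_two_pow_self
    omega

end Pool.Agent.Helper42.GT
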