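import Pool.Agent.Helper42.GT.Stm2

/-!
# Grammars for sparse digit sets
-/

set_option autoImplicit false

open Finset

namespace Pool.Agent.Helper42.GT.DGR

open Pool.Agent.Helper42.GC
open Pool.Agent.Helper76.FX

/-- the word of the digits from `p 2 ^ l` to `(p + 1) 2 ^ l - 1` -/
def V (g : ℕ → List Bool) (l p : ℕ) : List Bool :=
  (List.range (2 ^ l)).flatMap (fun d => g (p * 2 ^ l + d))

lemma V_zero (g : ℕ → List Bool) (p : ℕ) : V g 0 p = g p := by
  simp [V]

lemma V_succ (g : ℕ → List Bool) (l p : ℕ) : V g (l + 1) p = V g l (2 * p) ++ V g l (2 * p + 1) := by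
  have e : 2 ^ (l + 1) = 2 ^ l + 2 ^ l := by ring
  unfold V
  rw [e, List.range_add, List.flatMap_append, List.flatMap_map]
  congr 1
  · apply List.flatMap_congr
    intro d _
    rw [show p * (2 ^ l + 2 ^ l) + d = 2 * p * 2 ^ l + d by ring]
  · apply List.flatMap_congr
    intro d _
    rw [show p * (2 ^ l + 2 ^ l) + (2 ^ l + d) = (2 * p + 1) * 2 ^ l + d by ring]

lemma V_none {S : Finset ℕ} {g : ℕ → List Bool} {z : List Bool} (hg : ∀ v, v ∉ S → g v = z)
    {l p : ℕ} (h : ∀ d ∈ S, d / 2 ^ l ≠ p) (q : ℕ) : V g l p = V (fun _ => z) l q := by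
  unfold V
  apply List.flatMap_congr
  intro d hd
  rw [List.mem_range] at hd
  apply hg
  intro hmem
  apply h _ hmem
  rw [mul_comm, Nat.mul_add_div (by positivity), Nat.div_eq_of_lt hd, add_zero]

lemma V_ne {g : ℕ → List Bool} {l p : ℕ} (hg : ∀ v, g v ≠ []) : V g l p ≠ [] := by
  intro h
  unfold V at h
  rw [List.flatMap_eq_nil_iff] at h
  exact hg _ (h 0 (List.mem_range.2 (by positivity)))

theorem sysV {s : ℕ} {T : List Bool → Prop} (h : Sys s T) {S : Finset ℕ} {g : ℕ → List Bool}
    {z : List Bool} (hg : ∀ v, v ∉ S → g v = z) (hT : ∀ v ∈ S, T (g v)) (hz : T z)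
    (hg0 : ∀ v, g v ≠ []) (hz0 : z ≠ []) : ∀ l : ℕ, Sys (s + 2 * l * (S.card + 1))
      (fun w => T w ∨ (∃ d ∈ S, w = V g l (d / 2 ^ l)) ∨ w = V (fun _ => z) l 0) := by
  intro l
  induction l with
  | zero =>
    refine h.mono (by simp) ?_
    rintro w (hw | ⟨d, hd, rfl⟩ | rfl)
    · exact hw
    · rw [V_zero, pow_zero, Nat.div_one]
      exact hT d hd
    · rw [V_zero]
      exact hz
  | succ l ih =>
    have hV : ∀ p, (T (V g l p) ∨ (∃ d ∈ S, V g l p = V g l (d / 2 ^ l)) ∨
        V g l p = V (fun _ => z) l 0) := by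
      intro p
      by_cases hp : ∃ d ∈ S, d / 2 ^ l = p
      · obtain ⟨d, hd, rfl⟩ := hp
        exact Or.inr (Or.inl ⟨d, hd, rfl⟩)
      · push Not at hp
        exact Or.inr (Or.inr (V_none hg hp 0))
    have h4 := ih.many ([V (fun _ => z) l 0, V (fun _ => z) l 0] :: S.toList.map (fun d =>
      [V g l (2 * (d / 2 ^ (l + 1))), V g l (2 * (d / 2 ^ (l + 1)) + 1)])) (by
      intro L hL w hw
      right
      rw [List.mem_cons] at hL
      rcases hL with rfl | hL
      · right; right
        simpa using hw
      · rw [List.mem_map] at hL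
        obtain ⟨d, _, rfl⟩ := hL
        simp only [List.mem_cons, List.not_mem_nil, or_false] at hw
        rcases hw with rfl | rfl
        · exact hV _
        · exact hV _)
    refine h4.mono ?_ ?_
    · rw [List.map_cons, List.sum_cons, List.map_map]
      have h5 : (S.toList.map (List.length ∘ fun d => [V g l (2 * (d / 2 ^ (l + 1))),
          V g l (2 * (d / 2 ^ (l + 1)) + 1)])).sum = S.card * 2 := by
        rw [List.map_congr_left (g := fun _ => 2) (by intro d _; simp)]
        rw [List.map_const', List.sum_replicate, Finset.length_toList, smul_eq_mul]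
      rw [h5]
      simp only [List.length_cons, List.length_nil]
      apply le_of_eq
      ring
    · rintro w (hw | ⟨d, hd, rfl⟩ | rfl)
      · exact Or.inl (Or.inl hw)
      · right
        refine ⟨[V g l (2 * (d / 2 ^ (l + 1))), V g l (2 * (d / 2 ^ (l + 1)) + 1)], ?_, ?_,
          V_ne hg0⟩
        · exact List.mem_cons_of_mem _ (List.mem_map.2 ⟨d, Finset.mem_toList.2 hd, rfl⟩)
        · rw [V_succ]
          simp
      · right
        refine ⟨[V (fun _ => z) l 0, V (fun _ => z) l 0], List.mem_cons_self, ?_,
          V_ne (fun _ => hz0)⟩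
        rw [V_succ, V_none (S := ∅) (g := fun _ => z) (z := z) (fun _ _ => rfl) (p := 2 * 0 + 1)
          (by simp) 0]
        simp

/-- **Grammars for words built in sparse levels.** -/
theorem sparse {β : Type*} (B : Finset β) (z : β) (hzB : z ∈ B) (wd : ℕ → β → List Bool)
    (S : ℕ → Finset ℕ) (ρ : ℕ → ℕ) (f : ℕ → β → ℕ → β) (h0 : ∀ b ∈ B, ∃ c, wd 0 b = [c])
    (h1 : ∀ l, ∀ b ∈ B, wd (l + 1) b = (List.range (2 ^ ρ l)).flatMap (fun v => wd l (f l b v)))
    (h2 : ∀ l, ∀ b ∈ B, ∀ v, f l b v ∈ B) (h3 : ∀ l, ∀ b ∈ B, ∀ v, v ∉ S l → f l b v = z)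
    (h4 : ∀ l b, wd l b ≠ []) (l : ℕ) :
    Sys (2 + B.card * ∑ j ∈ range l, 2 * ρ j * ((S j).card + 1)) (fun w => ∃ b ∈ B, w = wd l b) := by
  induction l with
  | zero =>
    refine sys_letters.mono (by simp) ?_
    rintro w ⟨b, hb, rfl⟩
    exact h0 b hb
  | succ l ih =>
    obtain ⟨s, hs⟩ : ∃ s, s = 2 + B.card * ∑ j ∈ range l, 2 * ρ j * ((S j).card + 1) := ⟨_, rfl⟩
    rw [← hs] at ih
    obtain ⟨m, hm⟩ : ∃ m, m = 2 * ρ l * ((S l).card + 1) := ⟨_, rfl⟩
    have h5 : ∀ bs : List β, (∀ b ∈ bs, b ∈ B) → Sys (s + bs.length * m)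
        (fun w => (∃ b ∈ B, w = wd l b) ∨ ∃ b ∈ bs, w = wd (l + 1) b) := by
      intro bs
      induction bs with
      | nil =>
        intro _
        refine ih.mono (by simp) ?_
        rintro w (hw | ⟨b, hb, _⟩)
        · exact hw
        · exact absurd hb (by simp)
      | cons b bs ihb =>
        intro hbs
        have hb : b ∈ B := hbs b (by simp)
        have h6 := sysV (ihb fun c hc => hbs c (by simp [hc])) (S := S l)
          (g := fun v => wd l (f l b v)) (z := wd l z) (fun v hv => by
            show wd l (f l b v) = wd l z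
            rw [h3 l b hb v hv]) (fun v _ => Or.inl ⟨_, h2 l b hb v, rfl⟩)
          (Or.inl ⟨z, hzB, rfl⟩) (fun v => h4 l _) (h4 l z) (ρ l)
        refine h6.mono ?_ ?_
        · rw [List.length_cons, hm]
          apply le_of_eq
          ring
        · rintro w (hw | ⟨c, hc, rfl⟩)
          · exact Or.inl (Or.inl hw)
          · rw [List.mem_cons] at hc
            rcases hc with rfl | hc
            · right
              have e : wd (l + 1) c = V (fun v => wd l (f l c v)) (ρ l) 0 := by
                rw [h1 l c hb]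
                unfold V
                apply List.flatMap_congr
                intro v _
                rw [zero_mul, zero_add]
              rw [e]
              by_cases hp : ∃ d ∈ S l, d / 2 ^ ρ l = 0
              · obtain ⟨d, hd, hd0⟩ := hp
                exact Or.inl ⟨d, hd, by rw [hd0]⟩
              · push Not at hp
                right
                exact V_none (S := S l) (z := wd l z) (fun v hv => by
                  show wd l (f l c v) = wd l z
                  rw [h3 l c hb v hv]) hp 0
            · exact Or.inl (Or.inr ⟨c, hc, rfl⟩)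
    have h6 := h5 B.toList (fun b hb => Finset.mem_toList.1 hb)
    refine h6.mono ?_ ?_
    · rw [Finset.length_toList, Finset.sum_range_succ, mul_add, ← hm, hs]
      apply le_of_eq
      ring
    · rintro w ⟨b, hb, rfl⟩
      exact Or.inr ⟨b, Finset.mem_toList.2 hb, rfl⟩

theorem main : S_DGR := by
  classical
  intro ρ S k h hk l N hN
  have h1 := sparse (states k) none (mem_insert_self _ _)
    (Pool.Agent.Helper42.GC.blk (fun j => 2 ^ ρ j) S k) S ρ (fun l b v => nxt S k l v b) (by
      intro b _
      refine ⟨decide (PB (fun j => 2 ^ ρ j) S k 0 b 0), ?_⟩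
      unfold Pool.Agent.Helper42.GC.blk
      rw [wt_zero]
      rfl) (fun l b _ => by
        rw [blk_succ h.two l b, List.flatMap_map]) (by
      intro l b hb v
      match b with
      | none =>
        show none ∈ states k
        exact mem_insert_self _ _
      | some U =>
        have hU : U ⊆ range k := by
          unfold states at hb
          rw [mem_insert, mem_image] at hb
          rcases hb with hb | ⟨V, hV, hVU⟩
          · exact absurd hb (by simp)
          · rw [Option.some_inj] at hVU
            rw [← hVU]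
            exact mem_powerset.1 hV
        by_cases hS : v ∉ S l
        · rw [nxt_of_notMem hS]
          exact mem_insert_self _ _
        · push Not at hS
          by_cases h0 : v = 0
          · rw [nxt_of_zero hS h0]
            exact hb
          · by_cases hU' : l % k ∈ U
            · rw [nxt_of_used hS h0 hU']
              exact mem_insert_self _ _
            · rw [nxt_of_free hS h0 hU']
              refine mem_insert_of_mem (mem_image.2 ⟨_, mem_powerset.2 ?_, rfl⟩)
              refine insert_subset (mem_range.2 (Nat.mod_lt _ (by omega))) hU) (by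
      intro l b _ v hv
      match b with
      | none => rfl
      | some U => exact nxt_of_notMem hv) (by
      intro l b hcon
      have h3 : (Pool.Agent.Helper42.GC.blk (fun j => 2 ^ ρ j) S k l b).length =
          wt (fun j => 2 ^ ρ j) l := by
        unfold Pool.Agent.Helper42.GC.blk
        simp
      rw [hcon] at h3
      have := wt_pos h.two l
      simp at h3
      omega) l
  have h2 : Gen (2 + (states k).card * ∑ j ∈ range l, 2 * ρ j * ((S j).card + 1))
      (pre (dset (fun j => 2 ^ ρ j) S k) (wt (fun j => 2 ^ ρ j) l)) := by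
    rw [pre_dset h]
    exact h1.gen ⟨some ∅, mem_insert_of_mem (mem_image.2 ⟨∅, by simp, rfl⟩), rfl⟩
  refine (gram_le hN h2).trans (Nat.add_le_add_left (Nat.mul_le_mul_right _ (card_states k)) 2)

end Pool.Agent.Helper42.GT.DGR
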