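import Pool.Agent.Helper42.GT.WRD
import Pool.Agent.Helper42.GP.Thr

/-!
# The exact region

The lower bound is an adaptation of a module by helper90 (`LOW`).
-/

set_option autoImplicit false

open Finset Filter

namespace Pool.Agent.Helper42.GT

open Pool.Agent.Helper42.GC (pre Sys rf gram Powers)
open Pool.Agent.Helper42.GP (cost seg)
open Pool.Agent.Helper76.FX (rep tendsto_rpow_nat)

/-- `cost (A ∩ [0, N)) ≤ N ^ (κ + o(1))` -/
def Cheap (κ : ℝ) (A : Set ℕ) : Prop :=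
  ∀ ε : ℝ, 0 < ε → ∀ᶠ N : ℕ in atTop, (cost (seg A N) : ℝ) ≤ (N : ℝ) ^ (κ + ε)

lemma powers_mono {κ κ' : ℝ} (h : κ ≤ κ') {A : Set ℕ} (hA : Powers κ A) : Powers κ' A := by
  intro ε hε
  filter_upwards [hA ε hε, eventually_ge_atTop 1] with N h1 h2
  exact h1.trans (Real.rpow_le_rpow_of_exponent_le (by exact_mod_cast h2) (by linarith))

lemma cheap_mono {κ κ' : ℝ} (h : κ ≤ κ') {A : Set ℕ} (hA : Cheap κ A) : Cheap κ' A := by
  intro ε hε
  filter_upwards [hA ε hε, eventually_ge_atTop 1] with N h1 h2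
  exact h1.trans (Real.rpow_le_rpow_of_exponent_le (by exact_mod_cast h2) (by linarith))

theorem cheap_of_powers {κ : ℝ} {A : Set ℕ} (hA : Powers κ A) : Cheap κ A := by
  intro ε hε
  filter_upwards [hA (ε / 2) (by linarith),
    (tendsto_rpow_nat (half_pos hε)).eventually_ge_atTop 2, eventually_ge_atTop 1] with N h1 h2 h3
  have hN : (0 : ℝ) < N := by
    have : 0 < N := by omega
    exact_mod_cast this
  have h4 : (cost (seg A N) : ℝ) ≤ 2 * (gram A N : ℝ) := by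
    exact_mod_cast Pool.Agent.Helper42.GP.cost_seg A N
  calc (cost (seg A N) : ℝ) ≤ 2 * (gram A N : ℝ) := h4
    _ ≤ (N : ℝ) ^ (ε / 2) * (N : ℝ) ^ (κ + ε / 2) := by gcongr
    _ = (N : ℝ) ^ (κ + ε) := by
        rw [← Real.rpow_add hN]
        congr 1
        ring

lemma often_of_eventually {α : ℝ} {A : Set ℕ}
    (h : ∀ᶠ N : ℕ in atTop, (N : ℝ) ^ α ≤ ((A ∩ Set.Icc 1 N).ncard : ℝ)) : Often α A := by
  intro ε hε
  apply Eventually.frequently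
  filter_upwards [h, eventually_ge_atTop 1] with N h1 h2
  exact (Real.rpow_le_rpow_of_exponent_le (by exact_mod_cast h2) (by linarith)).trans h1

theorem seg_bound {A : Set ℕ} {t : ℕ} (h : ∀ n, rep A n < 2 ^ (t + 1)) (N : ℕ) :
    (A ∩ Set.Icc 1 N).ncard ≤ cost (seg A N) ^ t + 1 := by
  have h1 : ((seg A N : Finset ℕ) : Set ℕ) ⊆ A := by
    intro a ha
    rw [mem_coe, Pool.Agent.Helper42.GP.mem_seg] at ha
    exact ha.2
  have h2 := Pool.Agent.Helper42.GP.exact_ineq h h1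
  have h3 : A ∩ Set.Icc 1 N ⊆ ((insert N (seg A N) : Finset ℕ) : Set ℕ) := by
    rintro a ⟨h4, h5, h6⟩
    rw [coe_insert, Set.mem_insert_iff, mem_coe, Pool.Agent.Helper42.GP.mem_seg]
    rcases eq_or_lt_of_le h6 with h7 | h7
    · exact Or.inl h7
    · exact Or.inr ⟨h7, h4⟩
  have h4 := Set.ncard_le_ncard h3 (Finset.finite_toSet _)
  rw [Set.ncard_coe_finset] at h4
  exact h4.trans ((card_insert_le _ _).trans (Nat.add_le_add_right h2 1))

theorem lower {κ α : ℝ} {A : Set ℕ} {R : ℕ} (hκ : 0 < κ) (hα : 0 < α) (hP : Cheap κ A)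
    (hO : Often α A) (hr : ∀ n, rep A n ≤ R) : 2 ^ ⌈α / κ⌉₊ ≤ R := by
  by_contra hlt
  push Not at hlt
  set s := ⌈α / κ⌉₊ with hs
  have hs1 : 0 < s := Nat.ceil_pos.2 (by positivity)
  obtain ⟨t, ht⟩ : ∃ t, s = t + 1 := ⟨s - 1, by omega⟩
  have htk : (t : ℝ) * κ < α := by
    have : (t : ℝ) < α / κ := Nat.lt_ceil.1 (by omega)
    rwa [lt_div_iff₀ hκ] at this
  set ε := (α - t * κ) / (2 * (t + 1)) with hε
  have hε0 : 0 < ε := div_pos (by linarith) (by positivity)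
  have hε1 : ε * (2 * (t + 1)) = α - t * κ := div_mul_cancel₀ _ (by positivity)
  have hγ : 0 < (α - t * κ) / 2 := by linarith
  obtain ⟨N, h4, h5, h6, h7⟩ := ((hO ε hε0).and_eventually ((hP ε hε0).and
    (((tendsto_rpow_nat hγ).eventually_gt_atTop 2).and (eventually_ge_atTop 1)))).exists
  have hN : (1 : ℝ) ≤ N := by exact_mod_cast h7
  have hN0 : (0 : ℝ) < N := by linarith
  have h8 := seg_bound (A := A) (t := t)
    (fun n => lt_of_le_of_lt (hr n) (by rw [← ht]; exact hlt)) N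
  have h9 : ((A ∩ Set.Icc 1 N).ncard : ℝ) ≤ (cost (seg A N) : ℝ) ^ t + 1 := by exact_mod_cast h8
  have h10 : (cost (seg A N) : ℝ) ^ t ≤ (N : ℝ) ^ ((κ + ε) * t) := by
    rw [Real.rpow_mul hN0.le, Real.rpow_natCast]
    exact pow_le_pow_left₀ (by positivity) h5 t
  have h11 : 1 ≤ (N : ℝ) ^ ((κ + ε) * t) := Real.one_le_rpow hN (by positivity)
  have h12 : (N : ℝ) ^ (α - ε) = (N : ℝ) ^ ((κ + ε) * t) * (N : ℝ) ^ ((α - t * κ) / 2) := by
    rw [← Real.rpow_add hN0]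
    congr 1
    linarith
  rw [h12] at h4
  have h13 : (N : ℝ) ^ ((κ + ε) * t) * 2 < (N : ℝ) ^ ((κ + ε) * t) * (N : ℝ) ^ ((α - t * κ) / 2) :=
    mul_lt_mul_of_pos_left h6 (by positivity)
  linarith

theorem exists_set (hP : S_PAR) {α κ : ℝ} (hκ : 0 < κ) (hα : 0 < α) (hα2 : α ≤ 1 / 2) :
    ∃ A : Set ℕ, Powers κ A ∧ Often α A ∧ ∀ n, rep A n ≤ 2 ^ ⌈α / κ⌉₊ := by
  have hk : 1 ≤ ⌈α / κ⌉₊ := Nat.one_le_ceil_iff.2 (by positivity)
  have hkR : (0 : ℝ) < (⌈α / κ⌉₊ : ℕ) := by exact_mod_cast hk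
  have h1 : α / κ ≤ (⌈α / κ⌉₊ : ℕ) := Nat.le_ceil _
  obtain ⟨A, hA1, hA2, hA3⟩ := hP ⌈α / κ⌉₊ (α / (⌈α / κ⌉₊ : ℕ)) hk (by positivity) (by
    have e : 2 * ((⌈α / κ⌉₊ : ℕ) : ℝ) * (α / (⌈α / κ⌉₊ : ℕ)) = 2 * α := by
      field_simp
    rw [e]
    linarith)
  refine ⟨A, powers_mono ?_ hA1, ?_, hA2⟩
  · rw [div_le_iff₀ hkR]
    rw [div_le_iff₀ hκ] at h1
    linarith
  · have e : ((⌈α / κ⌉₊ : ℕ) : ℝ) * (α / (⌈α / κ⌉₊ : ℕ)) = α := by
      field_simp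
    rwa [e] at hA3

/-- the least possible bound, for every class between `Powers κ` and `Cheap κ` -/
theorem least (hP : S_PAR) {α κ : ℝ} (hκ : 0 < κ) (hα : 0 < α) (hα2 : α ≤ 1 / 2)
    {𝒞 : Set ℕ → Prop} (h1 : ∀ A, Powers κ A → 𝒞 A) (h2 : ∀ A, 𝒞 A → Cheap κ A) :
    IsLeast {R : ℕ | ∃ A : Set ℕ, 𝒞 A ∧ Often α A ∧ ∀ n, rep A n ≤ R} (2 ^ ⌈α / κ⌉₊) := by
  constructor
  · obtain ⟨A, hA1, hA2, hA3⟩ := exists_set hP hκ hα hα2
    exact ⟨A, h1 A hA1, hA2, hA3⟩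
  · rintro R ⟨A, hA1, hA2, hA3⟩
    exact lower hκ hα (h2 A hA1) hA2 hA3

theorem region (hP : S_PAR) {α κ : ℝ} (hκ : 0 ≤ κ) (hα : 0 < α) (hα2 : α ≤ 1 / 2)
    {𝒞 : Set ℕ → Prop} (g1 : ∀ A, Powers κ A → 𝒞 A) (g2 : ∀ A, 𝒞 A → Cheap κ A)
    (t : ℕ) : (∃ A : Set ℕ, 𝒞 A ∧ Often α A ∧ ∀ n, rep A n < 2 ^ (t + 1)) ↔
      α ≤ t * κ := by
  constructor
  · rintro ⟨A, hA1, hA2, hA3⟩
    have h1 : ∀ κ' : ℝ, κ < κ' → α ≤ t * κ' := by
      intro κ' hκ'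
      have hκ0 : 0 < κ' := lt_of_le_of_lt hκ hκ'
      have h2 := lower (R := 2 ^ (t + 1) - 1) hκ0 hα (cheap_mono hκ'.le (g2 A hA1)) hA2
        (fun n => by
          have := hA3 n
          omega)
      have h3 : 2 ^ ⌈α / κ'⌉₊ < 2 ^ (t + 1) := by
        have : 0 < 2 ^ (t + 1) := by positivity
        omega
      have h4 : ⌈α / κ'⌉₊ ≤ t := by
        have := (Nat.pow_lt_pow_iff_right (by norm_num : 1 < 2)).1 h3
        omega
      rw [Nat.ceil_le, div_le_iff₀ hκ0] at h4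
      exact h4
    by_contra hcon
    push Not at hcon
    have ht : (0 : ℝ) ≤ t := Nat.cast_nonneg t
    have h2 := h1 (κ + (α - t * κ) / (2 * (t + 1))) (by
      have : 0 < (α - t * κ) / (2 * (t + 1)) := div_pos (by linarith) (by positivity)
      linarith)
    have h3 : (t : ℝ) * ((α - t * κ) / (2 * (t + 1))) ≤ (α - t * κ) / 2 := by
      rw [mul_div_assoc', div_le_div_iff₀ (by positivity) (by norm_num)]
      nlinarith
    nlinarith
  · intro h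
    have hκ0 : 0 < κ := by
      rcases lt_or_eq_of_le hκ with h1 | h1
      · exact h1
      · rw [← h1, mul_zero] at h
        linarith
    obtain ⟨A, hA1, hA2, hA3⟩ := exists_set hP hκ0 hα hα2
    refine ⟨A, g1 A hA1, hA2, fun n => lt_of_le_of_lt (hA3 n) ?_⟩
    apply Nat.pow_lt_pow_right (by norm_num)
    have : ⌈α / κ⌉₊ ≤ t := by
      rw [Nat.ceil_le, div_le_iff₀ hκ0]
      exact h
    omega

end Pool.Agent.Helper42.GT
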