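import Pool.Agent.Helper42.GT.Stm

/-!
# Grammars for one layer of digits
-/

set_option autoImplicit false

open Finset

namespace Pool.Agent.Helper42.GT.GRM

open Pool.Agent.Helper42.GC (pre Sys range_mul_map)

/-- the word of the digits from `p 2 ^ l` to `(p + 1) 2 ^ l - 1` -/
def V (S : Finset ℕ) (u z : List Bool) (l p : ℕ) : List Bool :=
  (List.range (2 ^ l)).flatMap (fun d => if p * 2 ^ l + d ∈ S then u else z)

lemma V_zero (S : Finset ℕ) (u z : List Bool) (p : ℕ) : V S u z 0 p = if p ∈ S then u else z := by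
  simp [V]

lemma V_succ (S : Finset ℕ) (u z : List Bool) (l p : ℕ) :
    V S u z (l + 1) p = V S u z l (2 * p) ++ V S u z l (2 * p + 1) := by
  have e : 2 ^ (l + 1) = 2 ^ l + 2 ^ l := by ring
  unfold V
  rw [e, List.range_add, List.flatMap_append, List.flatMap_map]
  congr 1
  · apply List.flatMap_congr
    intro d _
    rw [show p * (2 ^ l + 2 ^ l) + d = 2 * p * 2 ^ l + d by ring]
  · apply List.flatMap_congr
    intro d _
    rw [show p * (2 ^ l + 2 ^ l) + (2 ^ l + d) = (2 * p + 1) * 2 ^ l + d by ring]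

lemma V_none {S : Finset ℕ} {u z : List Bool} {l p : ℕ} (h : ∀ d ∈ S, d / 2 ^ l ≠ p) (q : ℕ) :
    V S u z l p = V ∅ u z l q := by
  unfold V
  apply List.flatMap_congr
  intro d hd
  rw [List.mem_range] at hd
  have h1 : p * 2 ^ l + d ∉ S := by
    intro hmem
    apply h _ hmem
    rw [mul_comm, Nat.mul_add_div (by positivity), Nat.div_eq_of_lt hd, add_zero]
  rw [if_neg h1, if_neg (Finset.notMem_empty _)]

lemma V_ne {S : Finset ℕ} {u z : List Bool} {l p : ℕ} (hu : u ≠ []) (hz : z ≠ []) :
    V S u z l p ≠ [] := by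
  intro h
  unfold V at h
  rw [List.flatMap_eq_nil_iff] at h
  have h1 := h 0 (List.mem_range.2 (by positivity))
  split_ifs at h1
  · exact hu h1
  · exact hz h1

theorem sysV {s : ℕ} {T : List Bool → Prop} (h : Sys s T) {u z : List Bool} (hu : T u) (hz : T z)
    (hu0 : u ≠ []) (hz0 : z ≠ []) (S : Finset ℕ) : ∀ l : ℕ, Sys (s + 2 * l * (S.card + 1))
      (fun w => T w ∨ (∃ d ∈ S, w = V S u z l (d / 2 ^ l)) ∨ w = V ∅ u z l 0) := by
  intro l
  induction l with
  | zero =>
    refine h.mono (by simp) ?_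
    rintro w (hw | ⟨d, hd, rfl⟩ | rfl)
    · exact hw
    · rw [V_zero, pow_zero, Nat.div_one, if_pos hd]
      exact hu
    · rw [V_zero, if_neg (Finset.notMem_empty _)]
      exact hz
  | succ l ih =>
    have hV : ∀ p, (T (V S u z l p) ∨ (∃ d ∈ S, V S u z l p = V S u z l (d / 2 ^ l)) ∨
        V S u z l p = V ∅ u z l 0) := by
      intro p
      by_cases hp : ∃ d ∈ S, d / 2 ^ l = p
      · obtain ⟨d, hd, rfl⟩ := hp
        exact Or.inr (Or.inl ⟨d, hd, rfl⟩)
      · push Not at hp
        exact Or.inr (Or.inr (V_none hp 0))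
    have h4 := ih.many ([V ∅ u z l 0, V ∅ u z l 0] :: S.toList.map (fun d =>
      [V S u z l (2 * (d / 2 ^ (l + 1))), V S u z l (2 * (d / 2 ^ (l + 1)) + 1)])) (by
      intro L hL w hw
      right
      rw [List.mem_cons] at hL
      rcases hL with rfl | hL
      · right; right
        simpa using hw
      · rw [List.mem_map] at hL
        obtain ⟨d, _, rfl⟩ := hL
        simp only [List.mem_cons, List.not_mem_nil, or_false] at hw
        rcases hw with rfl | rfl
        · exact hV _
        · exact hV _)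
    refine h4.mono ?_ ?_
    · rw [List.map_cons, List.sum_cons, List.map_map]
      have h5 : (S.toList.map (List.length ∘ fun d => [V S u z l (2 * (d / 2 ^ (l + 1))),
          V S u z l (2 * (d / 2 ^ (l + 1)) + 1)])).sum = S.card * 2 := by
        rw [List.map_congr_left (g := fun _ => 2) (by intro d _; simp)]
        rw [List.map_const', List.sum_replicate, Finset.length_toList, smul_eq_mul]
      rw [h5]
      simp only [List.length_cons, List.length_nil]
      apply le_of_eq
      ring
    · rintro w (hw | ⟨d, hd, rfl⟩ | rfl)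
      · exact Or.inl (Or.inl hw)
      · right
        refine ⟨[V S u z l (2 * (d / 2 ^ (l + 1))), V S u z l (2 * (d / 2 ^ (l + 1)) + 1)], ?_, ?_,
          V_ne hu0 hz0⟩
        · exact List.mem_cons_of_mem _ (List.mem_map.2 ⟨d, Finset.mem_toList.2 hd, rfl⟩)
        · rw [V_succ]
          simp
      · right
        refine ⟨[V ∅ u z l 0, V ∅ u z l 0], List.mem_cons_self, ?_, V_ne hu0 hz0⟩
        rw [V_succ, V_none (p := 2 * 0 + 1) (by simp) 0]
        simp

lemma pre_ne {A : Set ℕ} {n : ℕ} (hn : 0 < n) : pre A n ≠ [] := by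
  intro h
  have h1 := congrArg List.length h
  rw [Pool.Agent.Helper42.GC.pre_length] at h1
  simp at h1
  omega

lemma mem_lay {S Y : Finset ℕ} {L v x : ℕ} (hY : ∀ y ∈ Y, y < L) (hx : x < L) :
    v * L + x ∈ lay S L Y ↔ v ∈ S ∧ x ∈ Y := by
  unfold lay
  rw [mem_image]
  constructor
  · rintro ⟨⟨d, y⟩, h1, h2⟩
    rw [mem_product] at h1
    obtain ⟨hd, hy⟩ := h1
    simp only at hd hy h2
    have hy' := hY y hy
    have hL : 0 < L := by omega
    have e1 : d = v := by
      have := congrArg (fun t => t / L) h2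
      beta_reduce at this
      rwa [mul_comm d, mul_comm v, Nat.mul_add_div hL, Nat.mul_add_div hL, Nat.div_eq_of_lt hy',
        Nat.div_eq_of_lt hx, add_zero, add_zero] at this
    subst e1
    have e2 : y = x := by omega
    subst e2
    exact ⟨hd, hy⟩
  · rintro ⟨h1, h2⟩
    exact ⟨(v, x), mem_product.2 ⟨h1, h2⟩, rfl⟩

lemma pre_lay {S Y : Finset ℕ} {L : ℕ} (hY : ∀ y ∈ Y, y < L) (ρ : ℕ) :
    pre (lay S L Y : Set ℕ) (2 ^ ρ * L) = V S (pre (Y : Set ℕ) L) (pre ∅ L) ρ 0 := by
  unfold pre V
  rw [mul_comm, range_mul_map]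
  apply List.flatMap_congr
  intro v _
  rw [zero_mul, zero_add]
  split_ifs with hv
  · apply List.map_congr_left
    intro x hx
    rw [List.mem_range] at hx
    rw [decide_eq_decide, mem_coe, mem_coe, mem_lay hY hx]
    exact ⟨fun h => h.2, fun h => ⟨hv, h⟩⟩
  · apply List.map_congr_left
    intro x hx
    rw [List.mem_range] at hx
    rw [decide_eq_decide, mem_coe, mem_lay hY hx]
    simp [hv]

lemma pre_empty (u : List Bool) (L ρ : ℕ) : pre ∅ (2 ^ ρ * L) = V ∅ u (pre ∅ L) ρ 0 := by
  unfold pre V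
  rw [mul_comm, range_mul_map]
  apply List.flatMap_congr
  intro v _
  rw [if_neg (Finset.notMem_empty _)]
  apply List.map_congr_left
  intro x _
  rw [decide_eq_decide]
  simp

theorem main : S_GRM := by
  intro s T L Y S ρ h hL hu hz hY hS
  have h1 := sysV h hu hz (pre_ne hL) (pre_ne hL) S ρ
  refine h1.mono (by rw [show 2 * ρ * (S.card + 1) = 2 * ρ * (S.card + 1) from rfl]) ?_
  rintro w (hw | rfl | rfl)
  · exact Or.inl hw
  · right
    rw [pre_lay hY]
    rcases S.eq_empty_or_nonempty with rfl | ⟨d, hd⟩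
    · exact Or.inr rfl
    · refine Or.inl ⟨d, hd, ?_⟩
      rw [Nat.div_eq_of_lt (hS d hd)]
  · right; right
    exact pre_empty _ L ρ

end Pool.Agent.Helper42.GT.GRM
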