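import Pool.Agent.Helper42.GT.GRM

/-!
# Grammars for unions of sparse blocks
-/

set_option autoImplicit false

open Finset

namespace Pool.Agent.Helper42.GT.WRD

open Pool.Agent.Helper42.GC (pre Sys sys_letters)

lemma lay_zero (L : ℕ) (Y : Finset ℕ) : lay {0} L Y = Y := by
  ext x
  unfold lay
  simp

lemma pre_append (A : Set ℕ) (a b : ℕ) : pre A (a + b) = pre A a ++ pre {i | a + i ∈ A} b := by
  unfold pre
  rw [List.range_add, List.map_append, List.map_map]
  rfl

lemma pre_congr {A B : Set ℕ} {n : ℕ} (h : ∀ x < n, (x ∈ A ↔ x ∈ B)) : pre A n = pre B n := by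
  unfold pre
  apply List.map_congr_left
  intro x hx
  rw [decide_eq_decide]
  exact h x (List.mem_range.1 hx)

lemma pre_one (A : Set ℕ) : ∃ c, pre A (2 ^ 0) = [c] := ⟨_, rfl⟩

theorem dbl {s : ℕ} {T : List Bool → Prop} (h : Sys s T) {L : ℕ} (hL : 0 < L) {Y : Finset ℕ}
    (hY : T (pre (Y : Set ℕ) L)) (h0 : T (pre ∅ L)) (hYL : ∀ y ∈ Y, y < L) (ρ : ℕ) :
    Sys (s + 4 * ρ) (fun w => T w ∨ w = pre (Y : Set ℕ) (2 ^ ρ * L) ∨ w = pre ∅ (2 ^ ρ * L)) := by
  have h1 := GRM.main s T L Y {0} ρ h hL hY h0 hYL (by simp)
  rw [lay_zero, card_singleton] at h1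
  exact h1.mono (by omega) fun w hw => hw

theorem block {s : ℕ} {T : List Bool → Prop} (h : Sys s T) (hT : ∀ c, T [c]) (hB : S_BLK)
    {S : Finset ℕ} {l ρ : ℕ} (hS : DS S ρ) : ∀ k : ℕ,
    Sys (s + 4 * l + 2 * k * ρ * (S.card + 1)) (fun w => T w ∨
      w = pre (blk S l ρ k : Set ℕ) (2 ^ (l + ρ * k)) ∨ w = pre ∅ (2 ^ (l + ρ * k))) := by
  intro k
  induction k with
  | zero =>
    have h1 := dbl h (L := 1) one_pos (Y := {0}) (by
      have : pre (({0} : Finset ℕ) : Set ℕ) 1 = [true] := by simp [pre]
      rw [this]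
      exact hT true) (by
      have : pre (∅ : Set ℕ) 1 = [false] := by simp [pre]
      rw [this]
      exact hT false) (by simp) l
    refine h1.mono (by simp) ?_
    rw [mul_zero, add_zero, mul_one]
    exact fun w hw => hw
  | succ k ih =>
    have h1 := GRM.main _ _ (2 ^ (l + ρ * k)) (blk S l ρ k) S ρ ih (by positivity)
      (Or.inr (Or.inl rfl)) (Or.inr (Or.inr rfl)) (fun y hy => by
        have := ((hB S l ρ hS k).1 y hy).1
        omega) (fun d hd => by
        have := hS.small d hd
        omega)
    refine h1.mono (le_of_eq (by ring)) ?_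
    have e : 2 ^ (l + ρ * (k + 1)) = 2 ^ ρ * 2 ^ (l + ρ * k) := by
      rw [← pow_add]
      congr 1
      ring
    rw [e]
    rintro w (hw | hw | hw)
    · exact Or.inl (Or.inl hw)
    · exact Or.inr (Or.inl hw)
    · exact Or.inr (Or.inr hw)

theorem main (hB : S_BLK) : S_WRD := by
  intro E l ρ S k M hS hE hl hM hM1 hSM j
  set Y : ℕ → Finset ℕ := fun m => blk (S m) (l m) (ρ m) k with hYdef
  have hYs : ∀ m, ∀ y ∈ Y m, y < 2 ^ E m := by
    intro m y hy
    have h1 := ((hB (S m) (l m) (ρ m) (hS m) k).1 y hy).1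
    have h2 : 2 ^ (l m + ρ m * k) ≤ 2 ^ E m := Nat.pow_le_pow_right (by norm_num) (by
      have := hE m
      omega)
    omega
  have hEmono : StrictMono E := by
    apply strictMono_nat_of_lt_succ
    intro m
    have h1 := hl m
    have h2 := hE (m + 1)
    omega
  have hblock : ∀ (j x m y : ℕ), x < 2 ^ j → y ∈ Y m → 2 ^ j + x = 2 ^ E m + y →
      E m = j := by
    intro j x m y hx hy h
    have h1 := hYs m y hy
    rcases lt_trichotomy (E m) j with h2 | h2 | h2
    · exfalso
      have h3 : 2 ^ (E m + 1) ≤ 2 ^ j := Nat.pow_le_pow_right (by norm_num) h2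
      rw [pow_succ] at h3
      omega
    · exact h2
    · exfalso
      have h3 : 2 ^ (j + 1) ≤ 2 ^ E m := Nat.pow_le_pow_right (by norm_num) h2
      rw [pow_succ] at h3
      omega
  induction j with
  | zero =>
    refine sys_letters.mono (by simp) ?_
    rintro w (⟨c, rfl⟩ | rfl | rfl)
    · exact ⟨c, rfl⟩
    · exact pre_one _
    · exact pre_one _
  | succ j ih =>
    obtain ⟨X, hX1, hX2⟩ : ∃ X : Finset ℕ, Sys (2 + 20 * j ^ 2 * M j + 6 * j * M j)
        (fun w => ((∃ c, w = [c]) ∨ w = pre (aset E Y) (2 ^ j) ∨ w = pre ∅ (2 ^ j)) ∨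
          w = pre (X : Set ℕ) (2 ^ j)) ∧ ∀ x < 2 ^ j, (2 ^ j + x ∈ aset E Y ↔ x ∈ X) := by
      by_cases hj : ∃ m, E m = j
      · obtain ⟨m, hm⟩ := hj
        refine ⟨Y m, ?_, ?_⟩
        · have h1 := block ih (fun c => Or.inl ⟨c, rfl⟩) hB (l := l m) (hS m) k
          have h2 := dbl h1 (L := 2 ^ (l m + ρ m * k)) (by positivity) (Y := Y m)
            (Or.inr (Or.inl rfl)) (Or.inr (Or.inr rfl)) (fun y hy => by
              have := ((hB (S m) (l m) (ρ m) (hS m) k).1 y hy).1
              omega) (j - (l m + ρ m * k))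
          have e : 2 ^ (j - (l m + ρ m * k)) * 2 ^ (l m + ρ m * k) = 2 ^ j := by
            rw [← pow_add]
            congr 1
            have := hE m
            omega
          rw [e] at h2
          refine h2.mono ?_ ?_
          · have h3 := hE m
            have h4 := hSM m
            rw [hm] at h3 h4
            obtain ⟨c, hc⟩ : ∃ c, c = (S m).card + 1 := ⟨_, rfl⟩
            obtain ⟨b, hb⟩ : ∃ b, b = ρ m * k := ⟨_, rfl⟩
            rw [← hc] at h4 ⊢
            rw [← hb] at h3 ⊢
            have h5 : 2 * k * ρ m * c = 2 * b * c := by rw [hb]; ring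
            rw [h5]
            have h6 : 2 * b * c ≤ 2 * j * M j := Nat.mul_le_mul (by omega) h4
            have h7 : 4 * j ≤ 4 * j * M j := Nat.le_mul_of_pos_right _ (hM1 j)
            have h8 : 6 * j * M j = 4 * j * M j + 2 * j * M j := by ring
            omega
          · rintro w ((hw | hw | hw) | hw)
            · exact Or.inl (Or.inl (Or.inl hw))
            · exact Or.inl (Or.inl (Or.inr (Or.inl hw)))
            · exact Or.inl (Or.inl (Or.inr (Or.inr hw)))
            · exact Or.inr (Or.inl hw)
        · intro x hx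
          constructor
          · rintro ⟨m', y, hy, h⟩
            have h1 := hblock j x m' y hx hy h
            have h2 : m' = m := hEmono.injective (by rw [h1, hm])
            subst h2
            have h3 : x = y := by
              rw [hm] at h
              omega
            rw [h3]
            exact hy
          · intro hx'
            exact ⟨m, x, hx', by rw [hm]⟩
      · refine ⟨∅, ?_, ?_⟩
        · refine ih.mono (by omega) ?_
          rintro w (hw | hw)
          · exact hw
          · right; right
            rw [hw, coe_empty]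
        · intro x hx
          constructor
          · rintro ⟨m', y, hy, h⟩
            exact absurd ⟨m', hblock j x m' y hx hy h⟩ hj
          · intro hx'
            exact absurd hx' (notMem_empty _)
    have h1 := hX1.many [[pre (aset E Y) (2 ^ j), pre (X : Set ℕ) (2 ^ j)],
      [pre ∅ (2 ^ j), pre ∅ (2 ^ j)]] (by
        intro L hL w hw
        right
        simp only [List.mem_cons, List.not_mem_nil, or_false] at hL
        rcases hL with rfl | rfl
        · simp only [List.mem_cons, List.not_mem_nil, or_false] at hw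
          rcases hw with rfl | rfl
          · exact Or.inl (Or.inr (Or.inl rfl))
          · exact Or.inr rfl
        · simp only [List.mem_cons, List.not_mem_nil, or_false, or_self] at hw
          exact Or.inl (Or.inr (Or.inr hw)))
    refine h1.mono ?_ ?_
    · simp only [List.map_cons, List.map_nil, List.length_cons, List.length_nil, List.sum_cons,
        List.sum_nil]
      have h2 : M j ≤ M (j + 1) := hM (by omega)
      have h3 := hM1 (j + 1)
      have h4 : 20 * j ^ 2 * M j ≤ 20 * j ^ 2 * M (j + 1) := Nat.mul_le_mul_left _ h2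
      have h5 : 6 * j * M j ≤ 6 * j * M (j + 1) := Nat.mul_le_mul_left _ h2
      have h6 : 20 * (j + 1) ^ 2 * M (j + 1) =
          20 * j ^ 2 * M (j + 1) + 40 * j * M (j + 1) + 20 * M (j + 1) := by ring
      have h7 : 6 * j * M (j + 1) ≤ 40 * j * M (j + 1) :=
        Nat.mul_le_mul_right _ (Nat.mul_le_mul_right _ (by norm_num))
      omega
    · have e : 2 ^ (j + 1) = 2 ^ j + 2 ^ j := by ring
      rw [e]
      rintro w (hw | rfl | rfl)
      · exact Or.inl (Or.inl (Or.inl hw))
      · right
        refine ⟨_, List.mem_cons_self, ?_, GRM.pre_ne (by positivity)⟩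
        rw [pre_append]
        simp only [List.flatten_cons, List.flatten_nil, List.append_nil]
        congr 1
        exact pre_congr fun x hx => by
          rw [Set.mem_ofPred_eq, hX2 x hx, mem_coe]
      · right
        refine ⟨_, List.mem_cons_of_mem _ List.mem_cons_self, ?_, GRM.pre_ne (by positivity)⟩
        rw [pre_append]
        simp only [List.flatten_cons, List.flatten_nil, List.append_nil]
        rw [show pre {i | 2 ^ j + i ∈ (∅ : Set ℕ)} (2 ^ j) = pre ∅ (2 ^ j) from
          pre_congr fun x _ => Iff.rfl]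

end Pool.Agent.Helper42.GT.WRD
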