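import Pool.Agent.Helper42.GT.Stm3
import Pool.Agent.Helper42.GT.DGR
import Pool.Agent.Helper42.GT.WRD

/-!
# Grammars for unions of digit blocks
-/

set_option autoImplicit false

open Finset

namespace Pool.Agent.Helper42.GT.GRQ

open Pool.Agent.Helper42.GC (pre Sys Gen gram gram_le sys_letters range_mul_map)

lemma wp_succ (ρ : ℕ → ℕ) (j : ℕ) : wp ρ (j + 1) = wp ρ j + ρ j := by
  unfold wp
  rw [sum_range_succ]

lemma wp_mono (ρ : ℕ → ℕ) : Monotone (wp ρ) := monotone_nat_of_le_succ fun j => by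
  rw [wp_succ]
  omega

lemma pow_wp_succ (ρ : ℕ → ℕ) (j : ℕ) : 2 ^ wp ρ (j + 1) = 2 ^ ρ j * 2 ^ wp ρ j := by
  rw [wp_succ, pow_add, mul_comm]

variable {ρ : ℕ → ℕ} {T : ℕ → ℕ → Finset ℕ}

lemma mem_lay' {S Y : Finset ℕ} {L a : ℕ} : a ∈ lay S L Y ↔ ∃ d ∈ S, ∃ y ∈ Y, d * L + y = a := by
  unfold lay
  rw [mem_image]
  constructor
  · rintro ⟨⟨d, y⟩, h, rfl⟩
    rw [mem_product] at h
    exact ⟨d, h.1, y, h.2, rfl⟩
  · rintro ⟨d, hd, y, hy, rfl⟩
    exact ⟨(d, y), mem_product.2 ⟨hd, hy⟩, rfl⟩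

lemma qs_lt (hT : ∀ b c, ∀ d ∈ T b c, 0 < d ∧ d < 2 ^ ρ (b + c)) (b : ℕ) : ∀ c,
    ∀ y ∈ qs ρ T b c, y < 2 ^ wp ρ (b + c) := by
  intro c
  induction c with
  | zero =>
    intro y hy
    have h0 : y = 0 := by
      rw [qs, mem_singleton] at hy
      exact hy
    rw [h0]
    positivity
  | succ c ih =>
    intro y hy
    rw [qs, mem_lay'] at hy
    obtain ⟨d, hd, x, hx, rfl⟩ := hy
    have h1 := (hT b c d hd).2
    have h2 := ih x hx
    rw [← add_assoc, pow_wp_succ]
    have h3 : (d + 1) * 2 ^ wp ρ (b + c) ≤ 2 ^ ρ (b + c) * 2 ^ wp ρ (b + c) :=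
      Nat.mul_le_mul_right _ h1
    rw [add_mul, one_mul] at h3
    omega

lemma qs_ge (hT : ∀ b c, ∀ d ∈ T b c, 0 < d ∧ d < 2 ^ ρ (b + c)) (b c : ℕ) :
    ∀ y ∈ qs ρ T b (c + 1), 2 ^ wp ρ (b + c) ≤ y := by
  intro y hy
  rw [qs, mem_lay'] at hy
  obtain ⟨d, hd, x, hx, rfl⟩ := hy
  have h1 := (hT b c d hd).1
  have h3 : 1 * 2 ^ wp ρ (b + c) ≤ d * 2 ^ wp ρ (b + c) := Nat.mul_le_mul_right _ h1
  omega

theorem block (hT : ∀ b c, ∀ d ∈ T b c, 0 < d ∧ d < 2 ^ ρ (b + c)) {s : ℕ}
    {P : List Bool → Prop} (h : Sys s P) (hP : ∀ c, P [c]) (b : ℕ) {M : ℕ} (hM : 1 ≤ M) : ∀ c : ℕ,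
    (∀ i < c, (T b i).card ≤ M) → Sys (s + 4 * wp ρ (b + c) * M) (fun w => P w ∨
      w = pre (qs ρ T b c : Set ℕ) (2 ^ wp ρ (b + c)) ∨ w = pre ∅ (2 ^ wp ρ (b + c))) := by
  intro c
  induction c with
  | zero =>
    intro _
    have h1 := WRD.dbl h (L := 1) one_pos (Y := {0}) (by
      have : pre (({0} : Finset ℕ) : Set ℕ) 1 = [true] := by simp [pre]
      rw [this]
      exact hP true) (by
      have : pre (∅ : Set ℕ) 1 = [false] := by simp [pre]
      rw [this]
      exact hP false) (by simp) (wp ρ b)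
    refine h1.mono ?_ ?_
    · rw [add_zero]
      exact Nat.add_le_add_left (Nat.le_mul_of_pos_right _ hM) s
    · rw [add_zero, mul_one]
      exact fun w hw => hw
  | succ c ih =>
    intro hc
    have h1 := GRM.main _ _ (2 ^ wp ρ (b + c)) (qs ρ T b c) (T b c) (ρ (b + c))
      (ih fun i hi => hc i (by omega)) (by positivity) (Or.inr (Or.inl rfl)) (Or.inr (Or.inr rfl))
      (qs_lt hT b c) (fun d hd => (hT b c d hd).2)
    refine h1.mono ?_ ?_
    · have h2 := hc c (by omega)
      rw [← add_assoc, wp_succ]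
      have h3 : 2 * ρ (b + c) * ((T b c).card + 1) ≤ 2 * ρ (b + c) * (2 * M) :=
        Nat.mul_le_mul_left _ (by omega)
      have h4 : 4 * (wp ρ (b + c) + ρ (b + c)) * M = 4 * wp ρ (b + c) * M +
        2 * ρ (b + c) * (2 * M) := by ring
      omega
    · rw [← add_assoc, pow_wp_succ]
      rintro w (hw | hw | hw)
      · exact Or.inl (Or.inl hw)
      · exact Or.inr (Or.inl hw)
      · exact Or.inr (Or.inr hw)

theorem sys (hT : ∀ b c, ∀ d ∈ T b c, 0 < d ∧ d < 2 ^ ρ (b + c)) {k b₀ : ℕ} (hk : 1 ≤ k)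
    {M : ℕ → ℕ} (hM : Monotone M) (hM1 : ∀ j, 1 ≤ M j)
    (hTM : ∀ b, b₀ ≤ b → ∀ c < k, (T b c).card ≤ M (b + k)) : ∀ j : ℕ,
    Sys (2 + 20 * j * (wp ρ j + 1) * M j) (fun w => (∃ c, w = [c]) ∨
      w = pre (uset ρ T k b₀) (2 ^ wp ρ j) ∨ w = pre ∅ (2 ^ wp ρ j)) := by
  classical
  obtain ⟨c, rfl⟩ : ∃ c, k = c + 1 := ⟨k - 1, by omega⟩
  intro j
  induction j with
  | zero =>
    refine sys_letters.mono (by simp) ?_
    have h0 : wp ρ 0 = 0 := rfl
    rw [h0]
    rintro w (⟨c, rfl⟩ | rfl | rfl)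
    · exact ⟨c, rfl⟩
    · exact WRD.pre_one _
    · exact WRD.pre_one _
  | succ j ih =>
    obtain ⟨A, hA⟩ : ∃ A, A = uset ρ T (c + 1) b₀ := ⟨_, rfl⟩
    rw [← hA] at ih ⊢
    obtain ⟨T', Q, h0T, hcard, hX1, hX2⟩ : ∃ T' Q : Finset ℕ, 0 ∉ T' ∧ T'.card ≤ M (j + 1) ∧
        Sys (2 + 20 * j * (wp ρ j + 1) * M j + 4 * wp ρ j * M (j + 1))
        (fun w => ((∃ c, w = [c]) ∨ w = pre A (2 ^ wp ρ j) ∨ w = pre ∅ (2 ^ wp ρ j)) ∨
          w = pre (Q : Set ℕ) (2 ^ wp ρ j)) ∧ ∀ v x, 0 < v → v < 2 ^ ρ j → x < 2 ^ wp ρ j →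
            (v * 2 ^ wp ρ j + x ∈ A ↔ v ∈ T' ∧ x ∈ Q) := by
      have hwin : ∀ v x b, 0 < v → v < 2 ^ ρ j → x < 2 ^ wp ρ j →
          v * 2 ^ wp ρ j + x ∈ qs ρ T b (c + 1) → b + c = j := by
        intro v x b hv hv2 hx h
        have h1 := qs_lt hT b (c + 1) _ h
        have h2 := qs_ge hT b c _ h
        have h3 : 1 * 2 ^ wp ρ j ≤ v * 2 ^ wp ρ j := Nat.mul_le_mul_right _ hv
        have h4 : (v + 1) * 2 ^ wp ρ j ≤ 2 ^ ρ j * 2 ^ wp ρ j := Nat.mul_le_mul_right _ hv2
        rw [← pow_wp_succ, add_mul, one_mul] at h4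
        rcases lt_trichotomy (b + c) j with h5 | h5 | h5
        · exfalso
          have h6 : 2 ^ wp ρ (b + (c + 1)) ≤ 2 ^ wp ρ j :=
            Nat.pow_le_pow_right (by norm_num) (wp_mono ρ (by omega))
          omega
        · exact h5
        · exfalso
          have h6 : 2 ^ wp ρ (j + 1) ≤ 2 ^ wp ρ (b + c) :=
            Nat.pow_le_pow_right (by norm_num) (wp_mono ρ (by omega))
          omega
      by_cases hj : b₀ + c ≤ j
      · obtain ⟨b, hb⟩ : ∃ b, j = b + c := ⟨j - c, by omega⟩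
        have hb0 : b₀ ≤ b := by omega
        refine ⟨T b c, qs ρ T b c, fun h0 => absurd (hT b c 0 h0).1 (lt_irrefl 0), ?_, ?_, ?_⟩
        · have := hTM b hb0 c (by omega)
          rwa [← add_assoc, ← hb] at this
        · have h1 := block hT ih (fun c => Or.inl ⟨c, rfl⟩) b (hM1 (j + 1)) c (fun i hi => by
            have := hTM b hb0 i (by omega)
            rwa [← add_assoc, ← hb] at this)
          rw [← hb] at h1
          refine h1.mono (by omega) ?_
          rintro w (hw | hw)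
          · exact Or.inl hw
          · exact Or.inr (Or.inl hw)
        · intro v x hv hv2 hx
          have hlt := qs_lt hT b c
          rw [← hb] at hlt
          rw [hA]
          constructor
          · rintro ⟨b', hb', h⟩
            have h1 := hwin v x b' hv hv2 hx h
            have h2 : b' = b := by omega
            subst h2
            rw [qs, ← hb, GRM.mem_lay hlt hx] at h
            exact h
          · intro h
            refine ⟨b, hb0, ?_⟩
            rw [qs, ← hb, GRM.mem_lay hlt hx]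
            exact h
      · refine ⟨∅, ∅, notMem_empty _, by simp, ?_, ?_⟩
        · refine ih.mono (by omega) ?_
          rintro w (hw | hw)
          · exact hw
          · right; right
            rw [hw, coe_empty]
        · intro v x hv hv2 hx
          rw [hA]
          constructor
          · rintro ⟨b', hb', h⟩
            have h1 := hwin v x b' hv hv2 hx h
            omega
          · rintro ⟨h, _⟩
            exact absurd h (notMem_empty _)
    -- the new window
    obtain ⟨g, hg⟩ : ∃ g : ℕ → List Bool, g = fun d => if d = 0 then pre A (2 ^ wp ρ j) else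
      if d ∈ T' then pre (Q : Set ℕ) (2 ^ wp ρ j) else pre ∅ (2 ^ wp ρ j) := ⟨_, rfl⟩
    have hpos : 0 < 2 ^ wp ρ j := by positivity
    have h1 := DGR.sysV hX1 (S := insert 0 T') (g := g) (z := pre ∅ (2 ^ wp ρ j)) (by
      intro v hv
      rw [mem_insert] at hv
      push Not at hv
      rw [hg]
      simp only [hv.1, hv.2, if_false]) (by
      intro v hv
      by_cases hv0 : v = 0
      · have e : g v = pre A (2 ^ wp ρ j) := by
          rw [hg]
          simp only [hv0, if_true]
        rw [e]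
        exact Or.inl (Or.inr (Or.inl rfl))
      · have hv1 : v ∈ T' := by
          rw [mem_insert] at hv
          exact hv.resolve_left hv0
        have e : g v = pre (Q : Set ℕ) (2 ^ wp ρ j) := by
          rw [hg]
          simp only [hv0, hv1, if_true, if_false]
        rw [e]
        exact Or.inr rfl) (Or.inl (Or.inr (Or.inr rfl))) (by
      intro v
      rw [hg]
      dsimp only
      split_ifs
      · exact GRM.pre_ne hpos
      · exact GRM.pre_ne hpos
      · exact GRM.pre_ne hpos) (GRM.pre_ne hpos) (ρ j)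
    refine h1.mono ?_ ?_
    · have h2 : (insert 0 T').card + 1 ≤ 3 * M (j + 1) := by
        have h3 := card_insert_le 0 T'
        have h4 := hM1 (j + 1)
        omega
      have h3 : 2 * ρ j * ((insert 0 T').card + 1) ≤ 2 * ρ j * (3 * M (j + 1)) :=
        Nat.mul_le_mul_left _ h2
      have h4 : 20 * j * (wp ρ j + 1) * M j ≤ 20 * j * (wp ρ j + ρ j + 1) * M (j + 1) :=
        Nat.mul_le_mul (Nat.mul_le_mul_left _ (by omega)) (hM (by omega))
      rw [wp_succ]
      have h5 : 20 * (j + 1) * (wp ρ j + ρ j + 1) * M (j + 1) =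
          20 * j * (wp ρ j + ρ j + 1) * M (j + 1) + 20 * wp ρ j * M (j + 1) +
            20 * ρ j * M (j + 1) + 20 * M (j + 1) := by ring
      have h6 : 2 * ρ j * (3 * M (j + 1)) = 6 * (ρ j * M (j + 1)) := by ring
      have h7 : 4 * wp ρ j * M (j + 1) = 4 * (wp ρ j * M (j + 1)) := by ring
      have h8 : 20 * wp ρ j * M (j + 1) = 20 * (wp ρ j * M (j + 1)) := by ring
      have h9 : 20 * ρ j * M (j + 1) = 20 * (ρ j * M (j + 1)) := by ring
      omega
    · rintro w (hw | rfl | rfl)
      · exact Or.inl (Or.inl (Or.inl hw))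
      · right; left
        refine ⟨0, mem_insert_self _ _, ?_⟩
        rw [Nat.zero_div]
        unfold DGR.V pre
        rw [pow_wp_succ, mul_comm, range_mul_map]
        apply List.flatMap_congr
        intro v hv
        rw [List.mem_range] at hv
        rw [zero_mul, zero_add, hg]
        dsimp only
        by_cases hv0 : v = 0
        · rw [if_pos hv0]
          unfold pre
          apply List.map_congr_left
          intro x _
          rw [hv0, zero_mul, zero_add]
        · rw [if_neg hv0]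
          split_ifs with hv1
          · unfold pre
            apply List.map_congr_left
            intro x hx
            rw [List.mem_range] at hx
            rw [decide_eq_decide, hX2 v x (Nat.pos_of_ne_zero hv0) hv hx, mem_coe]
            exact ⟨fun h => h.2, fun h => ⟨hv1, h⟩⟩
          · unfold pre
            apply List.map_congr_left
            intro x hx
            rw [List.mem_range] at hx
            rw [decide_eq_decide, hX2 v x (Nat.pos_of_ne_zero hv0) hv hx]
            simp [hv1]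
      · right; right
        rw [pow_wp_succ]
        unfold DGR.V
        show pre ∅ (2 ^ ρ j * 2 ^ wp ρ j) = (List.range (2 ^ ρ j)).flatMap
          (fun _ => pre ∅ (2 ^ wp ρ j))
        unfold pre
        rw [mul_comm, range_mul_map]
        apply List.flatMap_congr
        intro v _
        apply List.map_congr_left
        intro x _
        rw [decide_eq_decide]
        simp

theorem main : S_GRQ := by
  intro ρ T k b₀ M hk hT hM hM1 hTM j N hN
  have h1 := sys hT hk hM hM1 hTM j
  have h2 : Gen (2 + 20 * j * (wp ρ j + 1) * M j) (pre (uset ρ T k b₀) (2 ^ wp ρ j)) :=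
    h1.gen (Or.inr (Or.inl rfl))
  refine (gram_le hN h2).trans ?_
  refine Nat.add_le_add_left (Nat.mul_le_mul_right _ (Nat.mul_le_mul_right _ ?_)) 2
  omega

end Pool.Agent.Helper42.GT.GRQ
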