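import Pool.Agent.Helper42.GT.Stm

/-! The lower bound (module by helper90) -/

set_option autoImplicit false

open Finset Filter

namespace Pool.Agent.Helper42.GT.LOW

open Pool.Agent.Helper42.GC Pool.Agent.Helper76.FX

theorem main : S_LOW := by
  intro κ α A R hκ hα hP hO hr
  by_contra hlt
  push Not at hlt
  set s := ⌈α / κ⌉₊ with hs
  have hs1 : 0 < s := Nat.ceil_pos.2 (by positivity)
  obtain ⟨t, ht⟩ : ∃ t, s = t + 1 := ⟨s - 1, by omega⟩
  have htk : (t : ℝ) * κ < α := by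
    have : (t : ℝ) < α / κ := Nat.lt_ceil.1 (by omega)
    rwa [lt_div_iff₀ hκ] at this
  set ε := (α - t * κ) / (2 * (t + 1)) with hε
  have hε0 : 0 < ε := div_pos (by linarith) (by positivity)
  have hε1 : ε * (2 * (t + 1)) = α - t * κ := div_mul_cancel₀ _ (by positivity)
  have hγ : 0 < (α - t * κ) / 2 := by linarith
  obtain ⟨N, h4, h5, h6, h7⟩ := ((hO ε hε0).and_eventually ((hP ε hε0).and
    (((tendsto_rpow_nat hγ).eventually_gt_atTop 2).and (eventually_ge_atTop 1)))).exists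
  have hN : (1 : ℝ) ≤ N := by exact_mod_cast h7
  have hN0 : (0 : ℝ) < N := by linarith
  have h8 := ineq' (A := A) (t := t) (fun n => lt_of_le_of_lt (hr n) (by rw [← ht]; exact hlt)) N
  have h9 : ((A ∩ Set.Icc 1 N).ncard : ℝ) ≤ (gram A N : ℝ) ^ t + 1 := by exact_mod_cast h8
  have h10 : (gram A N : ℝ) ^ t ≤ (N : ℝ) ^ ((κ + ε) * t) := by
    rw [Real.rpow_mul hN0.le, Real.rpow_natCast]
    exact pow_le_pow_left₀ (by positivity) h5 t
  have h11 : 1 ≤ (N : ℝ) ^ ((κ + ε) * t) := Real.one_le_rpow hN (by positivity)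
  have h12 : (N : ℝ) ^ (α - ε) = (N : ℝ) ^ ((κ + ε) * t) * (N : ℝ) ^ ((α - t * κ) / 2) := by
    rw [← Real.rpow_add hN0]
    congr 1
    linarith
  rw [h12] at h4
  have h13 : (N : ℝ) ^ ((κ + ε) * t) * 2 < (N : ℝ) ^ ((κ + ε) * t) * (N : ℝ) ^ ((α - t * κ) / 2) :=
    mul_lt_mul_of_pos_left h6 (by positivity)
  linarith

end Pool.Agent.Helper42.GT.LOW
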