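import Pool.Agent.Helper42.GT.Stm

/-!
# The choice of the parameters

helper94, for helper42.
-/

set_option autoImplicit false

open Finset Filter

namespace Pool.Agent.Helper42.GT.PAR

open Pool.Agent.Helper42.GC
open Pool.Agent.Helper76.FX (rep sid sid_spec one_le_log tendsto_rpow_nat)

/-- the exponents of the blocks -/
def EE (a : ℕ) : ℕ → ℕ
  | 0 => a
  | m + 1 => EE a m ^ 2

/-- the lower ends of the blocks -/
def ll (a : ℕ) : ℕ → ℕ
  | 0 => 0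
  | m + 1 => EE a m + 1

lemma exists_DS (s : ℕ) : ∃ S : Finset ℕ, DS S (2 * s + 6) ∧ S.card = 2 ^ s := by
  have hpos : 1 ≤ 32 * 4 ^ s := Nat.mul_pos (by norm_num) (by positivity)
  obtain ⟨-, h1, h2, h3⟩ := sid_spec hpos
  have h4 : 2 ^ s ≤ (sid (32 * 4 ^ s)).card := by
    have h5 : (2 ^ s) ^ 2 ≤ (sid (32 * 4 ^ s)).card ^ 2 := by
      rw [← pow_mul, mul_comm s 2, pow_mul]
      norm_num
      omega
    exact (Nat.pow_le_pow_iff_left (by norm_num)).1 h5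
  obtain ⟨S, hS, hc⟩ := Finset.exists_subset_card_eq h4
  refine ⟨S, ⟨?_, ?_⟩, hc⟩
  · intro d hd
    have h5 := h1 d (hS hd)
    have h6 : 2 ^ (2 * s + 6) = 2 * (32 * 4 ^ s) := by
      rw [pow_add, pow_mul]
      norm_num
      ring
    omega
  · intro a ha b hb c hc' d hd
    exact h2 a (hS ha) b (hS hb) c (hS hc') d (hS hd)

theorem pow_asym {θ : ℝ} (hθ : 0 < θ) (hθ1 : θ ≤ 1) {g : ℕ → ℕ}
    (hg : ∀ j N : ℕ, N ≤ 2 ^ j → g N ≤ 2 + 20 * j ^ 2 * (2 ^ ⌊θ * j⌋₊ + 2)) (ε : ℝ) (hε : 0 < ε) :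
    ∀ᶠ N : ℕ in atTop, (g N : ℝ) ≤ (N : ℝ) ^ (θ + ε) := by
  have hlim : 0 < ε / 4 := by linarith
  have hl : ∀ᶠ N : ℕ in atTop, Real.log N ≤ (N : ℝ) ^ (ε / 4) := by
    have h1 := (isLittleO_log_rpow_atTop hlim).bound (show (0 : ℝ) < 1 by norm_num)
    have h2 := tendsto_natCast_atTop_atTop.eventually h1
    filter_upwards [h2, eventually_ge_atTop 3] with N h3 h4
    have h5 := one_le_log h4
    rw [Real.norm_eq_abs, Real.norm_eq_abs, one_mul, abs_of_nonneg (by linarith),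
      abs_of_nonneg (by positivity)] at h3
    exact h3
  filter_upwards [(tendsto_rpow_nat (show 0 < ε / 2 by linarith)).eventually_ge_atTop 722,
    eventually_ge_atTop 3, hl] with N h1 h2 h3
  have hN : (0 : ℝ) < N := by
    have : 0 < N := by omega
    exact_mod_cast this
  have hN1 : (1 : ℝ) ≤ N := by
    have : 1 ≤ N := by omega
    exact_mod_cast this
  obtain ⟨j, hj⟩ : ∃ j, j = Nat.log 2 N + 1 := ⟨_, rfl⟩
  have h4 : N ≤ 2 ^ j := by
    rw [hj]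
    exact (Nat.lt_pow_succ_log_self (by norm_num) N).le
  have h5 : 2 ^ j ≤ 2 * N := by
    rw [hj, pow_succ]
    have := Nat.pow_log_le_self 2 (x := N) (by omega)
    omega
  have h6 := hg j N h4
  have h7 : (j : ℝ) ≤ 3 * Real.log N := by
    rw [hj]
    push_cast
    exact log_two_le h2
  have h8 : (2 : ℝ) ^ ⌊θ * j⌋₊ ≤ 2 * (N : ℝ) ^ θ := by
    calc (2 : ℝ) ^ ⌊θ * j⌋₊ = (2 : ℝ) ^ ((⌊θ * j⌋₊ : ℕ) : ℝ) := (Real.rpow_natCast _ _).symm
      _ ≤ (2 : ℝ) ^ (θ * j) :=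
          Real.rpow_le_rpow_of_exponent_le (by norm_num) (Nat.floor_le (by positivity))
      _ = ((2 : ℝ) ^ (j : ℝ)) ^ θ := by
          rw [mul_comm, Real.rpow_mul (by norm_num)]
      _ ≤ (2 * (N : ℝ)) ^ θ := by
          apply Real.rpow_le_rpow (by positivity) _ hθ.le
          rw [Real.rpow_natCast]
          exact_mod_cast h5
      _ = 2 ^ θ * (N : ℝ) ^ θ := Real.mul_rpow (by norm_num) hN.le
      _ ≤ 2 * (N : ℝ) ^ θ := by
          gcongr
          calc (2 : ℝ) ^ θ ≤ 2 ^ (1 : ℝ) := Real.rpow_le_rpow_of_exponent_le (by norm_num) hθ1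
            _ = 2 := Real.rpow_one 2
  have h9 : 1 ≤ (N : ℝ) ^ θ := Real.one_le_rpow hN1 hθ.le
  have h10 := one_le_log h2
  have h11 : (g N : ℝ) ≤ 2 + 20 * (j : ℝ) ^ 2 * (2 ^ ⌊θ * j⌋₊ + 2) := by exact_mod_cast h6
  have h12 : (g N : ℝ) ≤ 722 * (Real.log N ^ 2 * (N : ℝ) ^ θ) := by
    have h14 : 20 * (j : ℝ) ^ 2 * (2 ^ ⌊θ * j⌋₊ + 2) ≤
        20 * (3 * Real.log N) ^ 2 * (2 * (N : ℝ) ^ θ + 2 * (N : ℝ) ^ θ) := by
      gcongr
      linarith
    have h13 : 1 ≤ Real.log N ^ 2 * (N : ℝ) ^ θ := by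
      have := one_le_pow₀ h10 (n := 2)
      nlinarith
    nlinarith
  calc (g N : ℝ) ≤ 722 * (Real.log N ^ 2 * (N : ℝ) ^ θ) := h12
    _ ≤ (N : ℝ) ^ (ε / 2) * (((N : ℝ) ^ (ε / 4)) ^ 2 * (N : ℝ) ^ θ) := by gcongr
    _ = (N : ℝ) ^ (θ + ε) := by
        rw [← Real.rpow_natCast, ← Real.rpow_mul hN.le, ← Real.rpow_add hN, ← Real.rpow_add hN]
        congr 1
        push_cast
        ring

theorem main (hB : S_BLK) (hR : S_REP) (hW : S_WRD) : S_PAR := by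
  intro k θ hk hθ hkθ
  have hkR : (1 : ℝ) ≤ k := by exact_mod_cast hk
  have hθ1 : θ ≤ 1 := by nlinarith
  choose S hS hSc using exists_DS
  obtain ⟨a, ha⟩ : ∃ a, a = 6 * k + 10 := ⟨_, rfl⟩
  obtain ⟨E, hE⟩ : ∃ E, E = EE a := ⟨_, rfl⟩
  obtain ⟨l, hl⟩ : ∃ l, l = ll a := ⟨_, rfl⟩
  obtain ⟨s, hs⟩ : ∃ s : ℕ → ℕ, s = fun m => ⌊θ * E m⌋₊ - (l m + 4) := ⟨_, rfl⟩
  have hE0 : E 0 = a := by rw [hE]; rfl
  have hE1 : ∀ m, E (m + 1) = E m ^ 2 := fun m => by rw [hE]; rfl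
  have hl0 : l 0 = 0 := by rw [hl]; rfl
  have hl1 : ∀ m, l (m + 1) = E m + 1 := fun m => by rw [hl, hE]; rfl
  have hEa : ∀ m, a ≤ E m := by
    intro m
    induction m with
    | zero => rw [hE0]
    | succ m ih =>
      rw [hE1]
      nlinarith
  have hEm : ∀ m, m ≤ E m := by
    intro m
    induction m with
    | zero => omega
    | succ m ih =>
      rw [hE1]
      have := hEa m
      nlinarith
  have hlE1 : ∀ m, l m + 6 * k + 2 ≤ E m := by
    intro m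
    cases m with
    | zero => rw [hl0, hE0]; omega
    | succ m =>
      rw [hl1, hE1]
      have := hEa m
      nlinarith
  have hlE2 : ∀ m, l m + (2 * s m + 6) * k + 2 ≤ E m := by
    intro m
    rcases Nat.eq_zero_or_pos (s m) with h0 | h0
    · rw [h0]
      have := hlE1 m
      omega
    · have h1 : s m + (l m + 4) = ⌊θ * E m⌋₊ := by
        have : s m = ⌊θ * E m⌋₊ - (l m + 4) := by rw [hs]
        omega
      have h2 : (2 * k) * ⌊θ * E m⌋₊ ≤ E m := by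
        have h3 : ((⌊θ * E m⌋₊ : ℕ) : ℝ) ≤ θ * E m := Nat.floor_le (by positivity)
        have h4 : ((2 * k * ⌊θ * E m⌋₊ : ℕ) : ℝ) ≤ E m := by
          push_cast
          calc 2 * (k : ℝ) * ⌊θ * E m⌋₊ ≤ 2 * k * (θ * E m) := by gcongr
            _ = (2 * k * θ) * E m := by ring
            _ ≤ 1 * E m := by gcongr
            _ = E m := one_mul _
        exact_mod_cast h4
      rw [← h1] at h2
      nlinarith
  obtain ⟨M, hM⟩ : ∃ M : ℕ → ℕ, M = fun j : ℕ => 2 ^ ⌊θ * (j : ℝ)⌋₊ + 2 := ⟨_, rfl⟩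
  have hMm : Monotone M := by
    intro i j hij
    rw [hM]
    show 2 ^ ⌊θ * (i : ℝ)⌋₊ + 2 ≤ 2 ^ ⌊θ * (j : ℝ)⌋₊ + 2
    have h1 : ⌊θ * (i : ℝ)⌋₊ ≤ ⌊θ * (j : ℝ)⌋₊ := by
      apply Nat.floor_mono
      gcongr
    have h2 : 2 ^ ⌊θ * (i : ℝ)⌋₊ ≤ 2 ^ ⌊θ * (j : ℝ)⌋₊ := Nat.pow_le_pow_right (by norm_num) h1
    omega
  have hM1 : ∀ j, 1 ≤ M j := by
    intro j
    rw [hM]
    exact le_trans (by norm_num) (Nat.le_add_left 2 _)
  have hMc : ∀ m, (S (s m)).card + 1 ≤ M (E m) := by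
    intro m
    rw [hSc, hM]
    show 2 ^ s m + 1 ≤ 2 ^ ⌊θ * (E m : ℝ)⌋₊ + 2
    have h1 : s m ≤ ⌊θ * (E m : ℝ)⌋₊ := by
      rw [hs]
      exact Nat.sub_le _ _
    have h2 : 2 ^ s m ≤ 2 ^ ⌊θ * (E m : ℝ)⌋₊ := Nat.pow_le_pow_right (by norm_num) h1
    omega
  obtain ⟨Y, hY⟩ : ∃ Y : ℕ → Finset ℕ, Y = fun m => blk (S (s m)) (l m) (2 * s m + 6) k :=
    ⟨_, rfl⟩
  have hY1 : ∀ m, ∀ y ∈ Y m, 4 * y < 2 ^ E m ∧ 2 ^ l m ∣ y := by
    intro m y hy
    rw [hY] at hy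
    obtain ⟨h1, h2⟩ := (hB (S (s m)) (l m) (2 * s m + 6) (hS (s m)) k).1 y hy
    refine ⟨?_, h2⟩
    have h3 : 2 ^ (l m + (2 * s m + 6) * k + 1) ≤ 2 ^ E m :=
      Nat.pow_le_pow_right (by norm_num) (by have := hlE2 m; omega)
    rw [pow_succ] at h3
    omega
  have hY2 : ∀ m, (Y m).card = (2 ^ s m) ^ k := by
    intro m
    rw [hY]
    have := (hB (S (s m)) (l m) (2 * s m + 6) (hS (s m)) k).2.1
    rw [hSc] at this
    exact this
  have hY3 : ∀ m n, rf (Y m) n ≤ 2 ^ k := by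
    intro m n
    rw [hY]
    exact (hB (S (s m)) (l m) (2 * s m + 6) (hS (s m)) k).2.2 n
  have hgram : ∀ j N : ℕ, N ≤ 2 ^ j →
      gram (aset E Y) N ≤ 2 + 20 * j ^ 2 * (2 ^ ⌊θ * j⌋₊ + 2) := by
    intro j N hN
    have h1 := hW E l (fun m => 2 * s m + 6) (fun m => S (s m)) k M (fun m => hS (s m)) hlE2
      (fun m => (hl1 m).ge) hMm hM1 hMc j
    have h2 := h1.gen (w := pre (aset E Y) (2 ^ j)) (Or.inr (Or.inl (by rw [hY])))
    have h3 := gram_le hN h2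
    rw [hM] at h3
    exact h3
  refine ⟨aset E Y, ?_, ?_, ?_⟩
  · intro ε hε
    exact pow_asym hθ hθ1 hgram ε hε
  · refine hR E l Y (2 ^ k) ?_ (fun m => by have := hlE1 m; omega) (fun m => (hl1 m).ge) hY1 hY3
    calc 2 = 2 ^ 1 := rfl
      _ ≤ 2 ^ k := Nat.pow_le_pow_right (by norm_num) hk
  · intro ε hε
    rw [Filter.frequently_atTop]
    intro N0
    obtain ⟨m, hm⟩ := exists_nat_ge (max (N0 : ℝ) (k * (7 + θ) / ε))
    obtain ⟨x, hx⟩ : ∃ x, x = E m := ⟨_, rfl⟩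
    have hxm : m ≤ x := by rw [hx]; exact hEm m
    have hxm' : (m : ℝ) ≤ x := by exact_mod_cast hxm
    have hx1 : (1 : ℝ) ≤ x := by
      have := hEa m
      have h : 1 ≤ x := by omega
      exact_mod_cast h
    have hxN : (N0 : ℝ) ≤ x := (le_max_left _ _).trans (hm.trans hxm')
    have hxN' : N0 ≤ x := by exact_mod_cast hxN
    have hxk : k * (7 + θ) ≤ ε * x := by
      have h1 : k * (7 + θ) / ε ≤ x := (le_max_right _ _).trans (hm.trans hxm')
      rw [div_le_iff₀ hε] at h1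
      linarith
    have hE2 : E (m + 1) = x ^ 2 := by rw [hE1, hx]
    refine ⟨2 ^ (E (m + 1) + 1), ?_, ?_⟩
    · have h1 : E (m + 1) + 1 < 2 ^ (E (m + 1) + 1) := Nat.lt_two_pow_self
      have h2 : x ≤ E (m + 1) := by
        rw [hE2]
        nlinarith
      omega
    · -- the number of the elements
      have h1 : 2 ^ (k * s (m + 1)) ≤ (aset E Y ∩ Set.Icc 1 (2 ^ (E (m + 1) + 1))).ncard := by
        have h2 : ((Y (m + 1)).image (fun y => 2 ^ E (m + 1) + y)).card = 2 ^ (k * s (m + 1)) := by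
          rw [Finset.card_image_of_injective _ (fun a b h => by simpa using h), hY2, ← pow_mul,
            mul_comm]
        rw [← h2, ← Set.ncard_coe_finset]
        apply Set.ncard_le_ncard
        · intro z hz
          rw [Finset.mem_coe, Finset.mem_image] at hz
          obtain ⟨y, hy, rfl⟩ := hz
          refine ⟨⟨m + 1, y, hy, rfl⟩, ?_, ?_⟩
          · have : 0 < 2 ^ E (m + 1) := by positivity
            omega
          · have := (hY1 _ y hy).1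
            rw [pow_succ]
            omega
        · exact (Set.finite_Icc _ _).subset Set.inter_subset_right
      have h3 : ((2 ^ (k * s (m + 1)) : ℕ) : ℝ) ≤
          ((aset E Y ∩ Set.Icc 1 (2 ^ (E (m + 1) + 1))).ncard : ℝ) := by exact_mod_cast h1
      refine le_trans ?_ h3
      have h4 : θ * x ^ 2 - x - 6 ≤ (s (m + 1) : ℝ) := by
        have h5 : ⌊θ * (E (m + 1) : ℝ)⌋₊ ≤ s (m + 1) + (x + 1 + 4) := by
          have h6 : s (m + 1) = ⌊θ * (E (m + 1) : ℝ)⌋₊ - (l (m + 1) + 4) := by rw [hs]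
          have h7 : l (m + 1) = x + 1 := by rw [hl1, hx]
          omega
        have h6 : ((⌊θ * (E (m + 1) : ℝ)⌋₊ : ℕ) : ℝ) ≤ s (m + 1) + (x + 1 + 4) := by
          exact_mod_cast h5
        have h7 := (Nat.lt_floor_add_one (θ * (E (m + 1) : ℝ))).le
        rw [hE2] at h7 h6
        push_cast at h7 h6
        linarith
      push_cast
      rw [← Real.rpow_natCast, ← Real.rpow_natCast, ← Real.rpow_mul (by norm_num)]
      apply Real.rpow_le_rpow_of_exponent_le (by norm_num)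
      rw [hE2]
      push_cast
      have h8 : (k : ℝ) * (θ * x ^ 2 - x - 6) ≤ k * s (m + 1) := by gcongr
      have h9 : (k : ℝ) * (7 + θ) * x ≤ ε * x * x := by gcongr
      nlinarith

end Pool.Agent.Helper42.GT.PAR
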