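import Pool.Agent.Helper42.GT.Stm3

/-!
# Elementary properties of the digit blocks `qs` (module QST, helper36)
-/

set_option autoImplicit false

open Finset

namespace Pool.Agent.Helper42.GT.QST

open Pool.Agent.Helper42.GT
open Pool.Agent.Helper76.FX (dset Good wt dig wt_succ wt_zero wt_mono wt_pos dig_block)

lemma mem_lay {S Y : Finset ℕ} {L y : ℕ} :
    y ∈ lay S L Y ↔ ∃ d ∈ S, ∃ z ∈ Y, y = d * L + z := by
  unfold lay
  rw [mem_image]
  constructor
  · rintro ⟨⟨d, z⟩, hp, rfl⟩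
    rw [mem_product] at hp
    exact ⟨d, hp.1, z, hp.2, rfl⟩
  · rintro ⟨d, hd, z, hz, rfl⟩
    exact ⟨(d, z), mem_product.2 ⟨hd, hz⟩, rfl⟩

lemma card_lay {S Y : Finset ℕ} {L : ℕ} (h : ∀ y ∈ Y, y < L) :
    (lay S L Y).card = Y.card * S.card := by
  unfold lay
  rw [card_image_of_injOn, card_product, mul_comm]
  rintro ⟨d, z⟩ hp ⟨d', z'⟩ hp' he
  rw [mem_coe, mem_product] at hp hp'
  simp only at he hp hp'
  have h1 := h _ hp.2
  have h2 := h _ hp'.2
  have hL : 0 < L := by omega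
  have e1 : z = z' := by
    have := congrArg (· % L) he
    simp only [Nat.mul_add_mod', Nat.mod_eq_of_lt h1, Nat.mod_eq_of_lt h2] at this
    exact this
  subst e1
  have e2 : d * L = d' * L := by omega
  have e3 := Nat.eq_of_mul_eq_mul_right hL e2
  rw [e3]

lemma wp_succ (ρ : ℕ → ℕ) (j : ℕ) : wp ρ (j + 1) = wp ρ j + ρ j := by
  simp [wp, sum_range_succ]

lemma wt_eq (ρ : ℕ → ℕ) (j : ℕ) : wt (fun j => 2 ^ ρ j) j = 2 ^ wp ρ j := by
  unfold wt wp
  rw [prod_pow_eq_pow_sum]

lemma bound (ρ : ℕ → ℕ) (T : ℕ → ℕ → Finset ℕ) (b : ℕ)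
    (hT : ∀ c, ∀ d ∈ T b c, 0 < d ∧ d < 2 ^ ρ (b + c)) (c : ℕ) :
    ∀ y ∈ qs ρ T b c, y < 2 ^ wp ρ (b + c) := by
  induction c with
  | zero =>
    intro y hy
    simp only [qs, mem_singleton] at hy
    subst hy
    positivity
  | succ c ih =>
    intro y hy
    simp only [qs] at hy
    obtain ⟨d, hd, z, hz, rfl⟩ := mem_lay.1 hy
    have h1 := (hT c d hd).2
    have h2 := ih z hz
    rw [show b + (c + 1) = (b + c) + 1 by ring, wp_succ, pow_add]
    calc d * 2 ^ wp ρ (b + c) + z < d * 2 ^ wp ρ (b + c) + 2 ^ wp ρ (b + c) := by omega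
      _ = 2 ^ wp ρ (b + c) * (d + 1) := by ring
      _ ≤ 2 ^ wp ρ (b + c) * 2 ^ ρ (b + c) := Nat.mul_le_mul_left _ h1

lemma digits (ρ : ℕ → ℕ) (T : ℕ → ℕ → Finset ℕ) (b : ℕ)
    (hT : ∀ c, ∀ d ∈ T b c, 0 < d ∧ d < 2 ^ ρ (b + c)) (h2 : ∀ j, 2 ≤ 2 ^ ρ j) (c : ℕ) :
    ∀ y ∈ qs ρ T b c, ∀ j, dig (fun j => 2 ^ ρ j) y j = 0 ∨
      (b ≤ j ∧ j < b + c ∧ dig (fun j => 2 ^ ρ j) y j ∈ T b (j - b)) := by
  set q : ℕ → ℕ := fun j => 2 ^ ρ j with hq
  have hq2 : ∀ j, 2 ≤ q j := h2
  induction c with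
  | zero =>
    intro y hy j
    simp only [qs, mem_singleton] at hy
    subst hy
    left
    simp [dig]
  | succ c ih =>
    intro y hy j
    simp only [qs] at hy
    obtain ⟨d, hd, z, hz, rfl⟩ := mem_lay.1 hy
    have hd2 := (hT c d hd).2
    have hzb : z < wt q (b + c) := by
      rw [hq, wt_eq]
      exact bound ρ T b hT c z hz
    have hw : (2 : ℕ) ^ wp ρ (b + c) = wt q (b + c) := by rw [hq, wt_eq]
    rw [hw, dig_block hq2 hzb]
    have hpos := wt_pos hq2 (b + c)
    split_ifs with hj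
    · rcases ih z hz j with h | ⟨h1, h3, h4⟩
      · exact Or.inl h
      · exact Or.inr ⟨h1, by omega, h4⟩
    · rcases Nat.lt_or_ge (b + c) j with hlt | hge
      · left
        unfold dig
        rw [Nat.div_eq_of_lt, Nat.zero_mod]
        have h1 : wt q (b + c + 1) ≤ wt q j := wt_mono hq2 hlt
        refine lt_of_lt_of_le ?_ h1
        rw [wt_succ, mul_comm]
        exact Nat.mul_lt_mul_of_pos_left hd2 hpos
      · have hje : j = b + c := by omega
        subst hje
        right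
        refine ⟨by omega, by omega, ?_⟩
        have : dig q (d * wt q (b + c)) (b + c) = d := by
          unfold dig
          rw [Nat.mul_div_cancel _ hpos]
          exact Nat.mod_eq_of_lt hd2
        rw [this, show b + c - b = c by omega]
        exact hd

theorem main : S_QST := by
  intro ρ T b hT
  have hb := bound ρ T b hT
  refine ⟨fun c => ⟨hb c, ?_⟩, ?_, ?_⟩
  · induction c with
    | zero => simp [qs]
    | succ c ih =>
      simp only [qs]
      rw [card_lay (hb c), ih, prod_range_succ]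
  · intro c y hy
    simp only [qs] at hy
    obtain ⟨d, hd, z, hz, rfl⟩ := mem_lay.1 hy
    have h1 := (hT c d hd).1
    calc 2 ^ wp ρ (b + c) = 1 * 2 ^ wp ρ (b + c) := by ring
      _ ≤ d * 2 ^ wp ρ (b + c) := Nat.mul_le_mul_right _ h1
      _ ≤ d * 2 ^ wp ρ (b + c) + z := Nat.le_add_right _ _
  · intro S k hG hTS hk y hy
    have hdig := digits ρ T b hT hG.two k y hy
    refine ⟨fun j => ?_, ?_⟩
    · rcases hdig j with h | ⟨h1, _, h3⟩
      · rw [h]
        exact hG.zero j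
      · have := hTS (j - b) h3
        rwa [show b + (j - b) = j by omega] at this
    · intro i j hi hj hij
      rcases hdig i with h | ⟨h1, h2, _⟩
      · exact absurd h hi
      rcases hdig j with h | ⟨h3, h4, _⟩
      · exact absurd h hj
      by_contra hne
      rcases Nat.lt_or_gt_of_ne hne with hlt | hlt
      · have h5 : (j - i) % k = 0 := by
          exact Nat.mod_eq_zero_of_dvd ((Nat.modEq_iff_dvd' hlt.le).1 hij)
        have h6 : (j - i) % k = j - i := Nat.mod_eq_of_lt (by omega)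
        omega
      · have h5 : (i - j) % k = 0 := Nat.mod_eq_zero_of_dvd ((Nat.modEq_iff_dvd' hlt.le).1 hij.symm)
        have h6 : (i - j) % k = i - j := Nat.mod_eq_of_lt (by omega)
        omega

end Pool.Agent.Helper42.GT.QST
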