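import Pool.Agent.Helper42.GT.Stm

/-!
# The representations by a union of sparse blocks
-/

set_option autoImplicit false

open Finset

namespace Pool.Agent.Helper42.GT.REP

open Pool.Agent.Helper42.GC (rf)
open Pool.Agent.Helper76.FX (rep)

theorem main : S_REP := by
  classical
  intro E l Y R hR hlE hEl hY hrf n
  have hEstep : ∀ m, E m + 3 ≤ E (m + 1) := fun m => by
    have h1 := hEl m
    have h2 := hlE (m + 1)
    omega
  have hEmono : StrictMono E := strictMono_nat_of_lt_succ fun m => by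
    have := hEstep m
    omega
  have hlmono : Monotone l := monotone_nat_of_le_succ fun m => by
    have h1 := hEl m
    have h2 := hlE m
    omega
  have hElt : ∀ m m', m < m' → E m + 3 ≤ E m' := fun m m' h =>
    (hEstep m).trans (hEmono.monotone h)
  have hlow : ∀ m m' y, m < m' → y ∈ Y m → 2 ^ E m + y < 2 ^ l m' := by
    intro m m' y h hy
    have h1 := (hY m y hy).1
    have h2 : 2 ^ (E m + 1) ≤ 2 ^ l m' :=
      Nat.pow_le_pow_right (by norm_num) ((hEl m).trans (hlmono h))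
    rw [pow_succ] at h2
    omega
  have hl4 : ∀ m, 4 * 2 ^ l m ≤ 2 ^ E m := fun m => by
    have h1 : 2 ^ (l m + 2) ≤ 2 ^ E m := Nat.pow_le_pow_right (by norm_num) (hlE m)
    rw [pow_add] at h1
    omega
  -- the case of two different blocks
  have hdiff : ∀ i j y y', i < j → y ∈ Y i → y' ∈ Y j → (2 ^ E i + y) + (2 ^ E j + y') = n →
      2 ^ E j ≤ n ∧ n < 2 * 2 ^ E j ∧ 2 ^ E i + y = n % 2 ^ l j ∧
        2 ^ E j + y' = n - n % 2 ^ l j := by
    intro i j y y' hij hy hy' h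
    have h1 := hlow i j y hij hy
    obtain ⟨h2, h3⟩ := hY j y' hy'
    have h4 := hl4 j
    have h5 : 2 ^ l j ∣ 2 ^ E j + y' := by
      refine Dvd.dvd.add (pow_dvd_pow _ ?_) h3
      have := hlE j
      omega
    obtain ⟨c, hc⟩ := h5
    have h6 : n % 2 ^ l j = 2 ^ E i + y := by
      rw [← h, hc, Nat.add_mul_mod_self_left, Nat.mod_eq_of_lt h1]
    refine ⟨by omega, by omega, h6.symm, by omega⟩
  -- the shape of every representation
  have hshape : ∀ p : ℕ × ℕ, p.1 ∈ aset E Y → p.2 ∈ aset E Y → p.1 + p.2 = n →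
      ∃ M, (2 ^ E M ≤ n ∧ n < 4 * 2 ^ E M) ∧
        ((2 * 2 ^ E M ≤ n ∧ ∃ y ∈ Y M, ∃ y' ∈ Y M, p = (2 ^ E M + y, 2 ^ E M + y') ∧
          y + y' = n - 2 * 2 ^ E M) ∨
        (n < 2 * 2 ^ E M ∧ (p = (n - n % 2 ^ l M, n % 2 ^ l M) ∨
          p = (n % 2 ^ l M, n - n % 2 ^ l M)))) := by
    rintro ⟨a, b⟩ ⟨i, y, hy, ha⟩ ⟨j, y', hy', hb⟩ h
    simp only at ha hb h
    rcases lt_trichotomy i j with hij | hij | hij
    · obtain ⟨h1, h2, h3, h4⟩ := hdiff i j y y' hij hy hy' (by rw [← ha, ← hb]; exact h)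
      refine ⟨j, ⟨h1, by omega⟩, Or.inr ⟨h2, Or.inr ?_⟩⟩
      rw [ha, hb, h3, h4]
    · subst hij
      have h1 := (hY i y hy).1
      have h2 := (hY i y' hy').1
      refine ⟨i, ⟨by omega, by omega⟩, Or.inl ⟨by omega, y, hy, y', hy', ?_, by omega⟩⟩
      rw [ha, hb]
    · obtain ⟨h1, h2, h3, h4⟩ := hdiff j i y' y hij hy' hy
        (by rw [← ha, ← hb]; omega)
      refine ⟨i, ⟨h1, by omega⟩, Or.inr ⟨h2, Or.inl ?_⟩⟩
      rw [ha, hb, h3, h4]
  have huniq : ∀ M M', 2 ^ E M ≤ n → n < 4 * 2 ^ E M → 2 ^ E M' ≤ n → n < 4 * 2 ^ E M' →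
      M = M' := by
    have key : ∀ M M', M < M' → n < 4 * 2 ^ E M → 2 ^ E M' ≤ n → False := by
      intro M M' h h1 h2
      have h3 : 2 ^ (E M + 3) ≤ 2 ^ E M' := Nat.pow_le_pow_right (by norm_num) (hElt M M' h)
      rw [pow_add] at h3
      omega
    intro M M' h1 h2 h3 h4
    rcases lt_trichotomy M M' with h | h | h
    · exact (key M M' h h2 h3).elim
    · exact h
    · exact (key M' M h h4 h1).elim
  unfold rep
  rcases Set.eq_empty_or_nonempty
    {p : ℕ × ℕ | p.1 ∈ aset E Y ∧ p.2 ∈ aset E Y ∧ p.1 + p.2 = n} with he | ⟨p0, hp0⟩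
  · rw [he, Set.ncard_empty]
    exact Nat.zero_le _
  obtain ⟨M, ⟨hM1, hM2⟩, hM3⟩ := hshape p0 hp0.1 hp0.2.1 hp0.2.2
  rcases Nat.lt_or_ge n (2 * 2 ^ E M) with hn | hn
  · have hsub : {p : ℕ × ℕ | p.1 ∈ aset E Y ∧ p.2 ∈ aset E Y ∧ p.1 + p.2 = n} ⊆
        ((({(n - n % 2 ^ l M, n % 2 ^ l M), (n % 2 ^ l M, n - n % 2 ^ l M)} :
          Finset (ℕ × ℕ))) : Set (ℕ × ℕ)) := by
      rintro p ⟨h1, h2, h3⟩
      obtain ⟨M', ⟨h4, h5⟩, h6⟩ := hshape p h1 h2 h3
      have h7 := huniq M M' hM1 hM2 h4 h5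
      subst h7
      rcases h6 with ⟨h8, _⟩ | ⟨_, h8 | h8⟩
      · omega
      · rw [h8]
        simp
      · rw [h8]
        simp
    have h1 := Set.ncard_le_ncard hsub (Finset.finite_toSet _)
    rw [Set.ncard_coe_finset] at h1
    exact h1.trans (Finset.card_le_two.trans hR)
  · have hsub : {p : ℕ × ℕ | p.1 ∈ aset E Y ∧ p.2 ∈ aset E Y ∧ p.1 + p.2 = n} ⊆
        (((((Y M ×ˢ Y M).filter (fun p => p.1 + p.2 = n - 2 * 2 ^ E M)).image
          (fun p => (2 ^ E M + p.1, 2 ^ E M + p.2))) : Finset (ℕ × ℕ)) : Set (ℕ × ℕ)) := by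
      rintro p ⟨h1, h2, h3⟩
      obtain ⟨M', ⟨h4, h5⟩, h6⟩ := hshape p h1 h2 h3
      have h7 := huniq M M' hM1 hM2 h4 h5
      subst h7
      rcases h6 with ⟨_, y, hy, y', hy', h8, h9⟩ | ⟨h8, _⟩
      · rw [mem_coe, mem_image]
        exact ⟨(y, y'), mem_filter.2 ⟨mem_product.2 ⟨hy, hy'⟩, h9⟩, h8.symm⟩
      · omega
    have h1 := Set.ncard_le_ncard hsub (Finset.finite_toSet _)
    rw [Set.ncard_coe_finset] at h1
    exact h1.trans (card_image_le.trans (hrf M _))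

end Pool.Agent.Helper42.GT.REP
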