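import Pool.Agent.Helper42.GC.Thr

/-!
# Compressibility against the number of representations: statements of the modules

`rf X n` is the number of ordered pairs of elements of the finite set `X` with sum `n`; `pre A n` is
the list of the first `n` letters of the characteristic sequence of `A`; `Sys s T`: one straight-line
grammar with `s` rules generates all words `w` with `T w`.
-/

set_option autoImplicit false

open Finset Filter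

namespace Pool.Agent.Helper42.GT

open Pool.Agent.Helper42.GC (pre Sys rf gram Powers)
open Pool.Agent.Helper76.FX (rep)

/-- the numbers `d L + y` with `d ∈ S`, `y ∈ Y` -/
def lay (S : Finset ℕ) (L : ℕ) (Y : Finset ℕ) : Finset ℕ := (S ×ˢ Y).image (fun p => p.1 * L + p.2)

/-- the numbers `∑ j < i, d_j 2 ^ (l + ρ j)` with `d_j ∈ S` -/
def blk (S : Finset ℕ) (l ρ : ℕ) : ℕ → Finset ℕ
  | 0 => {0}
  | i + 1 => lay S (2 ^ (l + ρ * i)) (blk S l ρ i)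

/-- a Sidon set of small digits -/
structure DS (S : Finset ℕ) (ρ : ℕ) : Prop where
  small : ∀ d ∈ S, 2 * d < 2 ^ ρ
  sidon : ∀ a ∈ S, ∀ b ∈ S, ∀ c ∈ S, ∀ d ∈ S, a + b = c + d → (a = c ∧ b = d) ∨ (a = d ∧ b = c)

/-- the union of the blocks `2 ^ (E m) + Y m` -/
def aset (E : ℕ → ℕ) (Y : ℕ → Finset ℕ) : Set ℕ := {a | ∃ m, ∃ y ∈ Y m, a = 2 ^ E m + y}

/-- `|A ∩ [1, N]| ≥ N ^ (α - o(1))` for infinitely many `N` -/
def Often (α : ℝ) (A : Set ℕ) : Prop :=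
  ∀ ε : ℝ, 0 < ε → ∃ᶠ N : ℕ in atTop, (N : ℝ) ^ (α - ε) ≤ ((A ∩ Set.Icc 1 N).ncard : ℝ)

/-- BLK: the elementary properties of `blk`, by induction on `i` (no carries: `d L + y`, `2 y < L`;
`n = (d + d') L + (y + y')` with `y + y' < L` determines `d + d'` and `y + y'`). -/
def S_BLK : Prop := ∀ (S : Finset ℕ) (l ρ : ℕ), DS S ρ → ∀ i : ℕ,
  (∀ y ∈ blk S l ρ i, 2 * y < 2 ^ (l + ρ * i) ∧ 2 ^ l ∣ y) ∧
  (blk S l ρ i).card = S.card ^ i ∧ ∀ n, rf (blk S l ρ i) n ≤ 2 ^ i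

/-- REP: the representations of `n` by `aset E Y`. The largest block `M` that is used, and whether
both terms are in it, is determined by `n`: lower elements are `< 2 ^ l M ≤ 2 ^ (E M - 2)`. Both in block
`M`: at most `rf (Y M) (n - 2 ^ (E M + 1))`. Only one: the other one is `n % 2 ^ l M`, so at most two
ordered pairs. -/
def S_REP : Prop := ∀ (E l : ℕ → ℕ) (Y : ℕ → Finset ℕ) (R : ℕ), 2 ≤ R →
  (∀ m, l m + 2 ≤ E m) → (∀ m, E m + 1 ≤ l (m + 1)) →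
  (∀ m, ∀ y ∈ Y m, 4 * y < 2 ^ E m ∧ 2 ^ l m ∣ y) → (∀ m n, rf (Y m) n ≤ R) →
  ∀ n, rep (aset E Y) n ≤ R

/-- GRM (helper42) -/
def S_GRM : Prop := ∀ (s : ℕ) (T : List Bool → Prop) (L : ℕ) (Y S : Finset ℕ) (ρ : ℕ), Sys s T →
  0 < L → T (pre (Y : Set ℕ) L) → T (pre ∅ L) → (∀ y ∈ Y, y < L) → (∀ d ∈ S, d < 2 ^ ρ) →
  Sys (s + 2 * ρ * (S.card + 1)) (fun w => T w ∨ w = pre (lay S L Y : Set ℕ) (2 ^ ρ * L) ∨
    w = pre ∅ (2 ^ ρ * L))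

/-- WRD (helper42): the grammar of `pre (aset E Y) (2 ^ j)` -/
def S_WRD : Prop := ∀ (E l ρ : ℕ → ℕ) (S : ℕ → Finset ℕ) (k : ℕ) (M : ℕ → ℕ),
  (∀ m, DS (S m) (ρ m)) → (∀ m, l m + ρ m * k + 2 ≤ E m) → (∀ m, E m + 1 ≤ l (m + 1)) →
  Monotone M → (∀ j, 1 ≤ M j) → (∀ m, (S m).card + 1 ≤ M (E m)) → ∀ j : ℕ,
  Sys (2 + 20 * j ^ 2 * M j) (fun w => (∃ c, w = [c]) ∨
    w = pre (aset E (fun m => blk (S m) (l m) (ρ m) k)) (2 ^ j) ∨ w = pre ∅ (2 ^ j))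

/-- PAR: the choice of the parameters. `E 0` large, `E (m + 1) = E m ^ 2`, `l 0 = 0`,
`l (m + 1) = E m + 1`, `s m = ⌊θ E m⌋ - (l m + 4)` (natural subtraction), `ρ m = 2 s m + 6`, `S m` =
`0` together with `2 ^ (s m)` elements of the Sidon set `sid (32 · 4 ^ (s m))` (`sid_spec` in
`Helper76/FX/Gen.lean`), `M j = 2 ^ ⌊θ j⌋ + 2`. Then `l + ρ k + 2 ≤ E` as `2 k θ ≤ 1`;
`gram A N ≤ 2 + 20 j ^ 2 M j` for `N ≤ 2 ^ j ≤ 2 N` (`gram_le`, `Sys.gen`), and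
`|A ∩ [1, N]| ≥ 2 ^ (k s m)` for `N = 2 ^ (E m + 1)`. -/
def S_PAR : Prop := ∀ (k : ℕ) (θ : ℝ), 1 ≤ k → 0 < θ → 2 * k * θ ≤ 1 →
  ∃ A : Set ℕ, Powers θ A ∧ (∀ n, rep A n ≤ 2 ^ k) ∧ Often (k * θ) A

/-- LOW: the lower bound, from `GC.ineq'` (`|A ∩ [1, N]| ≤ gram A N ^ t + 1` if `rep A n < 2 ^ (t + 1)`)
with `t + 1 = ⌈α / κ⌉₊`, so that `t κ < α` (as in `GC.pwG_zero`). -/
def S_LOW : Prop := ∀ (κ α : ℝ) (A : Set ℕ) (R : ℕ), 0 < κ → 0 < α → Powers κ A → Often α A →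
  (∀ n, rep A n ≤ R) → 2 ^ ⌈α / κ⌉₊ ≤ R

/-- ALL: a set which is dense at all scales, from `GC.construct'` with `h = hp η`,
`η = min κ β`: as in the proof of `GC.pwG_lower` (`Helper42/GC/Thr.lean`), with
`z ≤ M ^ ((1 + η) ^ (- k)) ≤ M ^ (β - small)`, `N ≤ 4 M ^ (1 + η)` and
`(1 - β) / (2 (1 + η)) ≥ 1 / 2 - β + small`. The hypothesis gives `(1 + η) ^ k ≥ 1 / β ^ 2 * ...`
as `log (1 + η) ≥ η / 2`. -/
def S_ALL : Prop := ∀ (κ β : ℝ) (k : ℕ), 0 < κ → 0 < β → β < 1 / 2 →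
  4 * Real.log (1 / β) ≤ k * min κ β →
  ∃ A : Set ℕ, Powers κ A ∧ (∀ n, rep A n ≤ 2 ^ k) ∧
    ∀ᶠ N : ℕ in atTop, (N : ℝ) ^ (1 / 2 - β) ≤ ((A ∩ Set.Icc 1 N).ncard : ℝ)

end Pool.Agent.Helper42.GT
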