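import Pool.Agent.Helper42.GT.Stm

/-!
# Compressibility against the number of representations: sets that are dense at all scales
-/

set_option autoImplicit false

open Finset Filter

namespace Pool.Agent.Helper42.GT

open Pool.Agent.Helper42.GC (gram Powers)
open Pool.Agent.Helper76.FX (rep dset Good wt)

/-- DGR (helper42): the grammar complexity of `dset` for radices that are powers of two -/
def S_DGR : Prop := ∀ (ρ : ℕ → ℕ) (S : ℕ → Finset ℕ) (k : ℕ), Good (fun j => 2 ^ ρ j) S → 1 ≤ k →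
  ∀ l N : ℕ, N ≤ wt (fun j => 2 ^ ρ j) l → gram (dset (fun j => 2 ^ ρ j) S k) N ≤
    2 + (2 ^ k + 1) * ∑ j ∈ range l, 2 * ρ j * ((S j).card + 1)

/-- AL2: with `η = 2 κ`: exponents `w 0 = 0`, `w (j + 1) = w j + ρ j`, `ρ j = ⌈η w j⌉₊ + 1`,
`S j = sid (2 ^ (ρ j - 1))`, `A = dset (fun j => 2 ^ ρ j) S k`. `rep_dset`; `wt = 2 ^ w j`;
`(S j).card ^ 2 ≤ 4 * 2 ^ (ρ j - 1)` (Sidon), so `gram A N ≤ C (log N) ^ 2 N ^ (η / 2)` by `S_DGR`;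
`count_consecutive`: `|A ∩ [0, 2 ^ w (i + k))| ≥ ∏ |S (i + c)| ≥ 8 ^ (- k) 2 ^ ((w (i + k) - w i) / 2)`
and `w (i + k) ≥ (1 + η) ^ k w i`, `N < 2 ^ w (i + k + 1) ≤ 2 ^ ((1 + η) w (i + k) + 2)`. The exponent is
`(1 - (1 + η) ^ (- k)) / (2 (1 + η)) > α`. (As in `GC.pwG_lower` or `Helper42/GT/ALL.lean`.) -/
def S_AL2 : Prop := ∀ (α κ : ℝ) (k : ℕ), 0 < α → 0 < κ → 1 ≤ k →
  1 < (1 - 2 * α * (1 + 2 * κ)) * (1 + 2 * κ) ^ k →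
  ∃ A : Set ℕ, Powers κ A ∧ (∀ n, rep A n ≤ 2 ^ k) ∧
    ∀ᶠ N : ℕ in atTop, (N : ℝ) ^ α ≤ ((A ∩ Set.Icc 1 N).ncard : ℝ)

/-- AL3: from `S_AL2` with `k = ⌈c / κ⌉₊`, `κ` small: `(1 + 2 κ) ^ k ≥ exp (c log (1 + 2 κ) / κ)`, which
tends to `exp (2 c) > 1 / (1 - 2 α)`. -/
def S_AL3 : Prop := ∀ α c : ℝ, 0 < α → α < 1 / 2 → Real.log (1 / (1 - 2 * α)) / 2 < c →
  ∃ κ₀ : ℝ, 0 < κ₀ ∧ ∀ κ : ℝ, 0 < κ → κ ≤ κ₀ →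
    ∃ A : Set ℕ, Powers κ A ∧ (∀ n, rep A n ≤ 2 ^ ⌈c / κ⌉₊) ∧
      ∀ᶠ N : ℕ in atTop, (N : ℝ) ^ α ≤ ((A ∩ Set.Icc 1 N).ncard : ℝ)

end Pool.Agent.Helper42.GT
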