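import Pool.Agent.Helper42.GT.Stm2

/-!
# Sets that are dense at all scales, with nearly the least number of representations
-/

set_option autoImplicit false

open Finset Filter

namespace Pool.Agent.Helper42.GT

open Pool.Agent.Helper42.GC (pre Sys gram Powers)
open Pool.Agent.Helper76.FX (rep dset Good wt)

/-- the positions of the windows: `wp ρ j = ρ 0 + ... + ρ (j - 1)` -/
def wp (ρ : ℕ → ℕ) (j : ℕ) : ℕ := ∑ i ∈ range j, ρ i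

/-- the numbers `∑ i < c, d_i 2 ^ wp ρ (b + i)` with `d_i ∈ T b i` -/
def qs (ρ : ℕ → ℕ) (T : ℕ → ℕ → Finset ℕ) (b : ℕ) : ℕ → Finset ℕ
  | 0 => {0}
  | c + 1 => lay (T b c) (2 ^ wp ρ (b + c)) (qs ρ T b c)

/-- the union of the blocks `qs ρ T b k`, `b ≥ b₀` -/
def uset (ρ : ℕ → ℕ) (T : ℕ → ℕ → Finset ℕ) (k b₀ : ℕ) : Set ℕ := {a | ∃ b, b₀ ≤ b ∧ a ∈ qs ρ T b k}

/-- QST: elementary properties of `qs` (induction on `c`; for `dset`: the digit of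
`∑ i < k, d_i 2 ^ wp ρ (b + i)` at the place `b + i`, `i < k`, is `d_i`, all others are `0`, and the
places `b, ..., b + k - 1` are in different residue classes modulo `k`; `wt (fun j => 2 ^ ρ j) j =
2 ^ wp ρ j`, `Helper76/FX/Digits.lean`). -/
def S_QST : Prop := ∀ (ρ : ℕ → ℕ) (T : ℕ → ℕ → Finset ℕ) (b : ℕ),
  (∀ c, ∀ d ∈ T b c, 0 < d ∧ d < 2 ^ ρ (b + c)) →
  (∀ c, (∀ y ∈ qs ρ T b c, y < 2 ^ wp ρ (b + c)) ∧ (qs ρ T b c).card = ∏ i ∈ range c, (T b i).card) ∧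
  (∀ c, ∀ y ∈ qs ρ T b (c + 1), 2 ^ wp ρ (b + c) ≤ y) ∧
  ∀ (S : ℕ → Finset ℕ) (k : ℕ), Good (fun j => 2 ^ ρ j) S → (∀ c, T b c ⊆ S (b + c)) → 1 ≤ k →
    ∀ y ∈ qs ρ T b k, y ∈ dset (fun j => 2 ^ ρ j) S k

/-- GRQ (helper42): the grammar of `uset` -/
def S_GRQ : Prop := ∀ (ρ : ℕ → ℕ) (T : ℕ → ℕ → Finset ℕ) (k b₀ : ℕ) (M : ℕ → ℕ), 1 ≤ k →
  (∀ b c, ∀ d ∈ T b c, 0 < d ∧ d < 2 ^ ρ (b + c)) → Monotone M → (∀ j, 1 ≤ M j) →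
  (∀ b, b₀ ≤ b → ∀ c < k, (T b c).card ≤ M (b + k)) → ∀ j N : ℕ, N ≤ 2 ^ wp ρ j →
  gram (uset ρ T k b₀) N ≤ 2 + 20 * (j + 1) * (wp ρ j + 1) * M j

/-- AL4: windows `ρ j = ⌈η wp ρ j⌉₊ + 1` (the functions `wv`, `rv` of `Helper42/GT/AL2.lean`, `wp = wv`),
`S j = sid (2 ^ (ρ j - 1))`, `s b = (ρ b - 8) / 2`, `b₀` such that `ρ b₀ ≥ 8`, `T b c` a subset of
`S (b + c) \ {0}` with `2 ^ (s b)` elements (`card ≥ 2 ^ ((ρ - 6) / 2) ≥ 2 ^ (s b) + 1`), for `b ≥ b₀`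
(`T b c = ∅` for `b < b₀`), `A = uset ρ T k b₀ ⊆ dset (fun j => 2 ^ ρ j) S k`, so `rep A ≤ 2 ^ k`.
`M j = 2 ^ (s (j - k))`, and `wp (j - 1) ≥ (1 + η) ^ (k - 1) wp (j - k)`: the exponent of `gram A N`
is `η / (2 (1 + η) ^ (k - 1)) < κ`. `|A ∩ [1, N]| ≥ 2 ^ (k s b)` for `N ≥ 2 ^ wp (b + k)`, and
`wp (b + k + 1) ≤ (1 + η) ^ (k + 1) wp b + C`: the exponent is `k η / (2 (1 + η) ^ (k + 1)) > α`. -/
def S_AL4 : Prop := ∀ (α κ η : ℝ) (k : ℕ), 0 < α → 0 < κ → 0 < η → 1 ≤ k →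
  η < 2 * κ * (1 + η) ^ (k - 1) → 2 * α * (1 + η) ^ (k + 1) < k * η →
  ∃ A : Set ℕ, Powers κ A ∧ (∀ n, rep A n ≤ 2 ^ k) ∧
    ∀ᶠ N : ℕ in atTop, (N : ℝ) ^ α ≤ ((A ∩ Set.Icc 1 N).ncard : ℝ)

/-- AL5: from `S_AL4`. Choose `t ∈ (0, 1)` with `α < t exp (- t) / 2 < c` (intermediate value theorem:
`t exp (- t) / 2` runs from `0` to `1 / (2 e)`), `k = ⌈c / κ⌉₊`, `η = t / k`; as `κ → 0`, `(1 + t / k) ^ k → exp t`,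
so `η < 2 κ (1 + η) ^ (k - 1)` and `2 α (1 + η) ^ (k + 1) < t` for small `κ`. (Useful:
`(1 + t / k) ^ (k + 1) ≤ exp (t + t / k)` and `(1 + η) ^ k ≥ exp (t - t ^ 2 / k)` from
`log (1 + η) ≥ η - η ^ 2`.) -/
def S_AL5 : Prop := ∀ α c : ℝ, 0 < α → α < Real.exp (-1) / 2 → α < c →
  ∃ κ₀ : ℝ, 0 < κ₀ ∧ ∀ κ : ℝ, 0 < κ → κ ≤ κ₀ →
    ∃ A : Set ℕ, Powers κ A ∧ (∀ n, rep A n ≤ 2 ^ ⌈c / κ⌉₊) ∧
      ∀ᶠ N : ℕ in atTop, (N : ℝ) ^ α ≤ ((A ∩ Set.Icc 1 N).ncard : ℝ)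

end Pool.Agent.Helper42.GT
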