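import Pool.Agent.Helper42.GT.Stm3

/-!
# Sets that are dense at all scales: the general trade-off
-/

set_option autoImplicit false

open Finset Filter

namespace Pool.Agent.Helper42.GT

open Pool.Agent.Helper42.GC (pre Sys gram Powers)
open Pool.Agent.Helper76.FX (rep dset Good wt)

/-- AL6: generalises AL4 (`Helper42/GT/AL4.lean`): the same windows `ρ j = ⌈η wp ρ j⌉₊ + 1` and Sidon sets
`S j`, but now `T b c` is a subset of `S (b + c) \ {0}` with `2 ^ (min (σ b) ((ρ (b + c) - 8) / 2))`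
elements, `σ b = ⌊κ wp (b + k - 1)⌋₊`. So `M j = 2 ^ (⌊κ wp (j - 1)⌋₊)` and `gram A N ≤ N ^ (κ + o(1))`;
`|A ∩ [1, N]| ≥ ∏ c < k, |T b c|` for `N ≥ 2 ^ wp (b + k)`; with `W = wp (b + k)` and `c = k - 1 - i`:
`σ b ≥ κ W / (1 + η) - C`, `ρ (b + c) ≥ η wp (b + c) ≥ η W (1 + η) ^ (- (i + 1)) - C`,
`N < 2 ^ wp (b + k + 1) ≤ 2 ^ ((1 + η) W + 2)`. -/
def S_AL6 : Prop := ∀ (α κ η : ℝ) (k : ℕ), 0 < α → 0 < κ → 0 < η → 1 ≤ k →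
  2 * α * (1 + η) ^ 2 < ∑ i ∈ range k, min (2 * κ) (η / (1 + η) ^ i) →
  ∃ A : Set ℕ, Powers κ A ∧ (∀ n, rep A n ≤ 2 ^ k) ∧
    ∀ᶠ N : ℕ in atTop, (N : ℝ) ^ α ≤ ((A ∩ Set.Icc 1 N).ncard : ℝ)

/-- AL7: from `S_AL6` with `k = ⌈c / κ⌉₊`, `η = 2 κ u`: `(1 + η) ^ (- i) ≥ exp (- η i)`, so the sum is at
least `∑ i < k, 2 κ min 1 (u exp (- η i)) ≥ 2 κ ∫ y in 0..k, min 1 (u exp (- η y))`
(`AntitoneOn.integral_le_sum`) `= 2 ∫ x in 0..(κ k), min 1 (u exp (- 2 u x))`, which is at least twice the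
integral up to `c`. -/
def S_AL7 : Prop := ∀ α c u : ℝ, 0 < α → 0 < c → 0 < u →
  α < ∫ x in (0 : ℝ)..c, min 1 (u * Real.exp (-(2 * u * x))) →
  ∃ κ₀ : ℝ, 0 < κ₀ ∧ ∀ κ : ℝ, 0 < κ → κ ≤ κ₀ →
    ∃ A : Set ℕ, Powers κ A ∧ (∀ n, rep A n ≤ 2 ^ ⌈c / κ⌉₊) ∧
      ∀ᶠ N : ℕ in atTop, (N : ℝ) ^ α ≤ ((A ∩ Set.Icc 1 N).ncard : ℝ)

end Pool.Agent.Helper42.GT
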